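import Mathlib

/-!
# Project LU, analysis: statements

Small volume mass gap of lattice Yang-Mills theory (law `g ^ (2 / 3)`).  This file contains the
definitions and the statements of the analytic lemmas.  Proofs of lemma `X` are in other files and
have the form `theorem t_X : S_X`.
-/

set_option autoImplicit false

namespace Pool.Agent.Q77.LU

open MeasureTheory Set Filter Topology
open scoped ContDiff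

noncomputable section

/-- squared Euclidean length -/
def n2 {ι : Type} [Fintype ι] (x : ι → ℝ) : ℝ := ∑ i, x i ^ 2

/-- Euclidean length -/
def nr {ι : Type} [Fintype ι] (x : ι → ℝ) : ℝ := Real.sqrt (n2 x)

/-- derivative in the direction of the coordinate `i` -/
def pd {ι : Type} [Fintype ι] [DecidableEq ι] (f : (ι → ℝ) → ℝ) (i : ι) (x : ι → ℝ) : ℝ :=
  fderiv ℝ f x (Pi.single i 1)

/-- squared length of the gradient -/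
def g2 {ι : Type} [Fintype ι] [DecidableEq ι] (f : (ι → ℝ) → ℝ) (x : ι → ℝ) : ℝ :=
  ∑ i, pd f i x ^ 2

/-- Laplacian -/
def lap {ι : Type} [Fintype ι] [DecidableEq ι] (f : (ι → ℝ) → ℝ) (x : ι → ℝ) : ℝ :=
  ∑ i, pd (pd f i) i x

/-- the Gaussian ground state `∏ (om_i / (π g²))^(1/4) exp (-om_i a_i² / (2 g²))` -/
def gau {Q : Type} [Fintype Q] (om : Q → ℝ) (g : ℝ) (a : Q → ℝ) : ℝ :=
  ∏ i, ((om i / (Real.pi * g ^ 2)) ^ (1 / 4 : ℝ) * Real.exp (-(om i * a i ^ 2 / (2 * g ^ 2))))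

/-! ### the fibre -/

/-- Jacobi's identity: substitution `f = exp (-h / g²) χ`. -/
def S_JAC : Prop := ∀ (Q : Type) [Fintype Q] [DecidableEq Q] (h ρ f : (Q → ℝ) → ℝ) (g : ℝ),
  0 < g → ContDiff ℝ 2 h → ContDiff ℝ 1 ρ → ContDiff ℝ 1 f → HasCompactSupport f →
  ∫ y, g ^ 2 / 2 * ρ y * g2 f y =
    (∫ y, g ^ 2 / 2 * ρ y * Real.exp (-(2 * h y / g ^ 2)) *
      g2 (fun z => f z * Real.exp (h z / g ^ 2)) y) +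
    ∫ y, (1 / 2 * (ρ y * lap h y + ∑ i, pd ρ i y * pd h i y) -
      1 / (2 * g ^ 2) * (ρ y * g2 h y)) * f y ^ 2

/-- Gaussian Poincare inequality. -/
def S_GP : Prop := ∀ (Q : Type) [Fintype Q] [DecidableEq Q] (om : Q → ℝ) (o g : ℝ),
  0 < o → (∀ i, o ≤ om i) → 0 < g → ∀ f : (Q → ℝ) → ℝ, ContDiff ℝ 1 f → HasCompactSupport f →
  (∫ a, f a ^ 2) - (∫ a, f a * gau om g a) ^ 2 ≤
    g ^ 2 / (2 * o) * ∫ a, Real.exp (-(∑ i, om i * a i ^ 2) / g ^ 2) *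
      g2 (fun z => f z * Real.exp ((∑ i, om i * z i ^ 2) / (2 * g ^ 2))) a

/-- Lower bound of the energy of an oscillator with a cubic error, first form: a pointwise bound
with a positive cubic term. -/
def S_OSC : Prop := ∀ (Q : Type) [Fintype Q] [DecidableEq Q] (s K0 K1 : ℝ), 0 < s → 0 ≤ K0 →
  0 ≤ K1 → ∃ δ K : ℝ, 0 < δ ∧ 0 ≤ K ∧ ∀ g t : ℝ, 0 < g → g ≤ δ → 0 ≤ t → t ≤ δ ^ 2 →
  ∀ S : Matrix Q Q ℝ, S.IsSymm → (∀ i j, |S i j| ≤ K0) →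
  (∀ a : Q → ℝ, s * n2 a ≤ ∑ i, a i * (S.mulVec a) i) →
  ∀ u : (Q → ℝ) → ℝ, Continuous u →
  (∀ a : Q → ℝ, n2 a ≤ δ ^ 2 → 1 / 2 * n2 (S.mulVec a) - K0 * nr a ^ 3 ≤ u a) →
  ∀ f : (Q → ℝ) → ℝ, ContDiff ℝ 1 f → (∀ a, f a ≠ 0 → n2 a < δ ^ 2) →
  ∫ a, (1 / 2 * S.trace - K * (t + g) + K1 / g ^ 2 * nr a ^ 3) * f a ^ 2 ≤
    ∫ a, (g ^ 2 / 2 * (1 - K0 * (t + n2 a)) * g2 f a + 1 / g ^ 2 * u a * f a ^ 2)

/-- Lower bound of the energy of an oscillator, second form: with the spectral gap. -/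
def S_SEC : Prop := ∀ (Q : Type) [Fintype Q] [DecidableEq Q] (om : Q → ℝ) (K0 : ℝ),
  (∀ i, 0 < om i) → 0 ≤ K0 → ∃ δ K η : ℝ, 0 < δ ∧ 0 ≤ K ∧ 0 < η ∧
  ∀ g t c : ℝ, 0 < g → g ≤ δ → 0 ≤ t → t ≤ δ ^ 2 → 0 ≤ c → ∀ u : (Q → ℝ) → ℝ, Continuous u →
  (∀ a : Q → ℝ, n2 a ≤ δ ^ 2 →
    1 / 2 * ∑ i, om i ^ 2 * a i ^ 2 - K0 * c * n2 a - K0 * nr a ^ 3 ≤ u a) →
  ∀ f : (Q → ℝ) → ℝ, ContDiff ℝ 1 f → (∀ a, f a ≠ 0 → n2 a < δ ^ 2) →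
  (∫ a, (1 / 2 * ∑ i, om i - K * (t + n2 a) - K * c / g ^ 2 * n2 a - K / g ^ 2 * nr a ^ 3) *
      f a ^ 2) + η * ((∫ a, f a ^ 2) - (∫ a, f a * gau om g a) ^ 2) ≤
    ∫ a, (g ^ 2 / 2 * (1 - K0 * (t + n2 a)) * g2 f a + 1 / g ^ 2 * u a * f a ^ 2)

/-- The fibre inequality: quadratic part `½ ∑ om_i² a_i² + ½ a·A a` with `A` of size `c` and
`∑ A_ii / om_i = 0`. -/
def S_FIB : Prop := ∀ (Q : Type) [Fintype Q] [DecidableEq Q] (om : Q → ℝ) (K0 θ : ℝ),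
  (∀ i, 0 < om i) → 0 ≤ K0 → 0 < θ → ∃ δ K η : ℝ, 0 < δ ∧ 0 ≤ K ∧ 0 < η ∧
  ∀ g c : ℝ, 0 < g → g ≤ δ → 0 ≤ c → c ≤ δ → ∀ A : Matrix Q Q ℝ, A.IsSymm →
  (∀ i j, |A i j| ≤ K0 * c) → ∑ i, A i i / om i = 0 → ∀ u : (Q → ℝ) → ℝ, Continuous u →
  (∀ a : Q → ℝ, n2 a ≤ δ ^ 2 →
    1 / 2 * ∑ i, om i ^ 2 * a i ^ 2 + 1 / 2 * ∑ i, a i * (A.mulVec a) i -
      K0 * (c ^ 2 * n2 a + nr a ^ 3) ≤ u a) →
  ∀ f : (Q → ℝ) → ℝ, ContDiff ℝ 1 f → (∀ a, f a ≠ 0 → n2 a < δ ^ 2) →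
  (∫ a, (1 / 2 * ∑ i, om i - θ * c - K * (c ^ 2 + g)) * f a ^ 2) +
      η * ((∫ a, f a ^ 2) - (∫ a, f a * gau om g a) ^ 2) ≤
    ∫ a, (g ^ 2 / 2 * (1 - K0 * (c ^ 2 + n2 a)) * g2 f a + 1 / g ^ 2 * u a * f a ^ 2)

/-! ### the local data -/

/-- squared length of the part of the gradient in the first group of variables -/
def gC {P Q : Type} [Fintype P] [DecidableEq P] [Fintype Q]
    (f : (P → ℝ) × (Q → ℝ) → ℝ) (x : (P → ℝ) × (Q → ℝ)) : ℝ :=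
  ∑ i, (fderiv ℝ f x (Pi.single i 1, 0)) ^ 2

/-- squared length of the part of the gradient in the second group of variables -/
def gA {P Q : Type} [Fintype P] [Fintype Q] [DecidableEq Q]
    (f : (P → ℝ) × (Q → ℝ) → ℝ) (x : (P → ℝ) × (Q → ℝ)) : ℝ :=
  ∑ j, (fderiv ℝ f x (0, Pi.single j 1)) ^ 2

/-- squared length in the product -/
def nx {P Q : Type} [Fintype P] [Fintype Q] (x : (P → ℝ) × (Q → ℝ)) : ℝ := n2 x.1 + n2 x.2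

/-- the energy form of a Schroedinger operator `-½ Δ + v` -/
def qf {P : Type} [Fintype P] [DecidableEq P] (v : (P → ℝ) → ℝ) (f : (P → ℝ) → ℝ) : ℝ :=
  ∫ C, (1 / 2 * g2 f C + v C * f C ^ 2)

/-- A quartic potential with a linear lower bound of its operator. -/
structure Pot (P : Type) [Fintype P] [DecidableEq P] where
  v : (P → ℝ) → ℝ
  cont : Continuous v
  nonneg : ∀ C, 0 ≤ v C
  hom : ∀ (t : ℝ) (C : P → ℝ), v (t • C) = t ^ 4 * v C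
  κ : ℝ
  pos : 0 < κ
  simon : ∀ f : (P → ℝ) → ℝ, ContDiff ℝ 1 f → HasCompactSupport f →
    κ * ∫ C, nr C * f C ^ 2 ≤ qf v f

/-- Local data near the trivial connection: `C` constant modes, `a` oscillators. -/
structure Loc (P Q : Type) [Fintype P] [DecidableEq P] [Fintype Q] [DecidableEq Q] extends
    Pot P where
  om : Q → ℝ
  ompos : ∀ i, 0 < om i
  c4 : ℝ
  c4pos : 0 < c4
  A : (P → ℝ) →ₗ[ℝ] Matrix Q Q ℝ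
  Asymm : ∀ C, (A C).IsSymm
  Atr : ∀ C, ∑ i, A C i i / om i = 0
  K : ℝ
  K0 : 0 ≤ K
  r : ℝ
  rpos : 0 < r
  w : (P → ℝ) × (Q → ℝ) → ℝ
  wcont : Continuous w
  tay : ∀ x, nx x ≤ r ^ 2 → |w x - c4 * v x.1 - 1 / 2 * ∑ i, om i ^ 2 * x.2 i ^ 2 -
    1 / 2 * ∑ i, x.2 i * ((A x.1).mulVec x.2) i| ≤
      K * (nr x.1 * v x.1 + n2 x.1 * n2 x.2 + nr x.2 ^ 3)
  J : (P → ℝ) × (Q → ℝ) → ℝ
  Jsm : ContDiff ℝ ∞ J
  Jpos : ∀ x, 0 < J x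

section
variable {P Q : Type} [Fintype P] [DecidableEq P] [Fintype Q] [DecidableEq Q]

/-- projection to the Gaussian in the variables `a` -/
def Loc.T (L : Loc P Q) (g : ℝ) (f : (P → ℝ) × (Q → ℝ) → ℝ) (C : P → ℝ) : ℝ :=
  ∫ a : Q → ℝ, f (C, a) * Real.sqrt (L.J (C, a)) * gau L.om g a

/-- zero point energy -/
def Loc.e0 (L : Loc P Q) : ℝ := 1 / 2 * ∑ i, L.om i

/-- length scale `s = (g⁴ / c4)^(1/6)` -/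
def Loc.s (L : Loc P Q) (g : ℝ) : ℝ := (g ^ 4 / L.c4) ^ (1 / 6 : ℝ)

/-- energy scale `E = g² / s² = g^(2/3) c4^(1/3)` -/
def Loc.E (L : Loc P Q) (g : ℝ) : ℝ := g ^ 2 / L.s g ^ 2

/-- a smooth cut-off: `1` for `t ≤ 1/2`, `0` for `t ≥ 1` -/
def cutb (t : ℝ) : ℝ := Real.smoothTransition (2 - 2 * t)

/-- trial function -/
def Loc.trial (L : Loc P Q) (g δ : ℝ) (ψ : (P → ℝ) → ℝ) (x : (P → ℝ) × (Q → ℝ)) : ℝ :=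
  (Real.sqrt (L.J x))⁻¹ * (L.s g) ^ (-(Fintype.card P : ℝ) / 2) * ψ ((L.s g)⁻¹ • x.1) *
    gau L.om g x.2 * cutb (4 * n2 x.2 / δ ^ 2)

end

/-- Removal of the density `J`. -/
def S_JR : Prop := ∀ (P Q : Type) [Fintype P] [DecidableEq P] [Fintype Q] [DecidableEq Q]
  (L : Loc P Q) (σ : ℝ), ∃ K : ℝ, 0 ≤ K ∧ ∀ f : (P → ℝ) × (Q → ℝ) → ℝ, ContDiff ℝ ∞ f →
  (∀ x, f x ≠ 0 → nx x < L.r ^ 2) →
  |(∫ x, (1 + σ * nx x) * (gC f x + gA f x) * L.J x) -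
    ∫ x, (1 + σ * nx x) * (gC (fun z => f z * Real.sqrt (L.J z)) x +
      gA (fun z => f z * Real.sqrt (L.J z)) x)| ≤ K * ∫ x, f x ^ 2 * L.J x

/-- Simon's inequality with the constants of the lattice. -/
def S_SCS : Prop := ∀ (P : Type) [Fintype P] [DecidableEq P] (V : Pot P) (c4 g : ℝ), 0 < c4 →
  0 < g → ∀ f : (P → ℝ) → ℝ, ContDiff ℝ 1 f → HasCompactSupport f →
  Real.sqrt c4 * V.κ * ∫ C, nr C * f C ^ 2 ≤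
    ∫ C, (g ^ 2 / 2 * g2 f C + c4 / g ^ 2 * V.v C * f C ^ 2)

/-- The local lower bound. -/
def S_LLB : Prop := ∀ (P Q : Type) [Fintype P] [DecidableEq P] [Fintype Q] [DecidableEq Q]
  (L : Loc P Q) (ε : ℝ), 0 < ε → ∃ δ K η : ℝ, 0 < δ ∧ 0 ≤ K ∧ 0 < η ∧ ∀ g : ℝ, 0 < g → g ≤ δ →
  ∀ f : (P → ℝ) × (Q → ℝ) → ℝ, ContDiff ℝ ∞ f → (∀ x, f x ≠ 0 → nx x < δ ^ 2) →
  (L.e0 - K * g) * (∫ x, f x ^ 2 * L.J x) +
      (1 - ε) * (∫ C, (g ^ 2 / 2 * g2 (L.T g f) C + L.c4 / g ^ 2 * L.v C * L.T g f C ^ 2)) +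
      η * ((∫ x, f x ^ 2 * L.J x) - ∫ C, L.T g f C ^ 2) ≤
    ∫ x, (g ^ 2 / 2 * (1 - L.K * nx x) * (gC f x + gA f x) + 1 / g ^ 2 * L.w x * f x ^ 2) * L.J x

/-- The projection of a smooth function with small support is smooth with compact support. -/
def S_TSM : Prop := ∀ (P Q : Type) [Fintype P] [DecidableEq P] [Fintype Q] [DecidableEq Q]
  (L : Loc P Q) (g : ℝ), 0 < g → ∀ f : (P → ℝ) × (Q → ℝ) → ℝ, ContDiff ℝ ∞ f →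
  HasCompactSupport f → ContDiff ℝ ∞ (L.T g f) ∧ HasCompactSupport (L.T g f) ∧
    (∀ C, L.T g f C ^ 2 ≤ ∫ a : Q → ℝ, f (C, a) ^ 2 * L.J (C, a)) ∧
    (∀ C, g2 (L.T g f) C ≤ ∫ a : Q → ℝ, gC (fun z => f z * Real.sqrt (L.J z)) (C, a)) ∧
    ∫ C, L.T g f C ^ 2 ≤ ∫ x, f x ^ 2 * L.J x

/-- Moments of the Gaussian with a cut-off. -/
def S_GM : Prop := ∀ (Q : Type) [Fintype Q] [DecidableEq Q] (om : Q → ℝ) (δ : ℝ),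
  (∀ i, 0 < om i) → 0 < δ → ∃ K : ℝ, 0 ≤ K ∧ ∀ g : ℝ, 0 < g → g ≤ 1 →
  ∀ G : (Q → ℝ) → ℝ, G = (fun a => gau om g a * cutb (4 * n2 a / δ ^ 2)) →
  ContDiff ℝ ∞ G ∧ HasCompactSupport G ∧
  1 - K * g ^ 2 ≤ ∫ a, G a ^ 2 ∧ ∫ a, G a ^ 2 ≤ 1 ∧
  ∫ a, (g ^ 2 / 2 * g2 G a + 1 / (2 * g ^ 2) * (∑ i, om i ^ 2 * a i ^ 2) * G a ^ 2) ≤
    1 / 2 * (∑ i, om i) + K * g ^ 2 ∧
  ∫ a, g2 G a ≤ K / g ^ 2 ∧ ∫ a, n2 a * g2 G a ≤ K ∧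
  ∫ a, n2 a * G a ^ 2 ≤ K * g ^ 2 ∧ ∫ a, nr a ^ 3 * G a ^ 2 ≤ K * g ^ 3 ∧
  (∀ i j, i ≠ j → ∫ a, a i * a j * G a ^ 2 = 0) ∧
  ∀ i, |(∫ a, a i ^ 2 * G a ^ 2) - g ^ 2 / (2 * om i)| ≤ K * g ^ 4

/-- The upper bound by trial functions. -/
def S_UPB : Prop := ∀ (P Q : Type) [Fintype P] [DecidableEq P] [Fintype Q] [DecidableEq Q]
  (L : Loc P Q) (δ R : ℝ), 0 < δ → δ ≤ L.r → 0 < R → ∃ K g0 : ℝ, 0 < g0 ∧ 0 ≤ K ∧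
  ∀ g : ℝ, 0 < g → g ≤ g0 → ∀ ψ : (P → ℝ) → ℝ, ContDiff ℝ ∞ ψ → (∀ C, ψ C ≠ 0 → n2 C ≤ R ^ 2) →
  ContDiff ℝ ∞ (L.trial g δ ψ) ∧ (∀ x, L.trial g δ ψ x ≠ 0 → nx x < δ ^ 2) ∧
  (1 - K * g) * (∫ C, ψ C ^ 2) ≤ (∫ x, L.trial g δ ψ x ^ 2 * L.J x) ∧
  (∫ x, L.trial g δ ψ x ^ 2 * L.J x) ≤ (∫ C, ψ C ^ 2) ∧
  ∫ x, (g ^ 2 / 2 * (1 + L.K * nx x) * (gC (L.trial g δ ψ) x + gA (L.trial g δ ψ) x) +
      1 / g ^ 2 * L.w x * L.trial g δ ψ x ^ 2) * L.J x ≤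
    L.e0 * (∫ C, ψ C ^ 2) + L.E g * qf L.v ψ + K * g * ∫ C, (ψ C ^ 2 + g2 ψ C)

/-! ### the gap of the reduced model -/

/-- Smooth functions with compact support, invariant under a set of maps. -/
structure CI {P : Type} [Fintype P] [DecidableEq P] (𝒢 : Set ((P → ℝ) → (P → ℝ)))
    (f : (P → ℝ) → ℝ) : Prop where
  sm : ContDiff ℝ ∞ f
  supp : HasCompactSupport f
  inv : ∀ σ ∈ 𝒢, ∀ x, f (σ x) = f x

/-- The `k`-th level of `-½ Δ + v` on the invariant functions (minimum-maximum principle). -/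
def lev {P : Type} [Fintype P] [DecidableEq P] (v : (P → ℝ) → ℝ)
    (𝒢 : Set ((P → ℝ) → (P → ℝ))) (k : ℕ) : ℝ :=
  sInf {E : ℝ | ∃ ψ : Fin (k + 1) → (P → ℝ) → ℝ, (∀ i, CI 𝒢 (ψ i)) ∧
    (∀ i j, ∫ C, ψ i C * ψ j C = if i = j then 1 else 0) ∧
    ∀ c : Fin (k + 1) → ℝ, qf v (fun C => ∑ i, c i * ψ i C) ≤ E * ∑ i, c i ^ 2}

/-- Poincare inequality on cubes. -/
def S_POIN : Prop := ∀ (P : Type) [Fintype P] [DecidableEq P], ∃ K : ℝ, 0 < K ∧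
  ∀ (t : ℝ) (a : P → ℝ) (f : (P → ℝ) → ℝ), 0 < t → ContDiff ℝ 1 f →
  ∫ x in Icc a (fun i => a i + t), ∫ y in Icc a (fun i => a i + t), (f x - f y) ^ 2 ≤
    K * t ^ (Fintype.card P + 2) * ∫ x in Icc a (fun i => a i + t), g2 f x

/-- On a cube a function with bounded energy and small `L¹` norm has small `L²` norm. -/
def S_NASH : Prop := ∀ (P : Type) [Fintype P] [DecidableEq P] (R : ℝ), 0 < R →
  ∀ ε : ℝ, 0 < ε → ∃ K : ℝ, 0 < K ∧ ∀ f : (P → ℝ) → ℝ, ContDiff ℝ 1 f →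
  ∫ x in Icc (fun _ : P => -R) (fun _ => R), f x ^ 2 ≤
    ε * (∫ x in Icc (fun _ : P => -R) (fun _ => R), g2 f x) +
      K * (∫ x in Icc (fun _ : P => -R) (fun _ => R), |f x|) ^ 2

/-- Energy of the logarithm of an almost minimal function. -/
def S_LOGE : Prop := ∀ (P : Type) [Fintype P] [DecidableEq P] (V : Pot P)
  (𝒢 : Set ((P → ℝ) → (P → ℝ))), (∀ σ ∈ 𝒢, ∀ x, n2 (σ x) = n2 x) → ∀ R : ℝ, 0 < R →
  ∃ K : ℝ, 0 < K ∧ ∀ ϵ : ℝ, 0 < ϵ → ϵ < 1 / 16 → ∃ d : ℝ, 0 < d ∧ d ≤ 1 ∧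
  ∀ h : (P → ℝ) → ℝ, CI 𝒢 h → ∫ C, h C ^ 2 = 1 → qf V.v h ≤ lev V.v 𝒢 0 + d →
  ∃ k : (P → ℝ) → ℝ, ContDiff ℝ 1 k ∧
    ∫ x in Icc (fun _ : P => -R) (fun _ => R), g2 k x ≤ K ∧
    (∀ x, Real.sqrt ϵ ≤ h x → 1 / 2 * Real.log (1 / ϵ) - 1 ≤ k x) ∧
    (∀ x, h x ≤ -Real.sqrt ϵ → k x ≤ -(1 / 2 * Real.log (1 / ϵ) - 1))

/-- The ground state energy is a simple level: there is a gap. -/
def S_GAPF : Prop := ∀ (P : Type) [Fintype P] [DecidableEq P] [Nonempty P] (V : Pot P)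
  (𝒢 : Set ((P → ℝ) → (P → ℝ))), (∀ σ ∈ 𝒢, ∀ x, n2 (σ x) = n2 x) →
  lev V.v 𝒢 0 < lev V.v 𝒢 1

/-- Change of a basis: from an almost orthonormal to an orthonormal family. -/
def S_GS : Prop := ∀ (m : ℕ) (B q : Matrix (Fin m) (Fin m) ℝ) (β E : ℝ), 0 < β → 0 ≤ E →
  B.IsSymm → (∀ c : Fin m → ℝ, β * ∑ i, c i ^ 2 ≤ ∑ i, c i * (B.mulVec c) i) →
  (∀ c : Fin m → ℝ, ∑ i, c i * (q.mulVec c) i ≤ E * ∑ i, c i ^ 2) →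
  ∃ R : Matrix (Fin m) (Fin m) ℝ, R.transpose * B * R = 1 ∧
    ∀ c : Fin m → ℝ, ∑ i, (R.mulVec c) i * (q.mulVec (R.mulVec c)) i ≤ E / β * ∑ i, c i ^ 2

end

end Pool.Agent.Q77.LU
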