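import Mathlib
import Pool.Agent.Q77.LU.StmA

/-!
# Project LU, geometry: statements

The Kogut-Susskind Hamiltonian on the periodic lattice `(ℤ/l)^D`, gauge group `G` a closed subgroup
of `U(N)`; definitions, and the statements of the geometric lemmas.
-/

set_option autoImplicit false

namespace Pool.Agent.Q77.LU

open MeasureTheory Matrix Set Filter Topology
open scoped ContDiff Matrix.Norms.Frobenius

noncomputable section

/-! ### the lattice gauge field -/

/-- Complex `N × N` matrices. -/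
abbrev Mt (N : ℕ) := Matrix (Fin N) (Fin N) ℂ

/-- The unitary group `U(N)`. -/
abbrev UU (N : ℕ) := Matrix.unitaryGroup (Fin N) ℂ

/-- The matrix of an element of a subgroup of `U(N)`. -/
def mt {N : ℕ} {G : Subgroup (UU N)} (g : G) : Mt N := ((g : UU N) : Mt N)

/-- Links of the periodic lattice `(ℤ/l)^D`: base point and direction. -/
abbrev Link (D l : ℕ) := (Fin D → ZMod l) × Fin D

/-- Unit vector of the lattice in direction `i`. -/
def unitv {D l : ℕ} (i : Fin D) : Fin D → ZMod l := Pi.single i 1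

/-- An orthonormal basis `X` of the Lie algebra of `G`, that is of the real space of all matrices `Y`
with `exp (t Y) ∈ G` for all real `t`, with the scalar product `Re tr (Y* Z)`; `ex a t` is the
element `exp (t X_a)` of `G`. -/
structure LieBasis {N : ℕ} (G : Subgroup (UU N)) (n : ℕ) where
  X : Fin n → Mt N
  ex : Fin n → ℝ → G
  ex_eq : ∀ a t, mt (ex a t) = NormedSpace.exp (t • X a)
  orth : ∀ a b, (trace ((X a)ᴴ * X b)).re = if a = b then 1 else 0
  full : ∀ Y : Mt N, (∀ t : ℝ, ∃ g : G, mt g = NormedSpace.exp (t • Y)) →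
    Y ∈ Submodule.span ℝ (Set.range X)

/-- Squared Frobenius norm. -/
def fro2 {N : ℕ} (M : Mt N) : ℝ := (trace (Mᴴ * M)).re

section

variable {N n D l : ℕ} {G : Subgroup (UU N)}

/-- The product of the link variables around the plaquette at `x` in the directions `i`, `j`. -/
def plaq (U : Link D l → G) (x : Fin D → ZMod l) (i j : Fin D) : G :=
  U (x, i) * U (x + unitv i, j) * (U (x + unitv j, i))⁻¹ * (U (x, j))⁻¹

/-- The magnetic energy `∑_p Re tr (1 - U_p)`, the sum over the plaquettes. -/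
def magnetic [NeZero l] (U : Link D l → G) : ℝ :=
  ∑ x : Fin D → ZMod l, ∑ i : Fin D, ∑ j : Fin D,
    if i < j then (trace (1 - mt (plaq U x i j))).re else 0

/-- Smooth functions of the link variables: restrictions of smooth functions of the matrices. -/
def IsSmooth [NeZero l] (F : (Link D l → G) → ℝ) : Prop :=
  ∃ f : (Link D l → Mt N) → ℝ, ContDiff ℝ ∞ f ∧ ∀ U, F U = f fun e => mt (U e)

/-- The derivative of `F` at `U` when the variable of the link `e` moves as `exp (t X_a) U_e`. -/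
def dlink (B : LieBasis G n) (e : Link D l) (a : Fin n) (F : (Link D l → G) → ℝ)
    (U : Link D l → G) : ℝ :=
  deriv (fun t => F (Function.update U e (B.ex a t * U e))) 0

/-- The energy `⟨F, H F⟩` of a smooth function `F`, as a quadratic form, `μ` being the Haar measure:
`(g ^ 2 / 2) ∑_{e, a} ∫ (D_{e, a} F) ^ 2 + g ^ (-2) ∫ (∑_p Re tr (1 - U_p)) F ^ 2`. -/
def energy [NeZero l] [MeasurableSpace G] (B : LieBasis G n) (μ : Measure G) (g : ℝ)
    (F : (Link D l → G) → ℝ) : ℝ :=
  g ^ 2 / 2 * (∑ e : Link D l, ∑ a : Fin n,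
    ∫ U, (dlink B e a F U) ^ 2 ∂(Measure.pi fun _ : Link D l => μ)) +
  1 / g ^ 2 * ∫ U, magnetic U * F U ^ 2 ∂(Measure.pi fun _ : Link D l => μ)

/-- Gauge transformation of the link variables. -/
def gauge (γ : (Fin D → ZMod l) → G) (U : Link D l → G) : Link D l → G :=
  fun e => γ e.1 * U e * (γ (e.1 + unitv e.2))⁻¹

/-- Gauge invariant functions. -/
def GaugeInv (F : (Link D l → G) → ℝ) : Prop := ∀ γ U, F (gauge γ U) = F U

/-- Centre transformation: the links of direction `i` which leave the last layer are multiplied by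
`z i`. -/
def centre (z : Fin D → G) (U : Link D l → G) : Link D l → G :=
  fun e => if e.1 e.2 = -1 then z e.2 * U e else U e

/-- Functions invariant under the centre transformations. -/
def CentreInv (F : (Link D l → G) → ℝ) : Prop :=
  ∀ z : Fin D → G, (∀ i, z i ∈ Subgroup.center G) → ∀ U, F (centre z U) = F U

/-- The energy levels of the Hamiltonian on gauge and centre invariant functions
(minimum-maximum principle). -/
def level (D l : ℕ) [NeZero l] [MeasurableSpace G] (B : LieBasis G n) (μ : Measure G) (g : ℝ)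
    (k : ℕ) : ℝ :=
  sInf {E : ℝ | ∃ Ψ : Fin (k + 1) → (Link D l → G) → ℝ,
    (∀ i, IsSmooth (Ψ i) ∧ GaugeInv (Ψ i) ∧ CentreInv (Ψ i)) ∧
    (∀ i j, ∫ U, Ψ i U * Ψ j U ∂(Measure.pi fun _ : Link D l => μ) = if i = j then 1 else 0) ∧
    ∀ c : Fin (k + 1) → ℝ, energy B μ g (fun U => ∑ i, c i * Ψ i U) ≤ E * ∑ i, c i ^ 2}

/-- Element of the Lie algebra with given coordinates. -/
def lin (B : LieBasis G n) (v : Fin n → ℝ) : Mt N := ∑ a, v a • B.X a

/-- The potential of Yang-Mills quantum mechanics: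
`½ ∑_{i<j} |[A_i, A_j]|²`, `A_i` in the Lie algebra. -/
def vred (B : LieBasis G n) (D : ℕ) (A : Fin D × Fin n → ℝ) : ℝ :=
  1 / 2 * ∑ i : Fin D, ∑ j : Fin D, if i < j then
    fro2 (lin B (fun a => A (i, a)) * lin B (fun a => A (j, a)) -
      lin B (fun a => A (j, a)) * lin B (fun a => A (i, a))) else 0

/-- The adjoint representation in coordinates. -/
def Ad (B : LieBasis G n) (h : G) (v : Fin n → ℝ) : Fin n → ℝ :=
  fun a => (trace ((B.X a)ᴴ * (mt h * lin B v * (mt h)ᴴ))).re

/-- The adjoint representation on fields. -/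
def adF {ι : Type} (B : LieBasis G n) (h : G) (y : ι × Fin n → ℝ) : ι × Fin n → ℝ :=
  fun p => Ad B h (fun c => y (p.1, c)) p.2

/-- The adjoint maps on the configurations of Yang-Mills quantum mechanics. -/
def AdS (B : LieBasis G n) (D : ℕ) : Set ((Fin D × Fin n → ℝ) → (Fin D × Fin n → ℝ)) :=
  Set.range fun h : G => adF B h

/-- The zero point energy of the free gluons on the lattice. -/
def ezero (n D l : ℕ) [NeZero l] : ℝ :=
  (D - 1 : ℝ) * n / 2 * ∑ k : Fin D → ZMod l,
    Real.sqrt (∑ i, 4 * Real.sin (Real.pi * ((k i).val : ℝ) / l) ^ 2)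

/-! ### auxiliary definitions -/

/-- The element `exp` of the Lie algebra element with coordinates `v`. -/
def eG (B : LieBasis G n) (v : Fin n → ℝ) : G :=
  open Classical in if h : ∃ g : G, mt g = NormedSpace.exp (lin B v) then h.choose else 1

/-- The configuration of links `exp y`. -/
def eU (B : LieBasis G n) (y : Link D l × Fin n → ℝ) : Link D l → G :=
  fun e => eG B fun a => y (e, a)

/-- Winding loop through `x` in the direction `i`. -/
def wind (U : Link D l → G) (x : Fin D → ZMod l) (i : Fin D) : G :=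
  (List.ofFn fun s : Fin l => U (x + (s : ℕ) • unitv i, i)).prod

/-- A function which vanishes exactly on the flat configurations with trivial adjoint holonomy. -/
def tau [NeZero l] (B : LieBasis G n) (U : Link D l → G) : ℝ :=
  magnetic U + ∑ x : Fin D → ZMod l, ∑ i : Fin D, ∑ a : Fin n,
    fro2 (mt (wind U x i) * B.X a * (mt (wind U x i))ᴴ - B.X a)

/-- Derivative of the matrix of a plaquette. -/
def dpl (B : LieBasis G n) (U : Link D l → G) (x : Fin D → ZMod l) (i j : Fin D)
    (p : Link D l × Fin n) : Mt N :=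
  deriv (fun t => mt (plaq (Function.update U p.1 (B.ex p.2 t * U p.1)) x i j)) 0

/-- Gram matrix of the derivatives of the plaquettes (at flat configurations the Hessian of
the magnetic energy). -/
def hess [NeZero l] (B : LieBasis G n) (U : Link D l → G) :
    Matrix (Link D l × Fin n) (Link D l × Fin n) ℝ :=
  fun p q => ∑ x : Fin D → ZMod l, ∑ i : Fin D, ∑ j : Fin D,
    if i < j then (trace ((dpl B U x i j p)ᴴ * dpl B U x i j q)).re else 0

/-- Trace of the square root of a symmetric matrix. -/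
def tsq {ι : Type} [Fintype ι] [DecidableEq ι] (A : Matrix ι ι ℝ) : ℝ :=
  open Classical in if h : A.IsHermitian then ∑ i, Real.sqrt (h.eigenvalues i) else 0

/-- The constant modes. -/
def cons (D l : ℕ) {n : ℕ} (C : Fin D × Fin n → ℝ) : Link D l × Fin n → ℝ :=
  fun p => (Real.sqrt ((l : ℝ) ^ D))⁻¹ * C (p.1.2, p.2)

/-- Decomposition of the fields at the trivial connection: constants, oscillators (Coulomb gauge)
and gradients. -/
structure Dec (B : LieBasis G n) (D l : ℕ) [NeZero l] where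
  M : ℕ
  om : Fin M → ℝ
  ompos : ∀ i, 0 < om i
  b : Fin M → Link D l × Fin n → ℝ
  orth : ∀ i j, ∑ p, b i p * b j p = if i = j then 1 else 0
  mean : ∀ (i : Fin M) (j : Fin D) (a : Fin n), ∑ x, b i ((x, j), a) = 0
  div : ∀ (i : Fin M) (x : Fin D → ZMod l) (a : Fin n),
    ∑ j : Fin D, (b i ((x, j), a) - b i ((x - unitv j, j), a)) = 0
  eig : ∀ i, (hess B (fun _ : Link D l => (1 : G))).mulVec (b i) = om i ^ 2 • b i
  sum : ∑ i, om i = tsq (hess B (fun _ : Link D l => (1 : G)))
  card : M + D * n + l ^ D * n = D * l ^ D * n + n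
  hodge : ∀ y : Link D l × Fin n → ℝ, ∃ (C : Fin D × Fin n → ℝ) (a : Fin M → ℝ)
    (ζ : (Fin D → ZMod l) × Fin n → ℝ), ∀ p, y p = cons D l C p + ∑ i, a i * b i p +
      (ζ (p.1.1 + unitv p.1.2, p.2) - ζ (p.1.1, p.2))

variable [NeZero l] {B : LieBasis G n}

/-- The Coulomb field with coordinates `x`. -/
def Dec.xi (dc : Dec B D l) (x : (Fin D × Fin n → ℝ) × (Fin dc.M → ℝ)) :
    Link D l × Fin n → ℝ :=
  fun p => cons D l x.1 p + ∑ i, x.2 i * dc.b i p

/-- The adjoint representation in the coordinates of the Coulomb gauge. -/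
def Dec.sg (dc : Dec B D l) (h : G) (x : (Fin D × Fin n → ℝ) × (Fin dc.M → ℝ)) :
    (Fin D × Fin n → ℝ) × (Fin dc.M → ℝ) :=
  (adF B h x.1, fun i => ∑ p, dc.b i p * adF B h (fun q => ∑ j, x.2 j * dc.b j q) p)

/-- The chart. -/
def Dec.ch (dc : Dec B D l) (x : (Fin D × Fin n → ℝ) × (Fin dc.M → ℝ)) : Link D l → G :=
  eU B (dc.xi x)

/-- Configurations equivalent to a point of the chart with coordinates of length `< r`. -/
def Orb (dc : Dec B D l) (r : ℝ) (U : Link D l → G) : Prop :=
  ∃ (γ : (Fin D → ZMod l) → G) (z : Fin D → G) (x : (Fin D × Fin n → ℝ) × (Fin dc.M → ℝ)),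
    (∀ i, z i ∈ Subgroup.center G) ∧ nx x < r ^ 2 ∧ U = gauge γ (centre z (dc.ch x))

/-! ### the tree gauge -/

/-- Links of the comb tree. -/
def inT (e : Link D l) : Prop := (∀ j, e.2 < j → e.1 j = 0) ∧ e.1 e.2 ≠ -1

/-- Transport from `0` to `x` along the tree. -/
def pth (U : Link D l → G) (x : Fin D → ZMod l) : G :=
  (List.ofFn fun i : Fin D => (List.ofFn fun s : Fin (x i).val =>
    U (fun j => if j < i then x j else if j = i then ((s : ℕ) : ZMod l) else 0, i)).prod).prod

/-- The configuration in the tree gauge. -/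
def tg (U : Link D l → G) : Link D l → G := gauge (pth U) U

/-- The links outside of the tree. -/
abbrev NT (D l : ℕ) := {e : Link D l // ¬ inT e}

/-- Extension by `1` on the tree. -/
def ext (V : NT D l → G) : Link D l → G :=
  fun e => open Classical in if h : ¬ inT e then V ⟨e, h⟩ else 1

instance : Fintype (NT D l) := open Classical in inferInstance
instance : DecidableEq (NT D l) := open Classical in inferInstance

/-- The chart in the tree gauge. -/
def Dec.th (dc : Dec B D l) (x : (Fin D × Fin n → ℝ) × (Fin dc.M → ℝ)) : NT D l → G :=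
  fun e => tg (dc.ch x) e.1

/-- The local data come from the lattice. -/
structure Chart [MeasurableSpace G] (μ : Measure G) (dc : Dec B D l)
    (L : Loc (Fin D × Fin n) (Fin dc.M)) : Prop where
  v : L.v = vred B D
  om : L.om = dc.om
  c4 : L.c4 = ((l : ℝ) ^ D)⁻¹
  w : L.w = fun x => magnetic (dc.ch x)
  Jinv : ∀ h x, L.J (dc.sg h x) = L.J x
  int : ∀ ρ : ℝ, 0 < ρ → ρ ≤ L.r → ∀ Φ : (Link D l → G) → ℝ, Continuous Φ → GaugeInv Φ →
    CentreInv Φ → (∀ U, Φ U ≠ 0 → Orb dc ρ U) →
    ∫ U, Φ U ∂(Measure.pi fun _ : Link D l => μ) =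
      ∫ x in {x | nx x < ρ ^ 2}, Φ (dc.ch x) * L.J x
  uniq : ∀ x (ρ : ℝ), nx x < L.r ^ 2 → 0 < ρ → ρ ≤ L.r → Orb dc ρ (dc.ch x) → nx x < ρ ^ 2
  kin1 : ∀ F : (Link D l → G) → ℝ, IsSmooth F → GaugeInv F → ∀ x, nx x < L.r ^ 2 →
    (1 - L.K * nx x) * (gC (fun z => F (dc.ch z)) x + gA (fun z => F (dc.ch z)) x) ≤
      ∑ e, ∑ a, dlink B e a F (dc.ch x) ^ 2
  kin2 : ∀ F : (Link D l → G) → ℝ, IsSmooth F → GaugeInv F → ∀ x, nx x < L.r ^ 2 →
    ∑ e, ∑ a, dlink B e a F (dc.ch x) ^ 2 ≤
      (1 + L.K * nx x) * (gC (fun z => F (dc.ch z)) x + gA (fun z => F (dc.ch z)) x)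
  lift : ∀ ρ : ℝ, 0 < ρ → ρ < L.r → ∀ f : (Fin D × Fin n → ℝ) × (Fin dc.M → ℝ) → ℝ,
    ContDiff ℝ ∞ f → (∀ x, f x ≠ 0 → nx x < ρ ^ 2) → (∀ h x, f (dc.sg h x) = f x) →
    ∃ F : (Link D l → G) → ℝ, IsSmooth F ∧ GaugeInv F ∧ CentreInv F ∧
      (∀ x, nx x < L.r ^ 2 → F (dc.ch x) = f x) ∧ ∀ U, F U ≠ 0 → Orb dc ρ U

/-- Pull back to the chart. -/
def Dec.pull (dc : Dec B D l) (r : ℝ) (F : (Link D l → G) → ℝ)
    (x : (Fin D × Fin n → ℝ) × (Fin dc.M → ℝ)) : ℝ :=
  open Classical in if nx x < r ^ 2 then F (dc.ch x) else 0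

end

end

end Pool.Agent.Q77.LU
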