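import Mathlib
import Pool.Agent.Q77.LU.StmG

/-!
# Project LU, geometry: statements of the lemmas

Proofs of lemma `X` are in other files and have the form `theorem t_X : S_X`.
-/

set_option autoImplicit false

namespace Pool.Agent.Q77.LU

open MeasureTheory Matrix Set Filter Topology
open scoped ContDiff Matrix.Norms.Frobenius

noncomputable section

/-! ### the group -/

/-- The Lie algebra has trivial centre. -/
def NoCentre {N n : ℕ} {G : Subgroup (UU N)} (B : LieBasis G n) : Prop :=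
  ∀ v : Fin n → ℝ, (∀ a, lin B v * B.X a = B.X a * lin B v) → v = 0

/-- The exponential of an element of the Lie algebra belongs to `G`. -/
def S_EXPG : Prop := ∀ (N n : ℕ) (G : Subgroup (UU N)), IsClosed (G : Set (UU N)) →
  ∀ (B : LieBasis G n) (v : Fin n → ℝ), ∃ g : G, mt g = NormedSpace.exp (lin B v)

/-- Closed subgroup theorem: smooth logarithm near `1`. -/
def S_LOGC : Prop := ∀ (N n : ℕ) (G : Subgroup (UU N)), IsClosed (G : Set (UU N)) →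
  ∀ B : LieBasis G n, ∃ (lg : Mt N → (Fin n → ℝ)) (ρ ε : ℝ), 0 < ρ ∧ 0 < ε ∧ ContDiff ℝ ∞ lg ∧
  (∀ v, n2 v < ρ ^ 2 → lg (NormedSpace.exp (lin B v)) = v) ∧
  ∀ g : G, ‖mt g - 1‖ < ε → n2 (lg (mt g)) < ρ ^ 2 ∧ mt g = NormedSpace.exp (lin B (lg (mt g)))

/-- An element with trivial adjoint action is central if `G` is connected. -/
def S_ADC : Prop := ∀ (N n : ℕ) (G : Subgroup (UU N)), IsClosed (G : Set (UU N)) →
  ConnectedSpace G → ∀ (B : LieBasis G n) (z : G),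
  (∀ a, mt z * B.X a * (mt z)ᴴ = B.X a) → z ∈ Subgroup.center G

/-- The centre is finite. -/
def S_FINC : Prop := ∀ (N n : ℕ) (G : Subgroup (UU N)), IsClosed (G : Set (UU N)) →
  ∀ B : LieBasis G n, NoCentre B → Finite (Subgroup.center G)

/-- Haar measure in the exponential chart has a smooth positive density. -/
def S_HAAR1 : Prop := ∀ (N n : ℕ) (G : Subgroup (UU N)), IsClosed (G : Set (UU N)) →
  ∀ (B : LieBasis G n) [MeasurableSpace G] [BorelSpace G] (μ : Measure G)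
  [IsProbabilityMeasure μ] [μ.IsHaarMeasure], ∃ (ρ : ℝ) (j : (Fin n → ℝ) → ℝ), 0 < ρ ∧
  ContDiff ℝ ∞ j ∧ (∀ v, 0 < j v) ∧ ∀ φ : G → ℝ, Continuous φ →
  (∀ g, φ g ≠ 0 → ∃ v, n2 v < ρ ^ 2 ∧ g = eG B v) →
  ∫ g, φ g ∂μ = ∫ v in {v | n2 v < ρ ^ 2}, φ (eG B v) * j v

/-- Inverse function theorem for maps to powers of `G`. -/
def S_INVF : Prop := ∀ (N n : ℕ) (G : Subgroup (UU N)), IsClosed (G : Set (UU N)) →
  ∀ (_ : LieBasis G n) (P Q m : Type) [Fintype P] [Fintype Q] [Fintype m],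
  Fintype.card P + Fintype.card Q = n * Fintype.card m →
  ∀ Θ : (P → ℝ) × (Q → ℝ) → (m → G), ContDiff ℝ ∞ (fun x (e : m) => mt (Θ x e)) →
  (∀ v, fderiv ℝ (fun x (e : m) => mt (Θ x e)) 0 v = 0 → v = 0) →
  ∃ r : ℝ, 0 < r ∧ ∃ Ξ : (m → Mt N) → (P → ℝ) × (Q → ℝ), ContDiff ℝ ∞ Ξ ∧
  (∀ x, nx x < r ^ 2 → Ξ (fun e => mt (Θ x e)) = x) ∧
  ∀ ρ : ℝ, 0 < ρ → ρ ≤ r → IsOpen (Θ '' {x | nx x < ρ ^ 2})

/-- Change of variables for maps to powers of `G`. -/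
def S_HAARM : Prop := ∀ (N n : ℕ) (G : Subgroup (UU N)), IsClosed (G : Set (UU N)) →
  ∀ (_ : LieBasis G n) [MeasurableSpace G] [BorelSpace G] (μ : Measure G)
  [IsProbabilityMeasure μ] [μ.IsHaarMeasure] (P Q m : Type) [Fintype P] [Fintype Q] [Fintype m],
  Fintype.card P + Fintype.card Q = n * Fintype.card m →
  ∀ Θ : (P → ℝ) × (Q → ℝ) → (m → G), ContDiff ℝ ∞ (fun x (e : m) => mt (Θ x e)) →
  (∀ v, fderiv ℝ (fun x (e : m) => mt (Θ x e)) 0 v = 0 → v = 0) →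
  ∃ (r : ℝ) (J : (P → ℝ) × (Q → ℝ) → ℝ), 0 < r ∧ ContDiff ℝ ∞ J ∧ (∀ x, 0 < J x) ∧
  ∀ ρ : ℝ, 0 < ρ → ρ ≤ r → ∀ Φ : (m → G) → ℝ, Continuous Φ →
  ∫ V in Θ '' {x | nx x < ρ ^ 2}, Φ V ∂(Measure.pi fun _ : m => μ) =
    ∫ x in {x | nx x < ρ ^ 2}, Φ (Θ x) * J x

/-! ### the tree gauge -/

/-- Properties of the tree gauge. -/
def S_TGA : Prop := ∀ (N D l : ℕ) [NeZero l] (G : Subgroup (UU N)) (U : Link D l → G),
  (∀ e, inT e → tg U e = 1) ∧ (∀ γ, tg (gauge γ U) = gauge (fun _ => γ 0) (tg U)) ∧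
  (∀ z : Fin D → G, (∀ i, z i ∈ Subgroup.center G) → tg (centre z U) = centre z (tg U)) ∧
  ((∀ e, inT e → U e = 1) → tg U = U)

/-- The number of links outside of the tree. -/
def S_CARD : Prop := ∀ (D l : ℕ) [NeZero l], Fintype.card (NT D l) + l ^ D = D * l ^ D + 1

/-- Integration of gauge invariant functions in the tree gauge. -/
def S_TREE : Prop := ∀ (N D l : ℕ) [NeZero l] (G : Subgroup (UU N)),
  IsClosed (G : Set (UU N)) → ∀ [MeasurableSpace G] [BorelSpace G] (μ : Measure G)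
  [IsProbabilityMeasure μ] [μ.IsHaarMeasure] (F : (Link D l → G) → ℝ), Continuous F →
  GaugeInv F → ∫ U, F U ∂(Measure.pi fun _ : Link D l => μ) =
    ∫ V, F (ext V) ∂(Measure.pi fun _ : NT D l => μ)

/-- The zeros of `tau` in the tree gauge. -/
def S_ZERO : Prop := ∀ (N n D l : ℕ) [NeZero l] (G : Subgroup (UU N)),
  IsClosed (G : Set (UU N)) → ConnectedSpace G → ∀ (B : LieBasis G n) (U : Link D l → G),
  (∀ e, inT e → U e = 1) → tau B U = 0 →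
  ∃ z : Fin D → G, (∀ i, z i ∈ Subgroup.center G) ∧ U = centre z (fun _ => 1)

/-! ### flat configurations -/

/-- Covariant translation. -/
def cov {N n D l : ℕ} {G : Subgroup (UU N)} (B : LieBasis G n) (U : Link D l → G) (i : Fin D) :
    Matrix ((Fin D → ZMod l) × Fin n) ((Fin D → ZMod l) × Fin n) ℝ :=
  fun p q => if q.1 = p.1 + unitv i then
    (trace ((B.X p.2)ᴴ * (mt (U (p.1, i)) * B.X q.2 * (mt (U (p.1, i)))ᴴ))).re else 0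

/-- Covariant Laplacian. -/
def lapU {N n D l : ℕ} [NeZero l] {G : Subgroup (UU N)} (B : LieBasis G n) (U : Link D l → G) :
    Matrix ((Fin D → ZMod l) × Fin n) ((Fin D → ZMod l) × Fin n) ℝ :=
  ∑ i, (cov B U i - 1)ᵀ * (cov B U i - 1)

/-- The matrix `hess` at flat configurations. -/
def S_HESSF : Prop := ∀ (N n D l : ℕ) [NeZero l] (G : Subgroup (UU N)),
  IsClosed (G : Set (UU N)) → ∀ (B : LieBasis G n) (U : Link D l → G), magnetic U = 0 →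
  (∀ i, cov B U i * (cov B U i)ᵀ = 1) ∧ (∀ i j, cov B U i * cov B U j = cov B U j * cov B U i) ∧
  ∀ (x y : Fin D → ZMod l) (i j : Fin D) (a b : Fin n), hess B U ((x, i), a) ((y, j), b) =
    (if i = j then lapU B U (x, a) (y, b) else 0) -
      ((cov B U i - 1) * (cov B U j - 1)ᵀ : Matrix ((Fin D → ZMod l) × Fin n)
        ((Fin D → ZMod l) × Fin n) ℝ) (x, a) (y, b)

/-- Hodge theory: trace of the square root at flat configurations. -/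
def S_HODGE : Prop := ∀ (N n D l : ℕ) [NeZero l] (G : Subgroup (UU N)),
  IsClosed (G : Set (UU N)) → ∀ (B : LieBasis G n) (U : Link D l → G), magnetic U = 0 →
  tsq (hess B U) = ((D : ℝ) - 1) * tsq (lapU B U)

/-- Diamagnetic inequality for closed walks. -/
def S_WALK : Prop := ∀ (N n D l : ℕ) [NeZero l] (G : Subgroup (UU N)),
  IsClosed (G : Set (UU N)) → 1 ≤ D → ∀ (B : LieBasis G n) (U : Link D l → G),
  (∀ k : ℕ, trace ((1 - (1 / (4 * D : ℝ)) • lapU B U) ^ k) ≤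
    trace ((1 - (1 / (4 * D : ℝ)) • lapU B (fun _ : Link D l => (1 : G))) ^ k)) ∧
  ((∃ x i a, mt (wind U x i) * B.X a * (mt (wind U x i))ᴴ ≠ B.X a) →
    trace ((1 - (1 / (4 * D : ℝ)) • lapU B U) ^ l) <
      trace ((1 - (1 / (4 * D : ℝ)) • lapU B (fun _ : Link D l => (1 : G))) ^ l))

/-- Comparison of traces of square roots. -/
def S_SQT : Prop := ∀ (ι : Type) [Fintype ι] [DecidableEq ι] (A B : Matrix ι ι ℝ) (c : ℝ),
  0 < c → A.PosSemidef → B.PosSemidef → (c • (1 : Matrix ι ι ℝ) - A).PosSemidef →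
  (c • (1 : Matrix ι ι ℝ) - B).PosSemidef →
  (∀ k : ℕ, trace ((1 - (1 / c) • A) ^ k) ≤ trace ((1 - (1 / c) • B) ^ k)) →
  tsq B ≤ tsq A ∧
  ((∃ k : ℕ, trace ((1 - (1 / c) • A) ^ k) < trace ((1 - (1 / c) • B) ^ k)) → tsq B < tsq A)

/-- The trace of the square root from the traces of the powers. -/
def S_TRP : Prop := ∀ (ι κ : Type) [Fintype ι] [DecidableEq ι] [Fintype κ] (A : Matrix ι ι ℝ)
  (ν : κ → ℝ), A.PosSemidef → (∀ i, 0 ≤ ν i) → (∀ k : ℕ, trace (A ^ k) = ∑ i, ν i ^ k) →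
  tsq A = ∑ i, Real.sqrt (ν i)

/-- The trace of the square root is continuous. -/
def S_TSC : Prop := ∀ (ι : Type) [Fintype ι] [DecidableEq ι],
  ContinuousOn (fun A : Matrix ι ι ℝ => tsq A) {A | A.PosSemidef}

/-- The zero point energy. -/
def S_EZ : Prop := ∀ (N n D l : ℕ) [NeZero l] (G : Subgroup (UU N)),
  IsClosed (G : Set (UU N)) → ∀ B : LieBasis G n,
  1 / 2 * tsq (hess B (fun _ : Link D l => (1 : G))) = ezero n D l

/-- The zero point energy of flat configurations is minimal only at trivial adjoint holonomy. -/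
def S_FLATS : Prop := ∀ (N n D l : ℕ) [NeZero l] (G : Subgroup (UU N)),
  IsClosed (G : Set (UU N)) → 2 ≤ D → ∀ (B : LieBasis G n) (U : Link D l → G),
  magnetic U = 0 → (∃ x i a, mt (wind U x i) * B.X a * (mt (wind U x i))ᴴ ≠ B.X a) →
  tsq (hess B (fun _ : Link D l => (1 : G))) < tsq (hess B U)

/-- Existence of the decomposition. -/
def S_DEC : Prop := ∀ (N n D l : ℕ) [NeZero l] (G : Subgroup (UU N)),
  IsClosed (G : Set (UU N)) → ∀ B : LieBasis G n, Nonempty (Dec B D l)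

/-! ### lower bounds away from the torons -/

/-- Continuity and invariance. -/
def S_HC : Prop := ∀ (N n D l : ℕ) [NeZero l] (G : Subgroup (UU N)),
  IsClosed (G : Set (UU N)) → ∀ B : LieBasis G n,
  Continuous (fun U : Link D l → G => hess B U) ∧ (∀ U : Link D l → G, (hess B U).PosSemidef) ∧
  IsSmooth (fun U : Link D l → G => magnetic U) ∧ IsSmooth (tau B : (Link D l → G) → ℝ) ∧
  GaugeInv (tau B : (Link D l → G) → ℝ) ∧ CentreInv (tau B : (Link D l → G) → ℝ) ∧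
  (∀ U : Link D l → G, 0 ≤ magnetic U) ∧ (∀ U : Link D l → G, 0 ≤ tau B U) ∧
  ∀ U : Link D l → G, tau B U = 0 →
    magnetic U = 0 ∧ ∀ x i a, mt (wind U x i) * B.X a * (mt (wind U x i))ᴴ = B.X a

/-- Jacobi's identity on the group (lower bound). -/
def S_JACG : Prop := ∀ (N n D l : ℕ) [NeZero l] (G : Subgroup (UU N)),
  IsClosed (G : Set (UU N)) → ∀ (B : LieBasis G n) [MeasurableSpace G] [BorelSpace G]
  (μ : Measure G) [IsProbabilityMeasure μ] [μ.IsHaarMeasure] (g : ℝ), 0 < g →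
  ∀ h F : (Link D l → G) → ℝ, IsSmooth h → IsSmooth F →
  ∫ U, (1 / 2 * (∑ e, ∑ a, dlink B e a (dlink B e a h) U) -
    1 / (2 * g ^ 2) * (∑ e, ∑ a, dlink B e a h U ^ 2) + 1 / g ^ 2 * magnetic U) * F U ^ 2
    ∂(Measure.pi fun _ : Link D l => μ) ≤ energy B μ g F

/-- Lower bound of the energy for functions with small support. -/
def S_LOCV : Prop := ∀ (N n D l : ℕ) [NeZero l] (G : Subgroup (UU N)),
  IsClosed (G : Set (UU N)) → ∀ (B : LieBasis G n) [MeasurableSpace G] [BorelSpace G]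
  (μ : Measure G) [IsProbabilityMeasure μ] [μ.IsHaarMeasure], ∃ K g0 : ℝ, 0 ≤ K ∧ 0 < g0 ∧
  ∀ g : ℝ, 0 < g → g < g0 → ∀ (V : Link D l → G) (F : (Link D l → G) → ℝ), IsSmooth F →
  (∀ U, F U ≠ 0 → ∀ e, ‖mt (U e) - mt (V e)‖ ≤ g ^ (3 / 5 : ℝ)) →
  (1 / 2 * tsq (hess B V) - K * g ^ (1 / 5 : ℝ)) *
    (∫ U, F U ^ 2 ∂(Measure.pi fun _ : Link D l => μ)) ≤ energy B μ g F

/-- Continuous localisation: lower bound by the local zero point energy. -/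
def S_LOC : Prop := ∀ (N n D l : ℕ) [NeZero l] (G : Subgroup (UU N)),
  IsClosed (G : Set (UU N)) → ∀ (B : LieBasis G n) [MeasurableSpace G] [BorelSpace G]
  (μ : Measure G) [IsProbabilityMeasure μ] [μ.IsHaarMeasure] (ε : ℝ), 0 < ε →
  ∃ g0 : ℝ, 0 < g0 ∧ ∀ g : ℝ, 0 < g → g < g0 → ∀ F : (Link D l → G) → ℝ, IsSmooth F →
  ∫ U, (1 / 2 * tsq (hess B U) - ε) * F U ^ 2 ∂(Measure.pi fun _ : Link D l => μ) ≤
    energy B μ g F

/-- Lower bound away from the torons. -/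
def S_AWAY : Prop := ∀ (N n D l : ℕ) [NeZero l] (G : Subgroup (UU N)),
  IsClosed (G : Set (UU N)) → 2 ≤ D → ∀ (B : LieBasis G n) [MeasurableSpace G] [BorelSpace G]
  (μ : Measure G) [IsProbabilityMeasure μ] [μ.IsHaarMeasure] (δ : ℝ), 0 < δ →
  ∃ η g0 : ℝ, 0 < η ∧ 0 < g0 ∧ ∀ g : ℝ, 0 < g → g < g0 → ∀ F : (Link D l → G) → ℝ,
  IsSmooth F → (∀ U, F U ≠ 0 → δ ≤ tau B U) →
  (1 / 2 * tsq (hess B (fun _ : Link D l => (1 : G))) + η) *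
    (∫ U, F U ^ 2 ∂(Measure.pi fun _ : Link D l => μ)) ≤ energy B μ g F

/-! ### the chart -/

/-- The adjoint action in the chart. -/
def S_SYMM : Prop := ∀ (N n D l : ℕ) [NeZero l] (G : Subgroup (UU N)),
  IsClosed (G : Set (UU N)) → ∀ (B : LieBasis G n) (dc : Dec B D l) (h : G)
  (x : (Fin D × Fin n → ℝ) × (Fin dc.M → ℝ)),
  dc.ch (dc.sg h x) = gauge (fun _ => h) (dc.ch x) ∧ n2 (dc.sg h x).1 = n2 x.1 ∧
  n2 (dc.sg h x).2 = n2 x.2 ∧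
  ∑ i, dc.om i * (dc.sg h x).2 i ^ 2 = ∑ i, dc.om i * x.2 i ^ 2 ∧
  dc.xi (dc.sg h x) = adF B h (dc.xi x) ∧ vred B D (dc.sg h x).1 = vred B D x.1 ∧
  (∀ h', dc.sg h (dc.sg h' x) = dc.sg (h * h') x) ∧ dc.sg 1 x = x ∧
  ContDiff ℝ ∞ (fun x (e : Link D l) => mt (dc.ch x e))

/-- The chart in the tree gauge is smooth and its derivative is injective. -/
def S_THD : Prop := ∀ (N n D l : ℕ) [NeZero l] (G : Subgroup (UU N)),
  IsClosed (G : Set (UU N)) → ∀ (B : LieBasis G n) (dc : Dec B D l), dc.th 0 = (fun _ => 1) ∧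
  ContDiff ℝ ∞ (fun x (e : NT D l) => mt (dc.th x e)) ∧
  (∀ v, fderiv ℝ (fun x (e : NT D l) => mt (dc.th x e)) 0 v = 0 → v = 0) ∧
  ∀ x, ext (dc.th x) = tg (dc.ch x)

/-- Uniqueness of the coordinates up to the adjoint action. -/
def S_UNIQ : Prop := ∀ (N n D l : ℕ) [NeZero l] (G : Subgroup (UU N)),
  IsClosed (G : Set (UU N)) → ∀ (B : LieBasis G n), NoCentre B → ∀ (dc : Dec B D l),
  ∃ r : ℝ, 0 < r ∧ (∀ (γ : (Fin D → ZMod l) → G) (z : Fin D → G)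
    (x y : (Fin D × Fin n → ℝ) × (Fin dc.M → ℝ)), (∀ i, z i ∈ Subgroup.center G) →
    nx x < r ^ 2 → nx y < r ^ 2 → dc.ch x = gauge γ (centre z (dc.ch y)) →
    (∀ i, z i = 1) ∧ x = dc.sg (γ 0) y) ∧
  ∀ ρ : ℝ, 0 < ρ → ρ ≤ r → IsOpen {U : Link D l → G | Orb dc ρ U}

/-- The formula of integration in the chart. -/
def S_CHI : Prop := ∀ (N n D l : ℕ) [NeZero l] (G : Subgroup (UU N)),
  IsClosed (G : Set (UU N)) → ∀ (B : LieBasis G n) [MeasurableSpace G] [BorelSpace G]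
  (μ : Measure G) [IsProbabilityMeasure μ] [μ.IsHaarMeasure], NoCentre B →
  ∀ (dc : Dec B D l), ∃ (r : ℝ) (J : (Fin D × Fin n → ℝ) × (Fin dc.M → ℝ) → ℝ), 0 < r ∧
  ContDiff ℝ ∞ J ∧ (∀ x, 0 < J x) ∧ (∀ h x, J (dc.sg h x) = J x) ∧
  ∀ ρ : ℝ, 0 < ρ → ρ ≤ r → ∀ Φ : (Link D l → G) → ℝ, Continuous Φ → GaugeInv Φ →
    CentreInv Φ → (∀ U, Φ U ≠ 0 → Orb dc ρ U) →
    ∫ U, Φ U ∂(Measure.pi fun _ : Link D l => μ) =
      ∫ x in {x | nx x < ρ ^ 2}, Φ (dc.ch x) * J x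

/-- The sets `tau < δ` are small neighbourhoods of the torons. -/
def S_TAUO : Prop := ∀ (N n D l : ℕ) [NeZero l] (G : Subgroup (UU N)),
  IsClosed (G : Set (UU N)) → ConnectedSpace G → ∀ (B : LieBasis G n), NoCentre B →
  ∀ (dc : Dec B D l) (ρ : ℝ), 0 < ρ → ∃ δ : ℝ, 0 < δ ∧ ∀ U : Link D l → G, tau B U < δ →
  Orb dc ρ U

/-- Lifting functions from the chart. -/
def S_LIFT : Prop := ∀ (N n D l : ℕ) [NeZero l] (G : Subgroup (UU N)),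
  IsClosed (G : Set (UU N)) → ∀ (B : LieBasis G n), NoCentre B → ∀ (dc : Dec B D l),
  ∃ r : ℝ, 0 < r ∧ ∀ ρ : ℝ, 0 < ρ → ρ < r →
  ∀ f : (Fin D × Fin n → ℝ) × (Fin dc.M → ℝ) → ℝ,
    ContDiff ℝ ∞ f → (∀ x, f x ≠ 0 → nx x < ρ ^ 2) → (∀ h x, f (dc.sg h x) = f x) →
    ∃ F : (Link D l → G) → ℝ, IsSmooth F ∧ GaugeInv F ∧ CentreInv F ∧
      (∀ x, nx x < r ^ 2 → F (dc.ch x) = f x) ∧ ∀ U, F U ≠ 0 → Orb dc ρ U

/-- The kinetic energy in the chart. -/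
def S_KIN : Prop := ∀ (N n D l : ℕ) [NeZero l] (G : Subgroup (UU N)),
  IsClosed (G : Set (UU N)) → ∀ (B : LieBasis G n) (dc : Dec B D l), ∃ K r : ℝ, 0 ≤ K ∧
  0 < r ∧ ∀ F : (Link D l → G) → ℝ, IsSmooth F → GaugeInv F → ∀ x, nx x < r ^ 2 →
  |(∑ e, ∑ a, dlink B e a F (dc.ch x) ^ 2) -
    (gC (fun z => F (dc.ch z)) x + gA (fun z => F (dc.ch z)) x)| ≤
    K * nx x * ∑ e, ∑ a, dlink B e a F (dc.ch x) ^ 2

/-- The commutator of two exponentials. -/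
def S_BCH : Prop := ∀ N : ℕ, ∃ K : ℝ, 0 ≤ K ∧ ∀ X Y : Mt N, Xᴴ = -X → Yᴴ = -Y → ‖X‖ ≤ 1 →
  ‖Y‖ ≤ 1 → |(trace (1 - NormedSpace.exp X * NormedSpace.exp Y * NormedSpace.exp (-X) *
    NormedSpace.exp (-Y))).re - 1 / 2 * fro2 (X * Y - Y * X)| ≤
    K * (‖X‖ + ‖Y‖) * fro2 (X * Y - Y * X)

/-- The magnetic energy on the constants. -/
def S_TAY0 : Prop := ∀ (N n D l : ℕ) [NeZero l] (G : Subgroup (UU N)),
  IsClosed (G : Set (UU N)) → ∀ (B : LieBasis G n) (dc : Dec B D l), ∃ K r : ℝ, 0 ≤ K ∧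
  0 < r ∧ ∀ C : Fin D × Fin n → ℝ, n2 C ≤ r ^ 2 →
  |magnetic (dc.ch (C, 0)) - ((l : ℝ) ^ D)⁻¹ * vred B D C| ≤ K * nr C * vred B D C

/-- Taylor expansion of the magnetic energy in the chart. -/
def S_TAYL : Prop := ∀ (N n D l : ℕ) [NeZero l] (G : Subgroup (UU N)),
  IsClosed (G : Set (UU N)) → ∀ (B : LieBasis G n), NoCentre B → ∀ (dc : Dec B D l),
  ∃ (A : (Fin D × Fin n → ℝ) →ₗ[ℝ] Matrix (Fin dc.M) (Fin dc.M) ℝ) (K r : ℝ), 0 ≤ K ∧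
  0 < r ∧ (∀ C, (A C).IsSymm) ∧ (∀ C, ∑ i, A C i i / dc.om i = 0) ∧
  ∀ x, nx x ≤ r ^ 2 → |magnetic (dc.ch x) - ((l : ℝ) ^ D)⁻¹ * vred B D x.1 -
    1 / 2 * ∑ i, dc.om i ^ 2 * x.2 i ^ 2 - 1 / 2 * ∑ i, x.2 i * ((A x.1).mulVec x.2) i| ≤
      K * (nr x.1 * vred B D x.1 + n2 x.1 * n2 x.2 + nr x.2 ^ 3)

/-- Simon's inequality for Yang-Mills quantum mechanics. -/
def S_SIM : Prop := ∀ (N n D : ℕ) (G : Subgroup (UU N)), IsClosed (G : Set (UU N)) →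
  ∀ (B : LieBasis G n), NoCentre B → 2 ≤ D → ∃ κ : ℝ, 0 < κ ∧
  ∀ f : (Fin D × Fin n → ℝ) → ℝ, ContDiff ℝ 1 f → HasCompactSupport f →
  κ * ∫ C, nr C * f C ^ 2 ≤ qf (vred B D) f

/-- Existence of the chart with all its properties. -/
def S_CHART : Prop := ∀ (N n D l : ℕ) [NeZero l] (G : Subgroup (UU N)),
  IsClosed (G : Set (UU N)) → ∀ (B : LieBasis G n) [MeasurableSpace G] [BorelSpace G]
  (μ : Measure G) [IsProbabilityMeasure μ] [μ.IsHaarMeasure], NoCentre B → 2 ≤ D →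
  ∀ dc : Dec B D l, ∃ L : Loc (Fin D × Fin n) (Fin dc.M), Chart μ dc L

/-- Pull back of functions to the chart. -/
def S_PULL : Prop := ∀ (N n D l : ℕ) [NeZero l] (G : Subgroup (UU N)),
  IsClosed (G : Set (UU N)) → ∀ (B : LieBasis G n) [MeasurableSpace G] [BorelSpace G]
  (μ : Measure G) [IsProbabilityMeasure μ] [μ.IsHaarMeasure] (dc : Dec B D l)
  (L : Loc (Fin D × Fin n) (Fin dc.M)), Chart μ dc L → ∀ (ρ : ℝ), 0 < ρ → ρ < L.r →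
  ∀ F : (Link D l → G) → ℝ, IsSmooth F → GaugeInv F → CentreInv F →
  (∀ U, F U ≠ 0 → Orb dc ρ U) →
  ContDiff ℝ ∞ (dc.pull L.r F) ∧ (∀ x, dc.pull L.r F x ≠ 0 → nx x < ρ ^ 2) ∧
  (∀ h x, dc.pull L.r F (dc.sg h x) = dc.pull L.r F x) ∧
  ∫ U, F U ^ 2 ∂(Measure.pi fun _ : Link D l => μ) = (∫ x, dc.pull L.r F x ^ 2 * L.J x) ∧
  ∀ g : ℝ, 0 < g →
  (∫ x, (g ^ 2 / 2 * (1 - L.K * nx x) * (gC (dc.pull L.r F) x + gA (dc.pull L.r F) x) +
    1 / g ^ 2 * L.w x * dc.pull L.r F x ^ 2) * L.J x) ≤ energy B μ g F ∧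
  energy B μ g F ≤
  ∫ x, (g ^ 2 / 2 * (1 + L.K * nx x) * (gC (dc.pull L.r F) x + gA (dc.pull L.r F) x) +
    1 / g ^ 2 * L.w x * dc.pull L.r F x ^ 2) * L.J x

/-- Localisation formula. -/
def S_IMS : Prop := ∀ (N n D l : ℕ) [NeZero l] (G : Subgroup (UU N)),
  IsClosed (G : Set (UU N)) → ∀ (B : LieBasis G n) [MeasurableSpace G] [BorelSpace G]
  (μ : Measure G) [IsProbabilityMeasure μ] [μ.IsHaarMeasure] (θ : (Link D l → G) → ℝ),
  IsSmooth θ → IsSmooth (fun U => Real.cos (θ U)) ∧ IsSmooth (fun U => Real.sin (θ U)) ∧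
  ∃ K : ℝ, 0 ≤ K ∧ ∀ (g : ℝ), 0 < g → ∀ F : (Link D l → G) → ℝ, IsSmooth F →
  energy B μ g (fun U => Real.cos (θ U) * F U) + energy B μ g (fun U => Real.sin (θ U) * F U) ≤
    energy B μ g F + K * g ^ 2 * ∫ U, F U ^ 2 ∂(Measure.pi fun _ : Link D l => μ)

/-- The projection and the trial functions are invariant. -/
def S_TINV : Prop := ∀ (P Q : Type) [Fintype P] [DecidableEq P] [Fintype Q] [DecidableEq Q]
  (L : Loc P Q) (σ : (P → ℝ) → (P → ℝ)) (τ : (Q → ℝ) →ₗ[ℝ] (Q → ℝ)),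
  (∀ (t : ℝ) x, σ (t • x) = t • σ x) → (∀ a, n2 (τ a) = n2 a) →
  (∀ a, ∑ i, L.om i * τ a i ^ 2 = ∑ i, L.om i * a i ^ 2) →
  (∀ C a, L.J (σ C, τ a) = L.J (C, a)) → ∀ g : ℝ, 0 < g →
  (∀ f : (P → ℝ) × (Q → ℝ) → ℝ, (∀ C a, f (σ C, τ a) = f (C, a)) →
    ∀ C, L.T g f (σ C) = L.T g f C) ∧
  ∀ (ψ : (P → ℝ) → ℝ) (δ : ℝ), (∀ C, ψ (σ C) = ψ C) →
    ∀ C a, L.trial g δ ψ (σ C, τ a) = L.trial g δ ψ (C, a)

/-- The main lower bound. -/
def S_KEY : Prop := ∀ (N n D l : ℕ) [NeZero l] (G : Subgroup (UU N)),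
  IsClosed (G : Set (UU N)) → ConnectedSpace G → ∀ (B : LieBasis G n) [MeasurableSpace G]
  [BorelSpace G] (μ : Measure G) [IsProbabilityMeasure μ] [μ.IsHaarMeasure], NoCentre B →
  2 ≤ D → ∀ (dc : Dec B D l) (L : Loc (Fin D × Fin n) (Fin dc.M)), Chart μ dc L →
  ∀ ε : ℝ, 0 < ε → ∃ K η g0 : ℝ, 0 ≤ K ∧ 0 < η ∧ 0 < g0 ∧ ∃ χ : (Link D l → G) → ℝ,
  ∀ g : ℝ, 0 < g → g < g0 → ∀ F : (Link D l → G) → ℝ, IsSmooth F → GaugeInv F → CentreInv F →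
  CI (AdS B D) (L.T g (dc.pull L.r fun U => χ U * F U)) ∧
  HasCompactSupport (dc.pull L.r fun U => χ U * F U) ∧
  Continuous (dc.pull L.r fun U => χ U * F U) ∧
  ∫ C, L.T g (dc.pull L.r fun U => χ U * F U) C ^ 2 ≤
    ∫ U, F U ^ 2 ∂(Measure.pi fun _ : Link D l => μ) ∧
  (L.e0 - K * g) * (∫ U, F U ^ 2 ∂(Measure.pi fun _ : Link D l => μ)) +
    (1 - ε) * (∫ C, (g ^ 2 / 2 * g2 (L.T g (dc.pull L.r fun U => χ U * F U)) C +
      L.c4 / g ^ 2 * L.v C * L.T g (dc.pull L.r fun U => χ U * F U) C ^ 2)) +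
    η * ((∫ U, F U ^ 2 ∂(Measure.pi fun _ : Link D l => μ)) -
      ∫ C, L.T g (dc.pull L.r fun U => χ U * F U) C ^ 2) ≤ energy B μ g F

/-- There are many invariant functions. -/
def S_FAM : Prop := ∀ (N n D l : ℕ) [NeZero l] (G : Subgroup (UU N)),
  IsClosed (G : Set (UU N)) → ∀ (B : LieBasis G n) [MeasurableSpace G] [BorelSpace G]
  (μ : Measure G) [IsProbabilityMeasure μ] [μ.IsHaarMeasure] (dc : Dec B D l)
  (L : Loc (Fin D × Fin n) (Fin dc.M)), Chart μ dc L → 1 ≤ D → 1 ≤ n → ∀ (k : ℕ) (g : ℝ),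
  0 < g → ∃ (E : ℝ) (Ψ : Fin (k + 1) → (Link D l → G) → ℝ),
    (∀ i, IsSmooth (Ψ i) ∧ GaugeInv (Ψ i) ∧ CentreInv (Ψ i)) ∧
    (∀ i j, ∫ U, Ψ i U * Ψ j U ∂(Measure.pi fun _ : Link D l => μ) = if i = j then 1 else 0) ∧
    ∀ c : Fin (k + 1) → ℝ, energy B μ g (fun U => ∑ i, c i * Ψ i U) ≤ E * ∑ i, c i ^ 2

/-- Scaling of the levels. -/
def S_SCL : Prop := ∀ (P Q : Type) [Fintype P] [DecidableEq P] [Fintype Q] [DecidableEq Q]
  (L : Loc P Q) (𝒢 : Set ((P → ℝ) → (P → ℝ))), (∀ σ ∈ 𝒢, ∀ (t : ℝ) x, σ (t • x) = t • σ x) →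
  ∀ (g : ℝ), 0 < g → ∀ (k : ℕ) (φ : Fin (k + 1) → (P → ℝ) → ℝ) (E : ℝ), (∀ i, CI 𝒢 (φ i)) →
  (∀ i j, ∫ C, φ i C * φ j C = if i = j then 1 else 0) →
  (∀ c : Fin (k + 1) → ℝ, ∫ C, (g ^ 2 / 2 * g2 (fun C => ∑ i, c i * φ i C) C +
    L.c4 / g ^ 2 * L.v C * (∑ i, c i * φ i C) ^ 2) ≤ E * ∑ i, c i ^ 2) →
  L.E g * lev L.v 𝒢 k ≤ E

/-- Lower bound of the levels. -/
def S_LOW : Prop := ∀ (N n D l : ℕ) [NeZero l] (G : Subgroup (UU N)),
  IsClosed (G : Set (UU N)) → ConnectedSpace G → ∀ (B : LieBasis G n) [MeasurableSpace G]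
  [BorelSpace G] (μ : Measure G) [IsProbabilityMeasure μ] [μ.IsHaarMeasure], NoCentre B →
  2 ≤ D → 1 ≤ n → ∀ (k : ℕ) (ε : ℝ), 0 < ε → ∃ g0 : ℝ, 0 < g0 ∧ ∀ g : ℝ, 0 < g → g < g0 →
  ezero n D l + g ^ (2 / 3 : ℝ) * ((l : ℝ) ^ (-(D : ℝ) / 3) * lev (vred B D) (AdS B D) k - ε) ≤
    level D l B μ g k

/-- Upper bound of the levels. -/
def S_UPP : Prop := ∀ (N n D l : ℕ) [NeZero l] (G : Subgroup (UU N)),
  IsClosed (G : Set (UU N)) → ConnectedSpace G → ∀ (B : LieBasis G n) [MeasurableSpace G]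
  [BorelSpace G] (μ : Measure G) [IsProbabilityMeasure μ] [μ.IsHaarMeasure], NoCentre B →
  2 ≤ D → 1 ≤ n → ∀ (k : ℕ) (ε : ℝ), 0 < ε → ∃ g0 : ℝ, 0 < g0 ∧ ∀ g : ℝ, 0 < g → g < g0 →
  level D l B μ g k ≤
    ezero n D l + g ^ (2 / 3 : ℝ) * ((l : ℝ) ^ (-(D : ℝ) / 3) * lev (vred B D) (AdS B D) k + ε)

end

end Pool.Agent.Q77.LU
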