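import Mathlib
import Pool.Agent.Q77.LU.StmH
import Pool.Agent.H906R3.YM.Conc
import Pool.Agent.H906R3.YM.Gauge
import Pool.Agent.H906R3.YM.Energy

/-!
# Project LU: basic facts and the bridge to the library `Pool.Agent.H906R3.YM`
-/

set_option autoImplicit false

namespace Pool.Agent.Q77.LU

open MeasureTheory Matrix Set Filter Topology
open scoped ContDiff Matrix.Norms.Frobenius
open Pool.Agent.H906R3

noncomputable section

set_option linter.unusedSectionVars false

variable {N n D l : ℕ} {G : Subgroup (UU N)}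

/-! ### the group -/

lemma mt_mul (g h : G) : mt (g * h) = mt g * mt h := rfl
lemma mt_one : mt (1 : G) = 1 := rfl
lemma mt_unit (g : G) : mt g * (mt g)ᴴ = 1 := Matrix.mem_unitaryGroup_iff.1 (g : UU N).2
lemma mt_unit' (g : G) : (mt g)ᴴ * mt g = 1 := mul_eq_one_comm.1 (mt_unit g)
lemma mt_inj {g h : G} (e : mt g = mt h) : g = h := Subtype.ext (Subtype.ext e)
lemma mt_inv (g : G) : mt g⁻¹ = (mt g)ᴴ := by
  have h1 : mt g⁻¹ * mt g = 1 := by rw [← mt_mul, inv_mul_cancel, mt_one]
  calc mt g⁻¹ = mt g⁻¹ * (mt g * (mt g)ᴴ) := by rw [mt_unit, mul_one]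
    _ = (mt g)ᴴ := by rw [← mul_assoc, h1, one_mul]
lemma continuous_mt : Continuous (mt : G → Mt N) := continuous_subtype_val.comp continuous_subtype_val

lemma compactG (hG : IsClosed (G : Set (UU N))) : CompactSpace G :=
  isCompact_iff_compactSpace.1 hG.isCompact
lemma sctG : SecondCountableTopology G := by
  have : SecondCountableTopology (UU N) := TopologicalSpace.Subtype.secondCountableTopology _
  exact TopologicalSpace.Subtype.secondCountableTopology _

/-- A Haar probability measure is invariant under right multiplications. -/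
lemma right_inv {H : Type*} [Group H] [TopologicalSpace H] [IsTopologicalGroup H]
    [CompactSpace H] [MeasurableSpace H] [BorelSpace H] (μ : Measure H)
    [IsProbabilityMeasure μ] [μ.IsHaarMeasure] : μ.IsMulRightInvariant := by
  refine ⟨fun g => ?_⟩
  have h1 : IsProbabilityMeasure (Measure.map (fun x => x * g) μ) :=
    Measure.isProbabilityMeasure_map (measurable_mul_const g).aemeasurable
  exact Measure.isHaarMeasure_eq_of_isProbabilityMeasure _ _

/-! ### the library data -/

/-- The same data in the form used by the library. -/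
def fm (B : LieBasis G n) : YM.Frame G n where
  X := B.X
  ex := B.ex
  ex_eq := B.ex_eq
  orth := B.orth
  full := B.full

/-- The abstract data. -/
def ld (B : LieBasis G n) : YM.LD G N n := (fm B).toLD

lemma skewX (B : LieBasis G n) (a : Fin n) : (B.X a)ᴴ = -B.X a := (fm B).skewX a
lemma conj_memX (B : LieBasis G n) (g : G) (a : Fin n) :
    mt g * B.X a * (mt g)ᴴ ∈ Submodule.span ℝ (Set.range B.X) := (fm B).conj_mem g a
lemma brk_memX (B : LieBasis G n) (a b : Fin n) :
    B.X a * B.X b - B.X b * B.X a ∈ Submodule.span ℝ (Set.range B.X) := (fm B).brk_mem a b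

lemma fro2_eq (M : Mt N) : fro2 M = ‖M‖ ^ 2 := by
  unfold fro2
  rw [← YM.sum_co_sq, Matrix.frobenius_norm_def, ← Real.sqrt_eq_rpow, Real.sq_sqrt (by positivity)]
  have h1 : ∀ c, YM.co c M = if c.2.2 then (M c.1 c.2.1).re else (M c.1 c.2.1).im := fun c => rfl
  simp only [h1]
  rw [Fintype.sum_prod_type]
  refine Finset.sum_congr rfl fun i _ => ?_
  rw [Fintype.sum_prod_type]
  refine Finset.sum_congr rfl fun j _ => ?_
  rw [Fintype.sum_bool]
  simp only [Bool.false_eq_true, if_false, if_true]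
  have h2 := Complex.sq_norm (M i j)
  rw [Complex.normSq_apply] at h2
  norm_num
  rw [h2]
  ring

lemma fro2_nonneg (M : Mt N) : 0 ≤ fro2 M := by rw [fro2_eq]; positivity

lemma fro2_conj (g : G) (M : Mt N) : fro2 (mt g * M * (mt g)ᴴ) = fro2 M := by
  unfold fro2
  have h1 : (mt g * M * (mt g)ᴴ)ᴴ * (mt g * M * (mt g)ᴴ) = mt g * (Mᴴ * M) * (mt g)ᴴ := by
    rw [conjTranspose_mul, conjTranspose_mul, conjTranspose_conjTranspose]
    calc mt g * (Mᴴ * (mt g)ᴴ) * (mt g * M * (mt g)ᴴ)
        = mt g * Mᴴ * ((mt g)ᴴ * mt g) * M * (mt g)ᴴ := by noncomm_ring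
      _ = mt g * (Mᴴ * M) * (mt g)ᴴ := by rw [mt_unit']; noncomm_ring
  rw [h1, trace_mul_comm, ← mul_assoc, mt_unit', one_mul]

/-- `Re tr (1 - P) = |1 - P|² / 2` for unitary `P`. -/
lemma tr_one_sub (g : G) : (trace (1 - mt g)).re = 1 / 2 * fro2 (1 - mt g) := by
  unfold fro2
  have h1 : (1 - mt g)ᴴ * (1 - mt g) = (1 - mt g) + (1 - mt g)ᴴ := by
    rw [conjTranspose_sub, conjTranspose_one]
    calc (1 - (mt g)ᴴ) * (1 - mt g) = 1 - mt g - (mt g)ᴴ + (mt g)ᴴ * mt g := by noncomm_ring
      _ = (1 - mt g) + (1 - (mt g)ᴴ) := by rw [mt_unit']; noncomm_ring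
  rw [h1, trace_add, Complex.add_re, trace_conjTranspose, Complex.star_def, Complex.conj_re]
  ring

lemma tr_one_sub_nonneg (g : G) : 0 ≤ (trace (1 - mt g)).re := by
  rw [tr_one_sub]; have := fro2_nonneg (1 - mt g); linarith

lemma lin_add (B : LieBasis G n) (v w : Fin n → ℝ) : lin B (v + w) = lin B v + lin B w := by
  unfold lin; simp [add_smul, Finset.sum_add_distrib]
lemma lin_smul (B : LieBasis G n) (t : ℝ) (v : Fin n → ℝ) : lin B (t • v) = t • lin B v := by
  unfold lin; simp [Finset.smul_sum, smul_smul]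
lemma lin_zero (B : LieBasis G n) : lin B 0 = 0 := by unfold lin; simp

/-- `lin` as a linear map. -/
def linL (B : LieBasis G n) : (Fin n → ℝ) →ₗ[ℝ] Mt N where
  toFun := lin B
  map_add' := lin_add B
  map_smul' := lin_smul B

lemma ip_lin (B : LieBasis G n) (v : Fin n → ℝ) (a : Fin n) :
    (trace ((B.X a)ᴴ * lin B v)).re = v a := by
  unfold lin
  rw [Finset.mul_sum, trace_sum, Complex.re_sum]
  simp only [mul_smul_comm, trace_smul, Complex.smul_re, B.orth, smul_eq_mul]
  simp

lemma lin_inj (B : LieBasis G n) {v w : Fin n → ℝ} (h : lin B v = lin B w) : v = w := by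
  funext a; rw [← ip_lin B v a, h, ip_lin]

/-- coordinates of an element of the Lie algebra -/
lemma lin_ip (B : LieBasis G n) {M : Mt N} (hM : M ∈ Submodule.span ℝ (Set.range B.X)) :
    lin B (fun a => (trace ((B.X a)ᴴ * M)).re) = M := by
  obtain ⟨c, hc⟩ := (Submodule.mem_span_range_iff_exists_fun ℝ).1 hM
  have h1 : M = lin B c := hc.symm
  rw [h1]; congr 1; funext a; exact ip_lin B c a

lemma lin_mem (B : LieBasis G n) (v : Fin n → ℝ) :
    lin B v ∈ Submodule.span ℝ (Set.range B.X) :=
  (Submodule.mem_span_range_iff_exists_fun ℝ).2 ⟨v, rfl⟩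

lemma conj_lin_mem (B : LieBasis G n) (g : G) (v : Fin n → ℝ) :
    mt g * lin B v * (mt g)ᴴ ∈ Submodule.span ℝ (Set.range B.X) := by
  unfold lin
  rw [Finset.mul_sum, Finset.sum_mul]
  refine Submodule.sum_mem _ fun a _ => ?_
  rw [mul_smul_comm, smul_mul_assoc]
  exact Submodule.smul_mem _ _ (conj_memX B g a)

/-- `lin (Ad h v) = h lin(v) h*` -/
lemma lin_Ad (B : LieBasis G n) (h : G) (v : Fin n → ℝ) :
    lin B (Ad B h v) = mt h * lin B v * (mt h)ᴴ := lin_ip B (conj_lin_mem B h v)

lemma fro2_lin (B : LieBasis G n) (v : Fin n → ℝ) : fro2 (lin B v) = n2 v := by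
  have h1 : fro2 (lin B v) = ∑ a, v a * (trace ((B.X a)ᴴ * lin B v)).re := by
    unfold fro2
    conv_lhs => rw [show (lin B v)ᴴ = ∑ a, v a • (B.X a)ᴴ by unfold lin; simp [conjTranspose_sum]]
    rw [Finset.sum_mul, trace_sum, Complex.re_sum]
    simp [trace_smul]
  rw [h1]; unfold n2
  exact Finset.sum_congr rfl fun a _ => by rw [ip_lin, sq]

lemma n2_Ad (B : LieBasis G n) (h : G) (v : Fin n → ℝ) : n2 (Ad B h v) = n2 v := by
  rw [← fro2_lin B, lin_Ad, fro2_conj, fro2_lin]

lemma Ad_mul (B : LieBasis G n) (g h : G) (v : Fin n → ℝ) :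
    Ad B (g * h) v = Ad B g (Ad B h v) := by
  apply lin_inj B
  rw [lin_Ad, lin_Ad, lin_Ad, mt_mul, conjTranspose_mul]; noncomm_ring

lemma Ad_one (B : LieBasis G n) (v : Fin n → ℝ) : Ad B 1 v = v := by
  apply lin_inj B
  rw [lin_Ad, mt_one, conjTranspose_one, one_mul, mul_one]

lemma Ad_add (B : LieBasis G n) (g : G) (v w : Fin n → ℝ) :
    Ad B g (v + w) = Ad B g v + Ad B g w := by
  apply lin_inj B
  rw [lin_Ad, lin_add, lin_add, lin_Ad, lin_Ad]; noncomm_ring

lemma Ad_smul (B : LieBasis G n) (g : G) (t : ℝ) (v : Fin n → ℝ) :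
    Ad B g (t • v) = t • Ad B g v := by
  apply lin_inj B
  rw [lin_Ad, lin_smul, lin_smul, lin_Ad, mul_smul_comm, smul_mul_assoc]

lemma mt_eG (h : S_EXPG) (hG : IsClosed (G : Set (UU N))) (B : LieBasis G n) (v : Fin n → ℝ) :
    mt (eG B v) = NormedSpace.exp (lin B v) := by
  unfold eG
  have h1 := h N n G hG B v
  rw [dif_pos h1]
  exact h1.choose_spec

/-! ### smooth functions -/

section smooth

variable [NeZero l]

lemma shift_eq (B : LieBasis G n) (e : Link D l) (a : Fin n) (t : ℝ) (U : Link D l → G) :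
    (ld B).shift e a t U = Function.update U e (B.ex a t * U e) := by
  funext e'
  unfold YM.LD.shift
  by_cases h : e' = e
  · subst h
    rw [Pi.mul_apply, Pi.mulSingle_eq_same, Function.update_self]
    rfl
  · rw [Pi.mul_apply, Pi.mulSingle_eq_of_ne h, one_mul, Function.update_of_ne h]

lemma dlink_eq (B : LieBasis G n) (e : Link D l) (a : Fin n)
    (F : YM.Sm (ld B) (Link D l)) (U : Link D l → G) :
    dlink B e a F.1 U = ((ld B).Dv (e, a) F).1 U := by
  rw [YM.Dv_apply]
  unfold dlink YM.LD.dF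
  simp only [shift_eq]

lemma magnetic_eq (B : LieBasis G n) (U : Link D l → G) :
    magnetic U = (YM.VT (ld B) D l).1 U := by
  have h1 := YM.VT_apply (L := ld B) U
  have h2 : (YM.VT (ld B) D l).1 U = (ld B).ev U (YM.VT (ld B) D l) := rfl
  rw [h2, h1]
  have h3 : ∑ p : YM.Pl D l, YM.we (ld B) (YM.plqT U p.1.1 p.1.2.1 p.1.2.2) =
      ∑ p ∈ (Finset.univ.filter fun p : (Fin D → ZMod l) × Fin D × Fin D => p.2.1 < p.2.2),
        YM.we (ld B) (YM.plqT U p.1 p.2.1 p.2.2) := by
    rw [Finset.sum_subtype (p := fun p : (Fin D → ZMod l) × Fin D × Fin D => p.2.1 < p.2.2)]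
    intro p; simp
  rw [h3, Finset.sum_filter, Fintype.sum_prod_type]
  unfold magnetic
  refine Finset.sum_congr rfl fun x _ => ?_
  rw [Fintype.sum_prod_type]
  rfl

/-- A smooth function as an element of the algebra `Sm`. -/
def toSm (B : LieBasis G n) (F : (Link D l → G) → ℝ) (hF : IsSmooth F) :
    YM.Sm (ld B) (Link D l) := ⟨F, hF⟩

lemma IsSmooth.continuous {F : (Link D l → G) → ℝ} (hF : IsSmooth F) : Continuous F := by
  obtain ⟨f, hf, h⟩ := hF
  have h1 : F = fun U => f fun e => mt (U e) := funext h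
  rw [h1]
  exact hf.continuous.comp (continuous_pi fun e => continuous_mt.comp (continuous_apply e))

lemma IsSmooth.const (c : ℝ) : IsSmooth (fun _ : Link D l → G => c) :=
  ⟨fun _ => c, contDiff_const, fun _ => rfl⟩

lemma IsSmooth.add {F H : (Link D l → G) → ℝ} (hF : IsSmooth F) (hH : IsSmooth H) :
    IsSmooth (fun U => F U + H U) := by
  obtain ⟨f, hf, h⟩ := hF
  obtain ⟨k, hk, h'⟩ := hH
  exact ⟨fun M => f M + k M, hf.add hk, fun U => by simp only [h, h']⟩

lemma IsSmooth.mul {F H : (Link D l → G) → ℝ} (hF : IsSmooth F) (hH : IsSmooth H) :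
    IsSmooth (fun U => F U * H U) := by
  obtain ⟨f, hf, h⟩ := hF
  obtain ⟨k, hk, h'⟩ := hH
  exact ⟨fun M => f M * k M, hf.mul hk, fun U => by simp only [h, h']⟩

lemma IsSmooth.sum {ι : Type*} (s : Finset ι) {F : ι → (Link D l → G) → ℝ}
    (hF : ∀ i ∈ s, IsSmooth (F i)) : IsSmooth (fun U => ∑ i ∈ s, F i U) := by
  classical
  induction s using Finset.induction_on with
  | empty => simpa using IsSmooth.const 0
  | insert a s ha ih =>
    simp only [Finset.sum_insert ha]
    exact (hF a (Finset.mem_insert_self a s)).add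
      (ih fun i hi => hF i (Finset.mem_insert_of_mem hi))

lemma IsSmooth.comp {φ : ℝ → ℝ} (hφ : ContDiff ℝ ∞ φ) {F : (Link D l → G) → ℝ}
    (hF : IsSmooth F) : IsSmooth (fun U => φ (F U)) := by
  obtain ⟨f, hf, h⟩ := hF
  exact ⟨fun M => φ (f M), hφ.comp hf, fun U => by simp only [h]⟩

lemma IsSmooth.dlink {F : (Link D l → G) → ℝ} (hF : IsSmooth F) (B : LieBasis G n)
    (e : Link D l) (a : Fin n) : IsSmooth (dlink B e a F) := by
  have h1 := ((ld B).Dv (e, a) (toSm B F hF)).2
  have h2 : LU.dlink B e a F = ((ld B).Dv (e, a) (toSm B F hF)).1 := by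
    funext U; exact dlink_eq B e a (toSm B F hF) U
  rw [h2]
  exact h1

/-- The derivative exists. -/
lemma hasDerivAt_dlink (B : LieBasis G n) {F : (Link D l → G) → ℝ} (hF : IsSmooth F)
    (e : Link D l) (a : Fin n) (U : Link D l → G) :
    HasDerivAt (fun t => F (Function.update U e (B.ex a t * U e))) (dlink B e a F U) 0 := by
  have h1 := YM.hasDerivAt_dF (L := ld B) hF e a U 0
  rw [YM.LD.shift_zero] at h1
  simp only [shift_eq] at h1
  have h2 : (ld B).dF e a F U = dlink B e a F U := by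
    unfold dlink YM.LD.dF; simp only [shift_eq]
  rw [← h2]; exact h1

lemma ex_zero (B : LieBasis G n) (a : Fin n) : B.ex a 0 = 1 := (fm B).ex_zero a

lemma update_zero (B : LieBasis G n) (e : Link D l) (a : Fin n) (U : Link D l → G) :
    Function.update U e (B.ex a 0 * U e) = U := by
  rw [ex_zero, one_mul, Function.update_eq_self]

lemma dlink_add (B : LieBasis G n) {F H : (Link D l → G) → ℝ} (hF : IsSmooth F)
    (hH : IsSmooth H) (e : Link D l) (a : Fin n) (U : Link D l → G) :
    dlink B e a (fun U => F U + H U) U = dlink B e a F U + dlink B e a H U :=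
  ((hasDerivAt_dlink B hF e a U).add (hasDerivAt_dlink B hH e a U)).deriv

lemma dlink_const_mul (B : LieBasis G n) (c : ℝ) {F : (Link D l → G) → ℝ} (hF : IsSmooth F)
    (e : Link D l) (a : Fin n) (U : Link D l → G) :
    dlink B e a (fun U => c * F U) U = c * dlink B e a F U :=
  ((hasDerivAt_dlink B hF e a U).const_mul c).deriv

lemma dlink_mul (B : LieBasis G n) {F H : (Link D l → G) → ℝ} (hF : IsSmooth F)
    (hH : IsSmooth H) (e : Link D l) (a : Fin n) (U : Link D l → G) :
    dlink B e a (fun U => F U * H U) U = dlink B e a F U * H U + F U * dlink B e a H U := by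
  have h1 := ((hasDerivAt_dlink B hF e a U).mul (hasDerivAt_dlink B hH e a U)).deriv
  rw [update_zero] at h1
  exact h1

lemma dlink_comp (B : LieBasis G n) {φ : ℝ → ℝ} (hφ : Differentiable ℝ φ)
    {F : (Link D l → G) → ℝ} (hF : IsSmooth F) (e : Link D l) (a : Fin n) (U : Link D l → G) :
    dlink B e a (fun U => φ (F U)) U = deriv φ (F U) * dlink B e a F U := by
  have h1 := hasDerivAt_dlink B hF e a U
  have h0 : F (Function.update U e (B.ex a 0 * U e)) = F U := by rw [update_zero]
  have h2 : HasDerivAt φ (deriv φ (F U)) (F (Function.update U e (B.ex a 0 * U e))) := by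
    rw [h0]; exact (hφ _).hasDerivAt
  exact (h2.comp (0 : ℝ) h1).deriv

section integral

variable [MeasurableSpace G] [BorelSpace G] (μ : Measure G) [IsProbabilityMeasure μ]
  [μ.IsHaarMeasure]

lemma integrable_links (hG : IsClosed (G : Set (UU N))) {F : (Link D l → G) → ℝ}
    (hF : Continuous F) : Integrable F (Measure.pi fun _ : Link D l => μ) := by
  have := compactG hG
  have := sctG (G := G)
  exact hF.integrable_of_hasCompactSupport (HasCompactSupport.of_compactSpace _)

/-- Integration by parts. -/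
lemma integral_dlink (hG : IsClosed (G : Set (UU N))) (B : LieBasis G n)
    {F : (Link D l → G) → ℝ} (hF : IsSmooth F) (e : Link D l) (a : Fin n) :
    ∫ U, dlink B e a F U ∂(Measure.pi fun _ : Link D l => μ) = 0 := by
  have := compactG hG
  have := sctG (G := G)
  have h1 := YM.I_D_zero (L := ld B) μ (e, a) (toSm B F hF)
  rw [YM.I_apply] at h1
  rw [← h1]
  refine integral_congr_ae (Filter.Eventually.of_forall fun U => ?_)
  exact dlink_eq B e a (toSm B F hF) U

end integral

lemma magnetic_nonneg (U : Link D l → G) : 0 ≤ magnetic U := by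
  unfold magnetic
  refine Finset.sum_nonneg fun x _ => Finset.sum_nonneg fun i _ => Finset.sum_nonneg fun j _ => ?_
  split_ifs
  · exact tr_one_sub_nonneg _
  · exact le_rfl

lemma smooth_magnetic (B : LieBasis G n) : IsSmooth (fun U : Link D l → G => magnetic U) := by
  have h1 := (YM.VT (ld B) D l).2
  have h2 : (fun U : Link D l → G => magnetic U) = (YM.VT (ld B) D l).1 := by
    funext U; exact magnetic_eq B U
  rw [h2]; exact h1

end smooth

end

end Pool.Agent.Q77.LU
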