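import Mathlib
import Pool.Agent.Q77.LU.StmH

/-!
# Project LU, third part: all gauge invariant functions (electric flux sectors)

Without the restriction to centre invariant functions every level is repeated `|Z|^D` times,
`Z` the centre of `G`.
-/

set_option autoImplicit false

namespace Pool.Agent.Q77.LU

open MeasureTheory Matrix Set Filter Topology
open scoped ContDiff Matrix.Norms.Frobenius

noncomputable section

/-- The energy levels of the Hamiltonian on all gauge invariant functions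
(minimum-maximum principle). -/
def glevel {N n : ℕ} {G : Subgroup (UU N)} (D l : ℕ) [NeZero l] [MeasurableSpace G]
    (B : LieBasis G n) (μ : Measure G) (g : ℝ) (k : ℕ) : ℝ :=
  sInf {E : ℝ | ∃ Ψ : Fin (k + 1) → (Link D l → G) → ℝ,
    (∀ i, IsSmooth (Ψ i) ∧ GaugeInv (Ψ i)) ∧
    (∀ i j, ∫ U, Ψ i U * Ψ j U ∂(Measure.pi fun _ : Link D l => μ) = if i = j then 1 else 0) ∧
    ∀ c : Fin (k + 1) → ℝ, energy B μ g (fun U => ∑ i, c i * Ψ i U) ≤ E * ∑ i, c i ^ 2}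

/-- Configurations gauge equivalent to a point of the chart with coordinates of length `< r`. -/
def Orb1 {N n D l : ℕ} {G : Subgroup (UU N)} [NeZero l] {B : LieBasis G n} (dc : Dec B D l)
    (r : ℝ) (U : Link D l → G) : Prop :=
  ∃ (γ : (Fin D → ZMod l) → G) (x : (Fin D × Fin n → ℝ) × (Fin dc.M → ℝ)),
    nx x < r ^ 2 ∧ U = gauge γ (dc.ch x)

/-- Lifting functions from the chart to one well. -/
def S_LIFT1 : Prop := ∀ (N n D l : ℕ) [NeZero l] (G : Subgroup (UU N)),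
  IsClosed (G : Set (UU N)) → ∀ (B : LieBasis G n), NoCentre B → ∀ (dc : Dec B D l),
  ∃ r : ℝ, 0 < r ∧ ∀ ρ : ℝ, 0 < ρ → ρ < r →
  ∀ f : (Fin D × Fin n → ℝ) × (Fin dc.M → ℝ) → ℝ,
    ContDiff ℝ ∞ f → (∀ x, f x ≠ 0 → nx x < ρ ^ 2) → (∀ h x, f (dc.sg h x) = f x) →
    ∃ F : (Link D l → G) → ℝ, IsSmooth F ∧ GaugeInv F ∧
      (∀ x, nx x < r ^ 2 → F (dc.ch x) = f x) ∧ ∀ U, F U ≠ 0 → Orb1 dc ρ U

/-- The main lower bound on all gauge invariant functions. -/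
def S_GKEY : Prop := ∀ (N n D l : ℕ) [NeZero l] (G : Subgroup (UU N)),
  IsClosed (G : Set (UU N)) → ConnectedSpace G → ∀ (B : LieBasis G n) [MeasurableSpace G]
  [BorelSpace G] (μ : Measure G) [IsProbabilityMeasure μ] [μ.IsHaarMeasure]
  [Fintype (Subgroup.center G)], NoCentre B →
  2 ≤ D → ∀ (dc : Dec B D l) (L : Loc (Fin D × Fin n) (Fin dc.M)), Chart μ dc L →
  ∀ ε : ℝ, 0 < ε → ∃ K η g0 : ℝ, 0 ≤ K ∧ 0 < η ∧ 0 < g0 ∧ ∃ χ : (Link D l → G) → ℝ,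
  ∀ g : ℝ, 0 < g → g < g0 → ∀ F : (Link D l → G) → ℝ, IsSmooth F → GaugeInv F →
  ∀ t : (Fin D → Subgroup.center G) → (Fin D × Fin n → ℝ) → ℝ,
  (∀ z, t z = fun C => (Real.sqrt ((Fintype.card (Subgroup.center G) : ℝ) ^ D))⁻¹ *
    L.T g (dc.pull L.r fun U => χ U * F (centre (fun i => (z i : G)) U)) C) →
  (∀ z, CI (AdS B D) (t z)) ∧
  (∀ z : Fin D → Subgroup.center G,
    HasCompactSupport (dc.pull L.r fun U => χ U * F (centre (fun i => (z i : G)) U))) ∧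
  (∀ z : Fin D → Subgroup.center G,
    Continuous (dc.pull L.r fun U => χ U * F (centre (fun i => (z i : G)) U))) ∧
  ∑ z, ∫ C, t z C ^ 2 ≤ ∫ U, F U ^ 2 ∂(Measure.pi fun _ : Link D l => μ) ∧
  (L.e0 - K * g) * (∫ U, F U ^ 2 ∂(Measure.pi fun _ : Link D l => μ)) +
    (1 - ε) * (∑ z, ∫ C, (g ^ 2 / 2 * g2 (t z) C + L.c4 / g ^ 2 * L.v C * t z C ^ 2)) +
    η * ((∫ U, F U ^ 2 ∂(Measure.pi fun _ : Link D l => μ)) - ∑ z, ∫ C, t z C ^ 2) ≤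
      energy B μ g F

/-- The levels of a direct sum of copies. -/
def S_DSUM : Prop := ∀ (P Q W : Type) [Fintype P] [DecidableEq P] [Fintype Q] [DecidableEq Q]
  [Fintype W] [Nonempty W] (L : Loc P Q) (𝒢 : Set ((P → ℝ) → (P → ℝ))),
  (∀ σ ∈ 𝒢, ∀ (t : ℝ) x, σ (t • x) = t • σ x) →
  ∀ (g : ℝ), 0 < g → ∀ (k : ℕ) (t : Fin (k + 1) → W → (P → ℝ) → ℝ) (β Λ : ℝ), 0 < β →
  (∀ i z, CI 𝒢 (t i z)) →
  (∀ c : Fin (k + 1) → ℝ, β * ∑ i, c i ^ 2 ≤ ∑ z, ∫ C, (∑ i, c i * t i z C) ^ 2) →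
  (∀ c : Fin (k + 1) → ℝ, ∑ z, ∫ C, (g ^ 2 / 2 * g2 (fun C => ∑ i, c i * t i z C) C +
    L.c4 / g ^ 2 * L.v C * (∑ i, c i * t i z C) ^ 2) ≤
      Λ * ∑ z, ∫ C, (∑ i, c i * t i z C) ^ 2) →
  L.E g * lev L.v 𝒢 (k / Fintype.card W) ≤ Λ

/-- Lower bound of the levels. -/
def S_GLOW : Prop := ∀ (N n D l : ℕ) [NeZero l] (G : Subgroup (UU N)),
  IsClosed (G : Set (UU N)) → ConnectedSpace G → ∀ (B : LieBasis G n) [MeasurableSpace G]
  [BorelSpace G] (μ : Measure G) [IsProbabilityMeasure μ] [μ.IsHaarMeasure], NoCentre B →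
  2 ≤ D → 1 ≤ n → ∀ (k : ℕ) (ε : ℝ), 0 < ε → ∃ g0 : ℝ, 0 < g0 ∧ ∀ g : ℝ, 0 < g → g < g0 →
  ezero n D l + g ^ (2 / 3 : ℝ) * ((l : ℝ) ^ (-(D : ℝ) / 3) *
    lev (vred B D) (AdS B D) (k / Nat.card (Subgroup.center G) ^ D) - ε) ≤
      glevel D l B μ g k

/-- Upper bound of the levels. -/
def S_GUPP : Prop := ∀ (N n D l : ℕ) [NeZero l] (G : Subgroup (UU N)),
  IsClosed (G : Set (UU N)) → ConnectedSpace G → ∀ (B : LieBasis G n) [MeasurableSpace G]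
  [BorelSpace G] (μ : Measure G) [IsProbabilityMeasure μ] [μ.IsHaarMeasure], NoCentre B →
  2 ≤ D → 1 ≤ n → ∀ (k : ℕ) (ε : ℝ), 0 < ε → ∃ g0 : ℝ, 0 < g0 ∧ ∀ g : ℝ, 0 < g → g < g0 →
  glevel D l B μ g k ≤
    ezero n D l + g ^ (2 / 3 : ℝ) * ((l : ℝ) ^ (-(D : ℝ) / 3) *
    lev (vred B D) (AdS B D) (k / Nat.card (Subgroup.center G) ^ D) + ε)

end

end Pool.Agent.Q77.LU
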