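import Mathlib
import Pool.Agent.Q77.LU.StmK

/-!
# Project LU, part four: exponentially small splitting of the lowest levels
-/

set_option autoImplicit false

namespace Pool.Agent.Q77.LU

open MeasureTheory Matrix Set Filter Topology
open scoped ContDiff Matrix.Norms.Frobenius

noncomputable section

/-- The lowest level is the same on centre invariant functions. -/
def S_CIG : Prop := ∀ (N n D l : ℕ) [NeZero l] (G : Subgroup (UU N)),
  IsClosed (G : Set (UU N)) → ∀ (B : LieBasis G n) [MeasurableSpace G]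
  [BorelSpace G] (μ : Measure G) [IsProbabilityMeasure μ] [μ.IsHaarMeasure]
  [Finite (Subgroup.center G)] (g : ℝ), 0 < g →
  level D l B μ g 0 = glevel D l B μ g 0

/-- Exponential decay of almost minimal functions away from the torons. -/
def S_AGM : Prop := ∀ (N n D l : ℕ) [NeZero l] (G : Subgroup (UU N)),
  IsClosed (G : Set (UU N)) → ConnectedSpace G → ∀ (B : LieBasis G n) [MeasurableSpace G]
  [BorelSpace G] (μ : Measure G) [IsProbabilityMeasure μ] [μ.IsHaarMeasure], NoCentre B →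
  2 ≤ D → 1 ≤ n → ∀ δ : ℝ, 0 < δ → ∃ c C g0 : ℝ, 0 < c ∧ 0 < C ∧ 0 < g0 ∧
  ∀ g : ℝ, 0 < g → g < g0 → ∃ d : ℝ, 0 < d ∧ ∀ F : (Link D l → G) → ℝ, IsSmooth F →
  GaugeInv F → ∫ U, F U ^ 2 ∂(Measure.pi fun _ : Link D l => μ) = 1 →
  energy B μ g F ≤ glevel D l B μ g 0 + d →
  ∫ U in {U | δ ≤ tau B U}, F U ^ 2 ∂(Measure.pi fun _ : Link D l => μ) ≤
    C * Real.exp (-c / g)

/-- The splitting of the lowest `|Z|^D` levels is exponentially small. -/
def S_FLUX : Prop := ∀ (N n D l : ℕ) [NeZero l] (G : Subgroup (UU N)),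
  IsClosed (G : Set (UU N)) → ConnectedSpace G → ∀ (B : LieBasis G n) [MeasurableSpace G]
  [BorelSpace G] (μ : Measure G) [IsProbabilityMeasure μ] [μ.IsHaarMeasure], NoCentre B →
  2 ≤ D → 1 ≤ n → ∃ c g0 : ℝ, 0 < c ∧ 0 < g0 ∧ ∀ g : ℝ, 0 < g → g < g0 →
  glevel D l B μ g (Nat.card (Subgroup.center G) ^ D - 1) ≤
    glevel D l B μ g 0 + Real.exp (-c / g)

end

end Pool.Agent.Q77.LU
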