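import Mathlib
import Pool.Agent.Q77.LU.StmA

/-!
# Project LU, part five: the levels of the reduced model
-/

set_option autoImplicit false

namespace Pool.Agent.Q77.LU

open MeasureTheory Set Filter Topology
open scoped ContDiff

noncomputable section

/-- The levels of the reduced model are positive, increasing and tend to infinity. -/
def S_DISC : Prop := ∀ (P : Type) [Fintype P] [DecidableEq P] [Nonempty P] (V : Pot P)
  (𝒢 : Set ((P → ℝ) → (P → ℝ))), (∀ σ ∈ 𝒢, ∀ x, n2 (σ x) = n2 x) →
  0 < lev V.v 𝒢 0 ∧ Monotone (lev V.v 𝒢) ∧ Tendsto (lev V.v 𝒢) atTop atTop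

end

end Pool.Agent.Q77.LU
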