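import Mathlib
import Pool.Agent.Q77.LU.StmL
import Pool.Agent.Q77.LU.StmM
import Pool.Agent.Q77.LU.Base

/-!
# Project LU: the final deduction
-/

set_option autoImplicit false

namespace Pool.Agent.Q77.LU

open MeasureTheory Matrix Set Filter Topology
open scoped ContDiff Matrix.Norms.Frobenius

noncomputable section

/-- Convergence from two-sided bounds. -/
theorem tendsto_of_bounds {f : ℝ → ℝ} {e c : ℝ}
    (h1 : ∀ ε : ℝ, 0 < ε → ∃ g0 : ℝ, 0 < g0 ∧ ∀ g : ℝ, 0 < g → g < g0 →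
      e + g ^ (2 / 3 : ℝ) * (c - ε) ≤ f g)
    (h2 : ∀ ε : ℝ, 0 < ε → ∃ g0 : ℝ, 0 < g0 ∧ ∀ g : ℝ, 0 < g → g < g0 →
      f g ≤ e + g ^ (2 / 3 : ℝ) * (c + ε)) :
    Tendsto (fun g : ℝ => (f g - e) / g ^ (2 / 3 : ℝ)) (𝓝[>] 0) (𝓝 c) := by
  rw [Metric.tendsto_nhdsWithin_nhds]
  intro ε hε
  obtain ⟨a, ha, h1⟩ := h1 (ε / 2) (by linarith)
  obtain ⟨b, hb, h2⟩ := h2 (ε / 2) (by linarith)
  refine ⟨min a b, lt_min ha hb, fun {g} hg hd => ?_⟩
  have hg0 : 0 < g := hg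
  have hd' : g < min a b := by
    rw [Real.dist_eq, sub_zero, abs_of_pos hg0] at hd
    exact hd
  have e1 := h1 g hg0 (lt_of_lt_of_le hd' (min_le_left _ _))
  have e2 := h2 g hg0 (lt_of_lt_of_le hd' (min_le_right _ _))
  have hp : 0 < g ^ (2 / 3 : ℝ) := Real.rpow_pos_of_pos hg0 _
  rw [Real.dist_eq, abs_lt]
  constructor
  · rw [lt_sub_iff_add_lt, lt_div_iff₀ hp]
    nlinarith
  · rw [sub_lt_iff_lt_add, div_lt_iff₀ hp]
    nlinarith

variable {N n : ℕ} {G : Subgroup (UU N)}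

/-- The potential of Yang-Mills quantum mechanics as a `Pot`. -/
theorem exists_pot (h : S_SIM) (hG : IsClosed (G : Set (UU N))) (B : LieBasis G n)
    (hz : NoCentre B) {D : ℕ} (hD : 2 ≤ D) : ∃ V : Pot (Fin D × Fin n), V.v = vred B D := by
  obtain ⟨κ, hκ, hs⟩ := h N n D G hG B hz hD
  have hlin : ∀ i : Fin D, Continuous fun A : Fin D × Fin n → ℝ => lin B fun a => A (i, a) := by
    intro i
    unfold lin
    refine continuous_finsetSum _ fun a _ => ?_
    exact (continuous_apply (i, a)).smul continuous_const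
  have hfro : Continuous (fun M : Mt N => fro2 M) := by
    unfold fro2
    exact Complex.continuous_re.comp ((continuous_id.matrix_conjTranspose.mul continuous_id).matrix_trace)
  have hfn : ∀ M : Mt N, 0 ≤ fro2 M := by
    intro M
    unfold fro2
    have h1 : trace (Mᴴ * M) = ∑ i, ∑ j, star (M j i) * M j i := by
      simp [trace, Matrix.mul_apply, conjTranspose_apply]
    rw [h1, Complex.re_sum]
    refine Finset.sum_nonneg fun i _ => ?_
    rw [Complex.re_sum]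
    refine Finset.sum_nonneg fun j _ => ?_
    rw [Complex.star_def, ← Complex.normSq_eq_conj_mul_self, Complex.ofReal_re]
    exact Complex.normSq_nonneg _
  refine ⟨⟨vred B D, ?_, ?_, ?_, κ, hκ, hs⟩, rfl⟩
  · unfold vred
    refine continuous_const.mul (continuous_finsetSum _ fun i _ => continuous_finsetSum _
      fun j _ => ?_)
    split_ifs
    · exact hfro.comp (((hlin i).mul (hlin j)).sub ((hlin j).mul (hlin i)))
    · exact continuous_const
  · intro C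
    unfold vred
    refine mul_nonneg (by norm_num) (Finset.sum_nonneg fun i _ => Finset.sum_nonneg fun j _ => ?_)
    split_ifs
    · exact hfn _
    · exact le_rfl
  · intro t C
    unfold vred
    have hl : ∀ i : Fin D, lin B (fun a => (t • C) (i, a)) = t • lin B fun a => C (i, a) := by
      intro i
      unfold lin
      simp [Finset.smul_sum, smul_smul]
    have hf : ∀ M : Mt N, fro2 (t ^ 2 • M) = t ^ 4 * fro2 M := by
      intro M
      unfold fro2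
      rw [conjTranspose_smul, smul_mul_smul_comm, trace_smul, Complex.smul_re]
      simp only [star_trivial, smul_eq_mul]
      ring
    rw [mul_left_comm]
    congr 1
    rw [Finset.mul_sum]
    refine Finset.sum_congr rfl fun i _ => ?_
    rw [Finset.mul_sum]
    refine Finset.sum_congr rfl fun j _ => ?_
    split_ifs
    · rw [hl i, hl j, smul_mul_smul_comm, smul_mul_smul_comm, ← smul_sub, ← sq, hf]
    · rw [mul_zero]

theorem n2_adF (B : LieBasis G n) {D : ℕ} (h : G) (C : Fin D × Fin n → ℝ) :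
    n2 (adF B h C) = n2 C := by
  unfold n2
  rw [Fintype.sum_prod_type, Fintype.sum_prod_type]
  refine Finset.sum_congr rfl fun i _ => ?_
  exact n2_Ad B h fun c => C (i, c)

/-- The final statement. -/
def S_FIN : Prop := ∀ (N n D : ℕ) (G : Subgroup (UU N)), IsClosed (G : Set (UU N)) →
  ConnectedSpace G → ∀ (B : LieBasis G n) [MeasurableSpace G] [BorelSpace G] (μ : Measure G)
  [IsProbabilityMeasure μ] [μ.IsHaarMeasure], NoCentre B → 2 ≤ D → 1 ≤ n →
  (0 < lev (vred B D) (AdS B D) 0 ∧ lev (vred B D) (AdS B D) 0 < lev (vred B D) (AdS B D) 1 ∧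
    Monotone (lev (vred B D) (AdS B D)) ∧ Tendsto (lev (vred B D) (AdS B D)) atTop atTop) ∧
  Finite (Subgroup.center G) ∧
  (∀ (l : ℕ) [NeZero l],
    (∀ k : ℕ, Tendsto (fun g : ℝ => (level D l B μ g k - ezero n D l) / g ^ (2 / 3 : ℝ))
      (𝓝[>] 0) (𝓝 ((l : ℝ) ^ (-(D : ℝ) / 3) * lev (vred B D) (AdS B D) k))) ∧
    (∀ k : ℕ, Tendsto (fun g : ℝ => (glevel D l B μ g k - ezero n D l) / g ^ (2 / 3 : ℝ))
      (𝓝[>] 0) (𝓝 ((l : ℝ) ^ (-(D : ℝ) / 3) *
        lev (vred B D) (AdS B D) (k / Nat.card (Subgroup.center G) ^ D)))) ∧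
    ∃ c g0 : ℝ, 0 < c ∧ 0 < g0 ∧ ∀ g : ℝ, 0 < g → g < g0 →
      glevel D l B μ g (Nat.card (Subgroup.center G) ^ D - 1) ≤
        glevel D l B μ g 0 + Real.exp (-c / g)) ∧
  ∃ g0 : ℕ → ℝ, (∀ l, 0 < g0 l) ∧ ∀ g : ℕ → ℝ, (∀ l, 0 < g l ∧ g l ≤ g0 l) →
    Tendsto (fun l : ℕ => ((l + 1 : ℕ) : ℝ) ^ ((D : ℝ) / 3) *
      (level D (l + 1) B μ (g l) 1 - level D (l + 1) B μ (g l) 0) / g l ^ (2 / 3 : ℝ)) atTop
      (𝓝 (lev (vred B D) (AdS B D) 1 - lev (vred B D) (AdS B D) 0))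

theorem fin_of (hSIM : S_SIM) (hDISC : S_DISC) (hGAP : S_GAPF) (hFINC : S_FINC)
    (hLOW : S_LOW) (hUPP : S_UPP) (hGLOW : S_GLOW) (hGUPP : S_GUPP) (hFLUX : S_FLUX) :
    S_FIN := by
  intro N n D G hG hc B _ _ μ _ _ hz hD hn
  obtain ⟨V, hV⟩ := exists_pot hSIM hG B hz hD
  have hne : Nonempty (Fin D × Fin n) := ⟨(⟨0, by omega⟩, ⟨0, by omega⟩)⟩
  have hinv : ∀ σ ∈ AdS B D, ∀ x, n2 (σ x) = n2 x := by
    rintro σ ⟨h, rfl⟩ x
    exact n2_adF B h x
  obtain ⟨d1, d2, d3⟩ := hDISC (Fin D × Fin n) V (AdS B D) hinv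
  have d4 := hGAP (Fin D × Fin n) V (AdS B D) hinv
  rw [hV] at d1 d2 d3 d4
  have hlev : ∀ (l : ℕ) [NeZero l] (k : ℕ),
      Tendsto (fun g : ℝ => (level D l B μ g k - ezero n D l) / g ^ (2 / 3 : ℝ))
      (𝓝[>] 0) (𝓝 ((l : ℝ) ^ (-(D : ℝ) / 3) * lev (vred B D) (AdS B D) k)) := by
    intro l _ k
    exact tendsto_of_bounds (hLOW N n D l G hG hc B μ hz hD hn k)
      (hUPP N n D l G hG hc B μ hz hD hn k)
  refine ⟨⟨d1, d4, d2, d3⟩, hFINC N n G hG B hz, ?_, ?_⟩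
  · intro l _
    refine ⟨hlev l, fun k => ?_, hFLUX N n D l G hG hc B μ hz hD hn⟩
    exact tendsto_of_bounds (hGLOW N n D l G hG hc B μ hz hD hn k)
      (hGUPP N n D l G hG hc B μ hz hD hn k)
  · have hgap : ∀ l : ℕ, Tendsto (fun g : ℝ => ((l + 1 : ℕ) : ℝ) ^ ((D : ℝ) / 3) *
        (level D (l + 1) B μ g 1 - level D (l + 1) B μ g 0) / g ^ (2 / 3 : ℝ)) (𝓝[>] 0)
        (𝓝 (lev (vred B D) (AdS B D) 1 - lev (vred B D) (AdS B D) 0)) := by
      intro l
      have h1 := ((hlev (l + 1) 1).sub (hlev (l + 1) 0)).const_mul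
        (((l + 1 : ℕ) : ℝ) ^ ((D : ℝ) / 3))
      have h2 : ((l + 1 : ℕ) : ℝ) ^ ((D : ℝ) / 3) *
          (((l + 1 : ℕ) : ℝ) ^ (-(D : ℝ) / 3) * lev (vred B D) (AdS B D) 1 -
            ((l + 1 : ℕ) : ℝ) ^ (-(D : ℝ) / 3) * lev (vred B D) (AdS B D) 0) =
          lev (vred B D) (AdS B D) 1 - lev (vred B D) (AdS B D) 0 := by
        have h3 : ((l + 1 : ℕ) : ℝ) ^ ((D : ℝ) / 3) * ((l + 1 : ℕ) : ℝ) ^ (-(D : ℝ) / 3) = 1 := by
          rw [← Real.rpow_add (by positivity)]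
          have : (D : ℝ) / 3 + -(D : ℝ) / 3 = 0 := by ring
          rw [this, Real.rpow_zero]
        rw [← mul_sub, ← mul_assoc, h3, one_mul]
      rw [h2] at h1
      refine h1.congr fun g => ?_
      rw [← sub_div, mul_div_assoc]
      congr 2
      ring
    have hex : ∀ l : ℕ, ∃ r : ℝ, 0 < r ∧ ∀ g : ℝ, 0 < g → g ≤ r →
        dist (((l + 1 : ℕ) : ℝ) ^ ((D : ℝ) / 3) *
        (level D (l + 1) B μ g 1 - level D (l + 1) B μ g 0) / g ^ (2 / 3 : ℝ))
        (lev (vred B D) (AdS B D) 1 - lev (vred B D) (AdS B D) 0) < 1 / ((l : ℝ) + 1) := by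
      intro l
      obtain ⟨r, hr, h⟩ := (Metric.tendsto_nhdsWithin_nhds.1 (hgap l)) (1 / ((l : ℝ) + 1))
        (by positivity)
      refine ⟨r / 2, by linarith, fun g hg hgr => h hg ?_⟩
      rw [Real.dist_eq, sub_zero, abs_of_pos hg]
      linarith
    choose r hr hd using hex
    refine ⟨r, hr, fun g hg => ?_⟩
    rw [Metric.tendsto_atTop]
    intro ε hε
    obtain ⟨n0, hn0⟩ := exists_nat_one_div_lt hε
    refine ⟨n0, fun l hl => ?_⟩
    refine (hd l (g l) (hg l).1 (hg l).2).trans (lt_of_le_of_lt ?_ hn0)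
    have : (n0 : ℝ) ≤ l := by exact_mod_cast hl
    exact one_div_le_one_div_of_le (by positivity) (by linarith)

end

end Pool.Agent.Q77.LU
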