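import Mathlib
import Pool.Agent.Q77.LU.Fin

/-!
# Project LU, uniform version: statements

All constants are polynomial in the size `l` of the lattice.  Proofs of lemma `X` are in other files
and have the form `theorem t_X : S_X`.
-/

set_option autoImplicit false

namespace Pool.Agent.Q77.LU

open MeasureTheory Matrix Set Filter Topology
open scoped ContDiff Matrix.Norms.Frobenius

noncomputable section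

/-! ### analysis -/

/-- Bounds of the local data by a size parameter. -/
structure Bd {P Q : Type} [Fintype P] [DecidableEq P] [Fintype Q] [DecidableEq Q]
    (L : Loc P Q) (Λ : ℝ) : Prop where
  one : 1 ≤ Λ
  cardP : (Fintype.card P : ℝ) ≤ Λ
  cardQ : (Fintype.card Q : ℝ) ≤ Λ
  om1 : ∀ i, Λ⁻¹ ≤ L.om i
  om2 : ∀ i, L.om i ≤ Λ
  c41 : Λ⁻¹ ≤ L.c4
  c42 : L.c4 ≤ Λ
  A : ∀ C i j, |L.A C i j| ≤ Λ * nr C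
  K : L.K ≤ Λ
  r1 : Λ⁻¹ ≤ L.r
  r2 : L.r ≤ 1
  J : ∀ x, nx x < L.r ^ 2 → gC L.J x + gA L.J x ≤ (Λ * L.J x) ^ 2

/-- The fibre inequality, uniform version of `S_FIB`. -/
def S_FIBU : Prop := ∃ (p : ℕ) (C : ℝ), 1 ≤ C ∧ ∀ (Q : Type) [Fintype Q] [DecidableEq Q]
  (om : Q → ℝ) (K0 θ Λ M : ℝ), 1 ≤ Λ → (Fintype.card Q : ℝ) ≤ Λ →
  (∀ i, Λ⁻¹ ≤ om i ∧ om i ≤ Λ) → 0 ≤ K0 → K0 ≤ Λ → Λ⁻¹ ≤ θ → M = C * Λ ^ p →
  ∀ g c : ℝ, 0 < g → g ≤ M⁻¹ → 0 ≤ c → c ≤ M⁻¹ → ∀ A : Matrix Q Q ℝ, A.IsSymm →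
  (∀ i j, |A i j| ≤ K0 * c) → ∑ i, A i i / om i = 0 → ∀ u : (Q → ℝ) → ℝ, Continuous u →
  (∀ a : Q → ℝ, n2 a ≤ M⁻¹ ^ 2 →
    1 / 2 * ∑ i, om i ^ 2 * a i ^ 2 + 1 / 2 * ∑ i, a i * (A.mulVec a) i -
      K0 * (c ^ 2 * n2 a + nr a ^ 3) ≤ u a) →
  ∀ f : (Q → ℝ) → ℝ, ContDiff ℝ 1 f → (∀ a, f a ≠ 0 → n2 a < M⁻¹ ^ 2) →
  (∫ a, (1 / 2 * ∑ i, om i - θ * c - M * (c ^ 2 + g)) * f a ^ 2) +
      M⁻¹ * ((∫ a, f a ^ 2) - (∫ a, f a * gau om g a) ^ 2) ≤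
    ∫ a, (g ^ 2 / 2 * (1 - K0 * (c ^ 2 + g + n2 a)) * g2 f a + 1 / g ^ 2 * u a * f a ^ 2)

/-- The local lower bound, uniform version of `S_LLB`. -/
def S_LLBU : Prop := ∃ p : ℕ, ∀ ε κ0 : ℝ, 0 < ε → 0 < κ0 → ∃ C : ℝ, 1 ≤ C ∧
  ∀ (P Q : Type) [Fintype P] [DecidableEq P] [Fintype Q] [DecidableEq Q] (L : Loc P Q)
  (Λ M : ℝ), Bd L Λ → κ0 ≤ L.κ → M = C * Λ ^ p → ∀ g : ℝ, 0 < g → g ≤ M⁻¹ →
  ∀ f : (P → ℝ) × (Q → ℝ) → ℝ, ContDiff ℝ ∞ f → (∀ x, f x ≠ 0 → nx x < M⁻¹ ^ 2) →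
  (L.e0 - M * g) * (∫ x, f x ^ 2 * L.J x) +
      (1 - ε) * (∫ C, (g ^ 2 / 2 * g2 (L.T g f) C + L.c4 / g ^ 2 * L.v C * L.T g f C ^ 2)) +
      M⁻¹ * ((∫ x, f x ^ 2 * L.J x) - ∫ C, L.T g f C ^ 2) ≤
    ∫ x, (g ^ 2 / 2 * (1 - L.K * nx x) * (gC f x + gA f x) + 1 / g ^ 2 * L.w x * f x ^ 2) * L.J x

/-- Moments of the Gaussian with a cut-off, uniform version of `S_GM`. -/
def S_GMU : Prop := ∃ (p : ℕ) (C : ℝ), 1 ≤ C ∧ ∀ (Q : Type) [Fintype Q] [DecidableEq Q]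
  (om : Q → ℝ) (δ Λ M : ℝ), 1 ≤ Λ → (Fintype.card Q : ℝ) ≤ Λ →
  (∀ i, Λ⁻¹ ≤ om i ∧ om i ≤ Λ) → Λ⁻¹ ≤ δ → δ ≤ 1 → M = C * Λ ^ p →
  ∀ g : ℝ, 0 < g → g ≤ M⁻¹ →
  ∀ G : (Q → ℝ) → ℝ, G = (fun a => gau om g a * cutb (4 * n2 a / δ ^ 2)) →
  ContDiff ℝ ∞ G ∧ HasCompactSupport G ∧
  1 - M * g ^ 2 ≤ ∫ a, G a ^ 2 ∧ ∫ a, G a ^ 2 ≤ 1 ∧
  ∫ a, (g ^ 2 / 2 * g2 G a + 1 / (2 * g ^ 2) * (∑ i, om i ^ 2 * a i ^ 2) * G a ^ 2) ≤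
    1 / 2 * (∑ i, om i) + M * g ^ 2 ∧
  ∫ a, g2 G a ≤ M / g ^ 2 ∧ ∫ a, n2 a * g2 G a ≤ M ∧
  ∫ a, n2 a * G a ^ 2 ≤ M * g ^ 2 ∧ ∫ a, nr a ^ 3 * G a ^ 2 ≤ M * g ^ 3 ∧
  (∀ i j, i ≠ j → ∫ a, a i * a j * G a ^ 2 = 0) ∧
  ∀ i, |(∫ a, a i ^ 2 * G a ^ 2) - g ^ 2 / (2 * om i)| ≤ M * g ^ 4

/-- The upper bound by trial functions, uniform version of `S_UPB`. -/
def S_UPBU : Prop := ∀ (P : Type) [Fintype P] [DecidableEq P], ∃ p : ℕ,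
  ∀ (v : (P → ℝ) → ℝ) (R : ℝ), Continuous v → 0 < R → ∃ C : ℝ, 1 ≤ C ∧
  ∀ (Q : Type) [Fintype Q] [DecidableEq Q] (L : Loc P Q) (δ Λ M : ℝ), L.v = v → Bd L Λ →
  Λ⁻¹ ≤ δ → δ ≤ L.r → M = C * Λ ^ p →
  ∀ g : ℝ, 0 < g → g ≤ M⁻¹ → ∀ ψ : (P → ℝ) → ℝ, ContDiff ℝ ∞ ψ → (∀ C, ψ C ≠ 0 → n2 C ≤ R ^ 2) →
  ContDiff ℝ ∞ (L.trial g δ ψ) ∧ (∀ x, L.trial g δ ψ x ≠ 0 → nx x < δ ^ 2) ∧
  (1 - M * g) * (∫ C, ψ C ^ 2) ≤ (∫ x, L.trial g δ ψ x ^ 2 * L.J x) ∧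
  (∫ x, L.trial g δ ψ x ^ 2 * L.J x) ≤ (∫ C, ψ C ^ 2) ∧
  ∫ x, (g ^ 2 / 2 * (1 + L.K * nx x) * (gC (L.trial g δ ψ) x + gA (L.trial g δ ψ) x) +
      1 / g ^ 2 * L.w x * L.trial g δ ψ x ^ 2) * L.J x ≤
    L.e0 * (∫ C, ψ C ^ 2) + L.E g * qf L.v ψ + M * g * ∫ C, (ψ C ^ 2 + g2 ψ C)

/-! ### traces of square roots -/

/-- The trace of the square root is Hoelder continuous. -/
def S_TSH : Prop := ∀ (ι : Type) [Fintype ι] [DecidableEq ι] (A B : Matrix ι ι ℝ) (η : ℝ),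
  A.PosSemidef → B.PosSemidef → 0 ≤ η → (∀ i j, |A i j - B i j| ≤ η) →
  tsq A ≤ tsq B + Fintype.card ι * Real.sqrt (Fintype.card ι * η)

/-- The trace of the square root is subadditive; `A Aᵀ` and `Aᵀ A` have the same trace. -/
def S_ROT : Prop := (∀ (ι : Type) [Fintype ι] [DecidableEq ι] (A B : Matrix ι ι ℝ),
    A.PosSemidef → B.PosSemidef → tsq (A + B) ≤ tsq A + tsq B) ∧
  ∀ (ι κ : Type) [Fintype ι] [DecidableEq ι] [Fintype κ] [DecidableEq κ] (A : Matrix ι κ ℝ),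
    tsq (A * Aᵀ) = tsq (Aᵀ * A)

/-- Quantitative comparison of traces of square roots. -/
def S_GAINU : Prop := ∃ K : ℝ, 0 < K ∧ ∀ (ι : Type) [Fintype ι] [DecidableEq ι] [Nonempty ι]
  (A B : Matrix ι ι ℝ) (c lam : ℝ) (n : ℕ), 0 < c → A.PosSemidef → B.PosSemidef →
  (c • (1 : Matrix ι ι ℝ) - A).PosSemidef → (c • (1 : Matrix ι ι ℝ) - B).PosSemidef →
  (∀ k : ℕ, trace ((1 - (1 / c) • A) ^ k) ≤ trace ((1 - (1 / c) • B) ^ k)) →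
  (∀ k : ℕ, (n : ℝ) ≤ trace ((1 - (1 / c) • B) ^ k)) → 0 < lam → lam ≤ c →
  (¬ ∃ φ : Fin n → ι → ℝ, (∀ i j, ∑ x, φ i x * φ j x = if i = j then 1 else 0) ∧
    ∀ i, ∑ x, φ i x * (A.mulVec (φ i)) x < lam) →
  tsq B + Real.sqrt lam / (K * Fintype.card ι) ≤ tsq A

/-- Covariant gradient. -/
def Nab {N n D l : ℕ} {G : Subgroup (UU N)} (B : LieBasis G n) (U : Link D l → G) :
    Matrix (Link D l × Fin n) ((Fin D → ZMod l) × Fin n) ℝ :=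
  fun p q => (cov B U p.1.2 - 1) (p.1.1, p.2) q

/-- Covariant Laplacian on the fields on links. -/
def lapD {N n D l : ℕ} [NeZero l] {G : Subgroup (UU N)} (B : LieBasis G n) (U : Link D l → G) :
    Matrix (Link D l × Fin n) (Link D l × Fin n) ℝ :=
  fun p q => if p.1.2 = q.1.2 then lapU B U (p.1.1, p.2) (q.1.1, q.2) else 0

/-- Approximate Hodge theory for all configurations. -/
def S_WEI : Prop := ∀ (N n D : ℕ) (G : Subgroup (UU N)), IsClosed (G : Set (UU N)) →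
  ∀ B : LieBasis G n, ∃ C : ℝ, 0 ≤ C ∧ ∀ (l : ℕ) [NeZero l] (U : Link D l → G)
  (p q : Link D l × Fin n),
  |hess B U p q + (Nab B U * (Nab B U)ᵀ) p q - lapD B U p q| ≤ C * Real.sqrt (magnetic U)

/-- The part of `tau` with the winding loops. -/
def tauW {N n D l : ℕ} {G : Subgroup (UU N)} [NeZero l] (B : LieBasis G n)
    (U : Link D l → G) : ℝ :=
  ∑ x : Fin D → ZMod l, ∑ i : Fin D, ∑ a : Fin n,
    fro2 (mt (wind U x i) * B.X a * (mt (wind U x i))ᴴ - B.X a)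

/-- Small eigenvalues of the covariant Laplacian force small adjoint holonomy. -/
def S_EVN : Prop := ∀ (N n D : ℕ) (G : Subgroup (UU N)), IsClosed (G : Set (UU N)) →
  ∀ B : LieBasis G n, ∃ (p : ℕ) (C : ℝ), 1 ≤ C ∧ ∀ (l : ℕ) [NeZero l] (U : Link D l → G)
  (lam : ℝ) (φ : Fin n → (Fin D → ZMod l) × Fin n → ℝ), 0 ≤ lam →
  (∀ i j, ∑ q, φ i q * φ j q = if i = j then 1 else 0) →
  (∀ i, ∑ q, φ i q * ((lapU B U).mulVec (φ i)) q ≤ lam) → tauW B U ≤ C * (l : ℝ) ^ p * lam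

/-- Lower bound of the local zero point energy. -/
def S_TSQU : Prop := ∀ (N n D : ℕ) (G : Subgroup (UU N)), IsClosed (G : Set (UU N)) →
  ∀ B : LieBasis G n, 2 ≤ D → 1 ≤ n → ∃ (p : ℕ) (C : ℝ), 1 ≤ C ∧ ∀ (l : ℕ) [NeZero l]
  (U : Link D l → G),
  ezero n D l + (C * (l : ℝ) ^ p)⁻¹ * Real.sqrt (min 1 (tauW B U)) -
    C * (l : ℝ) ^ p * magnetic U ^ (1 / 4 : ℝ) ≤ 1 / 2 * tsq (hess B U)

/-! ### the lattice -/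

/-- Poincare inequality on the lattice. -/
def S_PCR : Prop := ∀ D : ℕ, ∃ (p : ℕ) (C : ℝ), 1 ≤ C ∧ ∀ (l : ℕ) [NeZero l]
  (ζ : (Fin D → ZMod l) → ℝ), ∑ x, ζ x = 0 →
  ∑ x, ζ x ^ 2 ≤ C * (l : ℝ) ^ p * ∑ x, ∑ i, (ζ (x + unitv i) - ζ x) ^ 2

/-- Bounds of the frequencies. -/
def S_OMU : Prop := ∀ (N n D : ℕ) (G : Subgroup (UU N)), IsClosed (G : Set (UU N)) →
  ∀ B : LieBasis G n, ∃ (p : ℕ) (C : ℝ), 1 ≤ C ∧ ∀ (l : ℕ) [NeZero l] (dc : Dec B D l) i,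
  (C * (l : ℝ) ^ p)⁻¹ ≤ dc.om i ∧ dc.om i ≤ C * (l : ℝ) ^ p

/-- Elements with almost trivial adjoint action are almost central. -/
def S_ADCU : Prop := ∀ (N n : ℕ) (G : Subgroup (UU N)), IsClosed (G : Set (UU N)) →
  ConnectedSpace G → ∀ B : LieBasis G n, NoCentre B → ∃ C : ℝ, 0 < C ∧ ∀ w : G,
  ∃ z ∈ Subgroup.center G,
    ‖mt w - mt z‖ ^ 2 ≤ C * ∑ a, fro2 (mt w * B.X a * (mt w)ᴴ - B.X a)

/-- In the tree gauge configurations with small `tau` are close to a centre transformation of `1`. -/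
def S_NEARU : Prop := ∀ (N n D : ℕ) (G : Subgroup (UU N)), IsClosed (G : Set (UU N)) →
  ConnectedSpace G → ∀ B : LieBasis G n, NoCentre B → ∃ (p : ℕ) (C : ℝ), 1 ≤ C ∧
  ∀ (l : ℕ) [NeZero l] (U : Link D l → G), ∃ z : Fin D → G,
  (∀ i, z i ∈ Subgroup.center G) ∧
  ∀ e, ‖mt (tg U e) - mt (centre z (fun _ => 1) e)‖ ≤ C * (l : ℝ) ^ p * Real.sqrt (tau B U)

/-! ### the chart -/

section
variable {N n D l : ℕ} {G : Subgroup (UU N)} [NeZero l] {B : LieBasis G n}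

/-- The chart in the tree gauge has a smooth inverse on the ball of radius `r`, and its image
contains balls. -/
structure InvR (dc : Dec B D l) (r : ℝ) : Prop where
  pos : 0 < r
  inv : ∃ Ξ : (NT D l → Mt N) → (Fin D × Fin n → ℝ) × (Fin dc.M → ℝ), ContDiff ℝ ∞ Ξ ∧
    ∀ x, nx x < r ^ 2 → Ξ (fun e => mt (dc.th x e)) = x
  opn : ∀ ρ : ℝ, 0 < ρ → ρ ≤ r → IsOpen (dc.th '' {x | nx x < ρ ^ 2})
  bal : ∀ ρ : ℝ, 0 < ρ → ρ ≤ r → ∀ V : NT D l → G, (∀ e, ‖mt (V e) - 1‖ < r * ρ) →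
    V ∈ dc.th '' {x | nx x < ρ ^ 2}

/-- Uniqueness of the coordinates on the ball of radius `r`. -/
structure UniR (dc : Dec B D l) (r : ℝ) : Prop where
  pos : 0 < r
  uniq : ∀ (γ : (Fin D → ZMod l) → G) (z : Fin D → G)
    (x y : (Fin D × Fin n → ℝ) × (Fin dc.M → ℝ)), (∀ i, z i ∈ Subgroup.center G) →
    nx x < r ^ 2 → nx y < r ^ 2 → dc.ch x = gauge γ (centre z (dc.ch y)) →
    (∀ i, z i = 1) ∧ x = dc.sg (γ 0) y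
  opn : ∀ ρ : ℝ, 0 < ρ → ρ ≤ r → IsOpen {U : Link D l → G | Orb dc ρ U}

/-- Haar measure in the chart in the tree gauge. -/
structure HmR [MeasurableSpace G] (μ : Measure G) (dc : Dec B D l) (r : ℝ) : Prop where
  pos : 0 < r
  ex : ∃ J : (Fin D × Fin n → ℝ) × (Fin dc.M → ℝ) → ℝ, ContDiff ℝ ∞ J ∧ (∀ x, 0 < J x) ∧
    (∀ x, nx x < r ^ 2 → gC J x + gA J x ≤ (r⁻¹ * J x) ^ 2) ∧
    ∀ ρ : ℝ, 0 < ρ → ρ ≤ r → ∀ Φ : (NT D l → G) → ℝ, Continuous Φ →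
    ∫ V in dc.th '' {x | nx x < ρ ^ 2}, Φ V ∂(Measure.pi fun _ : NT D l => μ) =
      ∫ x in {x | nx x < ρ ^ 2}, Φ (dc.th x) * J x

/-- Integration of invariant functions in the chart. -/
structure ChiR [MeasurableSpace G] (μ : Measure G) (dc : Dec B D l) (r : ℝ) : Prop where
  pos : 0 < r
  ex : ∃ J : (Fin D × Fin n → ℝ) × (Fin dc.M → ℝ) → ℝ, ContDiff ℝ ∞ J ∧ (∀ x, 0 < J x) ∧
    (∀ h x, J (dc.sg h x) = J x) ∧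
    (∀ x, nx x < r ^ 2 → gC J x + gA J x ≤ (r⁻¹ * J x) ^ 2) ∧
    ∀ ρ : ℝ, 0 < ρ → ρ ≤ r → ∀ Φ : (Link D l → G) → ℝ, Continuous Φ → GaugeInv Φ →
    CentreInv Φ → (∀ U, Φ U ≠ 0 → Orb dc ρ U) →
    ∫ U, Φ U ∂(Measure.pi fun _ : Link D l => μ) =
      ∫ x in {x | nx x < ρ ^ 2}, Φ (dc.ch x) * J x

end

/-- Quantitative inverse function theorem. -/
def S_QIF : Prop := ∃ (p : ℕ) (C : ℝ), 1 ≤ C ∧ ∀ (P Q S : Type) [Fintype P] [Fintype Q]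
  [Fintype S] (u : (P → ℝ) × (Q → ℝ) → (S → ℝ)) (Λ r : ℝ), 1 ≤ Λ →
  (Fintype.card P : ℝ) ≤ Λ → (Fintype.card Q : ℝ) ≤ Λ →
  Fintype.card P + Fintype.card Q = Fintype.card S → ContDiff ℝ ∞ u → u 0 = 0 →
  (∀ v, nx v ≤ Λ ^ 2 * n2 (fderiv ℝ u 0 v)) →
  (∀ x, nx x ≤ Λ⁻¹ ^ 2 → ‖iteratedFDeriv ℝ 2 u x‖ ≤ Λ) → r = (C * Λ ^ p)⁻¹ →
  (∀ x y, nx x < r ^ 2 → nx y < r ^ 2 → nx (x - y) ≤ 4 * Λ ^ 2 * n2 (u x - u y)) ∧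
  (∀ x, nx x < r ^ 2 → ∀ v, nx v ≤ 4 * Λ ^ 2 * n2 (fderiv ℝ u x v)) ∧
  (∀ ρ : ℝ, 0 < ρ → ρ ≤ r → IsOpen (u '' {x | nx x < ρ ^ 2}) ∧
    ∀ y : S → ℝ, n2 y < (r * ρ) ^ 2 → y ∈ u '' {x | nx x < ρ ^ 2}) ∧
  ∃ Ξ : (S → ℝ) → (P → ℝ) × (Q → ℝ), ContDiff ℝ ∞ Ξ ∧ ∀ x, nx x < r ^ 2 → Ξ (u x) = x

/-- Bounds of the derivatives of the chart in the tree gauge. -/
def S_THDU : Prop := ∀ (N n D : ℕ) (G : Subgroup (UU N)), IsClosed (G : Set (UU N)) →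
  ∀ B : LieBasis G n, ∃ (p : ℕ) (C : ℝ), 1 ≤ C ∧ ∀ (l : ℕ) [NeZero l] (dc : Dec B D l),
  (∀ v, nx v ≤ ∑ e, ‖fderiv ℝ (fun x (e : NT D l) => mt (dc.th x e)) 0 v e‖ ^ 2) ∧
  ∀ x, nx x ≤ 1 →
    ‖iteratedFDeriv ℝ 1 (fun x (e : NT D l) => mt (dc.th x e)) x‖ ≤ C * (l : ℝ) ^ p ∧
    ‖iteratedFDeriv ℝ 2 (fun x (e : NT D l) => mt (dc.th x e)) x‖ ≤ C * (l : ℝ) ^ p

/-- The radius of the chart. -/
def S_INVU : Prop := ∀ (N n D : ℕ) (G : Subgroup (UU N)), IsClosed (G : Set (UU N)) →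
  ∀ B : LieBasis G n, ∃ (p : ℕ) (C : ℝ), 1 ≤ C ∧ ∀ (l : ℕ) [NeZero l] (dc : Dec B D l),
  InvR dc (C * (l : ℝ) ^ p)⁻¹

/-- Haar measure in the chart. -/
def S_HMU : Prop := ∀ (N n D : ℕ) (G : Subgroup (UU N)), IsClosed (G : Set (UU N)) →
  ∀ (B : LieBasis G n) [MeasurableSpace G] [BorelSpace G] (μ : Measure G)
  [IsProbabilityMeasure μ] [μ.IsHaarMeasure], ∃ (p : ℕ) (C : ℝ), 1 ≤ C ∧
  ∀ (l : ℕ) [NeZero l] (dc : Dec B D l), HmR μ dc (C * (l : ℝ) ^ p)⁻¹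

/-- Uniqueness of the coordinates. -/
def S_UNIQU : Prop := ∀ (N n D : ℕ) (G : Subgroup (UU N)), IsClosed (G : Set (UU N)) →
  ∀ B : LieBasis G n, NoCentre B → ∃ (p : ℕ) (C : ℝ), 1 ≤ C ∧
  ∀ (l : ℕ) [NeZero l] (dc : Dec B D l), UniR dc (C * (l : ℝ) ^ p)⁻¹

/-- Integration in the chart. -/
def S_CHIU : Prop := ∀ (N n D : ℕ) (G : Subgroup (UU N)), IsClosed (G : Set (UU N)) →
  ∀ (B : LieBasis G n) [MeasurableSpace G] [BorelSpace G] (μ : Measure G)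
  [IsProbabilityMeasure μ] [μ.IsHaarMeasure], NoCentre B → ∃ (p : ℕ) (C : ℝ), 1 ≤ C ∧
  ∀ (l : ℕ) [NeZero l] (dc : Dec B D l), ChiR μ dc (C * (l : ℝ) ^ p)⁻¹

/-- The sets where `tau` is small. -/
def S_TAUOU : Prop := ∀ (N n D : ℕ) (G : Subgroup (UU N)), IsClosed (G : Set (UU N)) →
  ConnectedSpace G → ∀ B : LieBasis G n, NoCentre B → ∃ (p : ℕ) (C : ℝ), 1 ≤ C ∧
  ∀ (l : ℕ) [NeZero l] (dc : Dec B D l) (ρ : ℝ), 0 < ρ → ρ ≤ (C * (l : ℝ) ^ p)⁻¹ →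
  ∀ U : Link D l → G, tau B U < (ρ * (C * (l : ℝ) ^ p)⁻¹) ^ 2 → Orb dc ρ U

/-- Lifting functions from the chart. -/
def S_LIFTU : Prop := ∀ (N n D : ℕ) (G : Subgroup (UU N)), IsClosed (G : Set (UU N)) →
  ∀ B : LieBasis G n, NoCentre B → ∀ (l : ℕ) [NeZero l] (dc : Dec B D l) (r : ℝ),
  InvR dc r → UniR dc r → ∀ ρ : ℝ, 0 < ρ → ρ < r →
  ∀ f : (Fin D × Fin n → ℝ) × (Fin dc.M → ℝ) → ℝ,
    ContDiff ℝ ∞ f → (∀ x, f x ≠ 0 → nx x < ρ ^ 2) → (∀ h x, f (dc.sg h x) = f x) →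
    (∃ F : (Link D l → G) → ℝ, IsSmooth F ∧ GaugeInv F ∧ CentreInv F ∧
      (∀ x, nx x < r ^ 2 → F (dc.ch x) = f x) ∧ ∀ U, F U ≠ 0 → Orb dc ρ U) ∧
    ∃ F : (Link D l → G) → ℝ, IsSmooth F ∧ GaugeInv F ∧
      (∀ x, nx x < r ^ 2 → F (dc.ch x) = f x) ∧ ∀ U, F U ≠ 0 → Orb1 dc ρ U

/-- The kinetic energy in the chart. -/
def S_KINU : Prop := ∀ (N n D : ℕ) (G : Subgroup (UU N)), IsClosed (G : Set (UU N)) →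
  ∀ B : LieBasis G n, ∃ (p : ℕ) (C : ℝ), 1 ≤ C ∧ ∀ (l : ℕ) [NeZero l] (dc : Dec B D l)
  (F : (Link D l → G) → ℝ), IsSmooth F → GaugeInv F → ∀ x, nx x < 1 →
  |(∑ e, ∑ a, dlink B e a F (dc.ch x) ^ 2) -
    (gC (fun z => F (dc.ch z)) x + gA (fun z => F (dc.ch z)) x)| ≤
    C * (l : ℝ) ^ p * nx x * ∑ e, ∑ a, dlink B e a F (dc.ch x) ^ 2

/-- The magnetic energy on the constants. -/
def S_TAY0U : Prop := ∀ (N n D : ℕ) (G : Subgroup (UU N)), IsClosed (G : Set (UU N)) →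
  ∀ B : LieBasis G n, ∃ (C : ℝ), 1 ≤ C ∧ ∀ (l : ℕ) [NeZero l] (dc : Dec B D l)
  (x : Fin D × Fin n → ℝ), n2 x ≤ C⁻¹ ^ 2 →
  |magnetic (dc.ch (x, 0)) - ((l : ℝ) ^ D)⁻¹ * vred B D x| ≤ C * nr x * vred B D x

/-- Bounds of the derivatives of the magnetic energy. -/
def S_DMAG : Prop := ∀ (N n D : ℕ) (G : Subgroup (UU N)), IsClosed (G : Set (UU N)) →
  ∀ B : LieBasis G n, ∃ (p : ℕ) (C : ℝ), 1 ≤ C ∧ ∀ (l : ℕ) [NeZero l],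
  ContDiff ℝ ∞ (fun y : Link D l × Fin n → ℝ => magnetic (eU B y)) ∧
  ∀ (k : ℕ) (y : Link D l × Fin n → ℝ), k ≤ 4 → (∀ q, |y q| ≤ 1) →
    ‖iteratedFDeriv ℝ k (fun y : Link D l × Fin n → ℝ => magnetic (eU B y)) y‖ ≤
      C * (l : ℝ) ^ p

/-- Taylor expansion of the magnetic energy in the chart. -/
def S_TAYLU : Prop := ∀ (N n D : ℕ) (G : Subgroup (UU N)), IsClosed (G : Set (UU N)) →
  ∀ B : LieBasis G n, NoCentre B → ∃ (p : ℕ) (C : ℝ), 1 ≤ C ∧ ∀ (l : ℕ) [NeZero l]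
  (dc : Dec B D l) (M : ℝ), M = C * (l : ℝ) ^ p →
  ∃ A : (Fin D × Fin n → ℝ) →ₗ[ℝ] Matrix (Fin dc.M) (Fin dc.M) ℝ,
  (∀ C, (A C).IsSymm) ∧ (∀ C, ∑ i, A C i i / dc.om i = 0) ∧ (∀ C i j, |A C i j| ≤ M * nr C) ∧
  ∀ x, nx x ≤ M⁻¹ ^ 2 → |magnetic (dc.ch x) - ((l : ℝ) ^ D)⁻¹ * vred B D x.1 -
    1 / 2 * ∑ i, dc.om i ^ 2 * x.2 i ^ 2 - 1 / 2 * ∑ i, x.2 i * ((A x.1).mulVec x.2) i| ≤
      M * (nr x.1 * vred B D x.1 + n2 x.1 * n2 x.2 + nr x.2 ^ 3)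

/-- Existence of the chart with all its properties. -/
def S_CHARTU : Prop := ∀ (N n D : ℕ) (G : Subgroup (UU N)), IsClosed (G : Set (UU N)) →
  ∀ (B : LieBasis G n) [MeasurableSpace G] [BorelSpace G] (μ : Measure G)
  [IsProbabilityMeasure μ] [μ.IsHaarMeasure], NoCentre B → 2 ≤ D →
  ∃ (p : ℕ) (C κ0 : ℝ), 1 ≤ C ∧ 0 < κ0 ∧ ∀ (l : ℕ) [NeZero l] (dc : Dec B D l),
  ∃ L : Loc (Fin D × Fin n) (Fin dc.M), Chart μ dc L ∧ Bd L (C * (l : ℝ) ^ p) ∧ κ0 ≤ L.κ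

/-! ### localisation -/

/-- Lower bound of the energy for functions with small support. -/
def S_LOCVU : Prop := ∀ (N n D : ℕ) (G : Subgroup (UU N)), IsClosed (G : Set (UU N)) →
  ∀ (B : LieBasis G n) [MeasurableSpace G] [BorelSpace G]
  (μ : Measure G) [IsProbabilityMeasure μ] [μ.IsHaarMeasure], ∃ (p : ℕ) (C : ℝ), 1 ≤ C ∧
  ∀ (l : ℕ) [NeZero l] (M : ℝ), M = C * (l : ℝ) ^ p →
  ∀ g : ℝ, 0 < g → g ≤ M⁻¹ → ∀ (V : Link D l → G) (F : (Link D l → G) → ℝ), IsSmooth F →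
  (∀ U, F U ≠ 0 → ∀ e, ‖mt (U e) - mt (V e)‖ ≤ g ^ (3 / 5 : ℝ)) →
  (1 / 2 * tsq (hess B V) - M * g ^ (1 / 5 : ℝ)) *
    (∫ U, F U ^ 2 ∂(Measure.pi fun _ : Link D l => μ)) ≤ energy B μ g F

/-- The matrix `hess` is Lipschitz continuous. -/
def S_HESL : Prop := ∀ (N n D : ℕ) (G : Subgroup (UU N)), IsClosed (G : Set (UU N)) →
  ∀ B : LieBasis G n, ∃ (p : ℕ) (C : ℝ), 1 ≤ C ∧ ∀ (l : ℕ) [NeZero l] (U V : Link D l → G)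
  (s : ℝ), (∀ e, ‖mt (U e) - mt (V e)‖ ≤ s) → ∀ i j,
  |hess B U i j - hess B V i j| ≤ C * (l : ℝ) ^ p * s

/-- Continuous localisation. -/
def S_LOCU : Prop := ∀ (N n D : ℕ) (G : Subgroup (UU N)), IsClosed (G : Set (UU N)) →
  ∀ (B : LieBasis G n) [MeasurableSpace G] [BorelSpace G]
  (μ : Measure G) [IsProbabilityMeasure μ] [μ.IsHaarMeasure], ∃ (p : ℕ) (C : ℝ), 1 ≤ C ∧
  ∀ (l : ℕ) [NeZero l] (M : ℝ), M = C * (l : ℝ) ^ p →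
  ∀ g : ℝ, 0 < g → g ≤ M⁻¹ → ∀ F : (Link D l → G) → ℝ, IsSmooth F →
  ∫ U, (1 / 2 * tsq (hess B U) - M * g ^ (1 / 5 : ℝ)) * F U ^ 2
    ∂(Measure.pi fun _ : Link D l => μ) ≤ energy B μ g F

/-- The gradient of `tau`. -/
def S_GRADT : Prop := ∀ (N n D : ℕ) (G : Subgroup (UU N)), IsClosed (G : Set (UU N)) →
  ∀ B : LieBasis G n, ∃ (p : ℕ) (C : ℝ), 1 ≤ C ∧ ∀ (l : ℕ) [NeZero l] (U : Link D l → G),
  ∑ e, ∑ a, dlink B e a (tau B) U ^ 2 ≤ C * (l : ℝ) ^ p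

/-- The angle of the localisation. -/
def thn (δ t : ℝ) : ℝ := Real.pi / 2 * Real.smoothTransition (2 * t / δ - 1)

/-- Localisation formula with the function `tau`. -/
def S_IMSU : Prop := ∀ (N n D : ℕ) (G : Subgroup (UU N)), IsClosed (G : Set (UU N)) →
  ∀ (B : LieBasis G n) [MeasurableSpace G] [BorelSpace G]
  (μ : Measure G) [IsProbabilityMeasure μ] [μ.IsHaarMeasure], ∃ (p : ℕ) (C : ℝ), 1 ≤ C ∧
  ∀ (l : ℕ) [NeZero l] (δ : ℝ), 0 < δ → δ ≤ 1 →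
  IsSmooth (fun U : Link D l → G => Real.cos (thn δ (tau B U))) ∧
  IsSmooth (fun U : Link D l → G => Real.sin (thn δ (tau B U))) ∧
  ∀ (g : ℝ), 0 < g → ∀ F : (Link D l → G) → ℝ, IsSmooth F →
  energy B μ g (fun U => Real.cos (thn δ (tau B U)) * F U) +
    energy B μ g (fun U => Real.sin (thn δ (tau B U)) * F U) ≤
    energy B μ g F + C * (l : ℝ) ^ p * δ⁻¹ ^ 2 * g ^ 2 *
      ∫ U, F U ^ 2 ∂(Measure.pi fun _ : Link D l => μ)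

/-- Lower bound away from the torons. -/
def S_AWAYU : Prop := ∀ (N n D : ℕ) (G : Subgroup (UU N)), IsClosed (G : Set (UU N)) →
  2 ≤ D → 1 ≤ n → ∀ (B : LieBasis G n) [MeasurableSpace G] [BorelSpace G]
  (μ : Measure G) [IsProbabilityMeasure μ] [μ.IsHaarMeasure], ∃ (p : ℕ) (C : ℝ), 1 ≤ C ∧
  ∀ (l : ℕ) [NeZero l] (δ Λ M : ℝ), (l : ℝ) ≤ Λ → Λ⁻¹ ≤ δ → δ ≤ 1 → M = C * Λ ^ p →
  ∀ g : ℝ, 0 < g → g ≤ M⁻¹ → ∀ F : (Link D l → G) → ℝ, IsSmooth F →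
  (∀ U, F U ≠ 0 → δ ≤ tau B U) →
  (1 / 2 * tsq (hess B (fun _ : Link D l => (1 : G))) + M⁻¹) *
    (∫ U, F U ^ 2 ∂(Measure.pi fun _ : Link D l => μ)) ≤ energy B μ g F

/-! ### the main bounds -/

/-- The main lower bound. -/
def S_KEYU : Prop := ∀ (N n D : ℕ) (G : Subgroup (UU N)),
  IsClosed (G : Set (UU N)) → ConnectedSpace G → ∀ (B : LieBasis G n) [MeasurableSpace G]
  [BorelSpace G] (μ : Measure G) [IsProbabilityMeasure μ] [μ.IsHaarMeasure], NoCentre B →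
  2 ≤ D → 1 ≤ n → ∃ p : ℕ, ∀ ε κ0 : ℝ, 0 < ε → 0 < κ0 → ∃ C : ℝ, 1 ≤ C ∧
  ∀ (l : ℕ) [NeZero l] (dc : Dec B D l) (L : Loc (Fin D × Fin n) (Fin dc.M)) (Λ M : ℝ),
  Chart μ dc L → Bd L Λ → κ0 ≤ L.κ → (l : ℝ) ≤ Λ → M = C * Λ ^ p →
  ∃ χ : (Link D l → G) → ℝ,
  ∀ g : ℝ, 0 < g → g ≤ M⁻¹ → ∀ F : (Link D l → G) → ℝ, IsSmooth F → GaugeInv F → CentreInv F →
  CI (AdS B D) (L.T g (dc.pull L.r fun U => χ U * F U)) ∧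
  HasCompactSupport (dc.pull L.r fun U => χ U * F U) ∧
  Continuous (dc.pull L.r fun U => χ U * F U) ∧
  ∫ C, L.T g (dc.pull L.r fun U => χ U * F U) C ^ 2 ≤
    ∫ U, F U ^ 2 ∂(Measure.pi fun _ : Link D l => μ) ∧
  (L.e0 - M * g) * (∫ U, F U ^ 2 ∂(Measure.pi fun _ : Link D l => μ)) +
    (1 - ε) * (∫ C, (g ^ 2 / 2 * g2 (L.T g (dc.pull L.r fun U => χ U * F U)) C +
      L.c4 / g ^ 2 * L.v C * L.T g (dc.pull L.r fun U => χ U * F U) C ^ 2)) +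
    M⁻¹ * ((∫ U, F U ^ 2 ∂(Measure.pi fun _ : Link D l => μ)) -
      ∫ C, L.T g (dc.pull L.r fun U => χ U * F U) C ^ 2) ≤ energy B μ g F

/-- The main lower bound on all gauge invariant functions. -/
def S_GKEYU : Prop := ∀ (N n D : ℕ) (G : Subgroup (UU N)),
  IsClosed (G : Set (UU N)) → ConnectedSpace G → ∀ (B : LieBasis G n) [MeasurableSpace G]
  [BorelSpace G] (μ : Measure G) [IsProbabilityMeasure μ] [μ.IsHaarMeasure]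
  [Fintype (Subgroup.center G)], NoCentre B →
  2 ≤ D → 1 ≤ n → ∃ p : ℕ, ∀ ε κ0 : ℝ, 0 < ε → 0 < κ0 → ∃ C : ℝ, 1 ≤ C ∧
  ∀ (l : ℕ) [NeZero l] (dc : Dec B D l) (L : Loc (Fin D × Fin n) (Fin dc.M)) (Λ M : ℝ),
  Chart μ dc L → Bd L Λ → κ0 ≤ L.κ → (l : ℝ) ≤ Λ → M = C * Λ ^ p →
  ∃ χ : (Link D l → G) → ℝ,
  ∀ g : ℝ, 0 < g → g ≤ M⁻¹ → ∀ F : (Link D l → G) → ℝ, IsSmooth F → GaugeInv F →
  ∀ t : (Fin D → Subgroup.center G) → (Fin D × Fin n → ℝ) → ℝ,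
  (∀ z, t z = fun C => (Real.sqrt ((Fintype.card (Subgroup.center G) : ℝ) ^ D))⁻¹ *
    L.T g (dc.pull L.r fun U => χ U * F (centre (fun i => (z i : G)) U)) C) →
  (∀ z, CI (AdS B D) (t z)) ∧
  (∀ z : Fin D → Subgroup.center G,
    HasCompactSupport (dc.pull L.r fun U => χ U * F (centre (fun i => (z i : G)) U))) ∧
  (∀ z : Fin D → Subgroup.center G,
    Continuous (dc.pull L.r fun U => χ U * F (centre (fun i => (z i : G)) U))) ∧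
  ∑ z, ∫ C, t z C ^ 2 ≤ ∫ U, F U ^ 2 ∂(Measure.pi fun _ : Link D l => μ) ∧
  (L.e0 - M * g) * (∫ U, F U ^ 2 ∂(Measure.pi fun _ : Link D l => μ)) +
    (1 - ε) * (∑ z, ∫ C, (g ^ 2 / 2 * g2 (t z) C + L.c4 / g ^ 2 * L.v C * t z C ^ 2)) +
    M⁻¹ * ((∫ U, F U ^ 2 ∂(Measure.pi fun _ : Link D l => μ)) - ∑ z, ∫ C, t z C ^ 2) ≤
      energy B μ g F

/-- Lower bound of the levels. -/
def S_LOWU : Prop := ∀ (N n D : ℕ) (G : Subgroup (UU N)),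
  IsClosed (G : Set (UU N)) → ConnectedSpace G → ∀ (B : LieBasis G n) [MeasurableSpace G]
  [BorelSpace G] (μ : Measure G) [IsProbabilityMeasure μ] [μ.IsHaarMeasure], NoCentre B →
  2 ≤ D → 1 ≤ n → ∃ p : ℕ, ∀ (k : ℕ) (ε : ℝ), 0 < ε → ∃ C : ℝ, 1 ≤ C ∧
  ∀ (l : ℕ) [NeZero l] (g : ℝ), 0 < g → C * (l : ℝ) ^ p * g ≤ 1 →
  ezero n D l + g ^ (2 / 3 : ℝ) * (l : ℝ) ^ (-(D : ℝ) / 3) *
    (lev (vred B D) (AdS B D) k - ε) ≤ level D l B μ g k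

/-- Upper bound of the levels. -/
def S_UPPU : Prop := ∀ (N n D : ℕ) (G : Subgroup (UU N)),
  IsClosed (G : Set (UU N)) → ConnectedSpace G → ∀ (B : LieBasis G n) [MeasurableSpace G]
  [BorelSpace G] (μ : Measure G) [IsProbabilityMeasure μ] [μ.IsHaarMeasure], NoCentre B →
  2 ≤ D → 1 ≤ n → ∃ p : ℕ, ∀ (k : ℕ) (ε : ℝ), 0 < ε → ∃ C : ℝ, 1 ≤ C ∧
  ∀ (l : ℕ) [NeZero l] (g : ℝ), 0 < g → C * (l : ℝ) ^ p * g ≤ 1 →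
  level D l B μ g k ≤ ezero n D l + g ^ (2 / 3 : ℝ) * (l : ℝ) ^ (-(D : ℝ) / 3) *
    (lev (vred B D) (AdS B D) k + ε)

/-- Lower bound of the levels on all gauge invariant functions. -/
def S_GLOWU : Prop := ∀ (N n D : ℕ) (G : Subgroup (UU N)),
  IsClosed (G : Set (UU N)) → ConnectedSpace G → ∀ (B : LieBasis G n) [MeasurableSpace G]
  [BorelSpace G] (μ : Measure G) [IsProbabilityMeasure μ] [μ.IsHaarMeasure], NoCentre B →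
  2 ≤ D → 1 ≤ n → ∃ p : ℕ, ∀ (k : ℕ) (ε : ℝ), 0 < ε → ∃ C : ℝ, 1 ≤ C ∧
  ∀ (l : ℕ) [NeZero l] (g : ℝ), 0 < g → C * (l : ℝ) ^ p * g ≤ 1 →
  ezero n D l + g ^ (2 / 3 : ℝ) * (l : ℝ) ^ (-(D : ℝ) / 3) *
    (lev (vred B D) (AdS B D) (k / Nat.card (Subgroup.center G) ^ D) - ε) ≤
      glevel D l B μ g k

/-- Upper bound of the levels on all gauge invariant functions. -/
def S_GUPPU : Prop := ∀ (N n D : ℕ) (G : Subgroup (UU N)),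
  IsClosed (G : Set (UU N)) → ConnectedSpace G → ∀ (B : LieBasis G n) [MeasurableSpace G]
  [BorelSpace G] (μ : Measure G) [IsProbabilityMeasure μ] [μ.IsHaarMeasure], NoCentre B →
  2 ≤ D → 1 ≤ n → ∃ p : ℕ, ∀ (k : ℕ) (ε : ℝ), 0 < ε → ∃ C : ℝ, 1 ≤ C ∧
  ∀ (l : ℕ) [NeZero l] (g : ℝ), 0 < g → C * (l : ℝ) ^ p * g ≤ 1 →
  glevel D l B μ g k ≤ ezero n D l + g ^ (2 / 3 : ℝ) * (l : ℝ) ^ (-(D : ℝ) / 3) *
    (lev (vred B D) (AdS B D) (k / Nat.card (Subgroup.center G) ^ D) + ε)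

end

end Pool.Agent.Q77.LU
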