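import Mathlib
import Pool.Agent.Q77.LU.StmU
import Pool.Agent.Q77.LU.StmL

/-!
# Project LU, uniform version: exponentially small splitting, and the final statement
-/

set_option autoImplicit false

namespace Pool.Agent.Q77.LU

open MeasureTheory Matrix Set Filter Topology
open scoped ContDiff Matrix.Norms.Frobenius

noncomputable section

/-- Exponential decay of almost minimal functions away from the torons, uniform version of
`S_AGM`. -/
def S_AGMU : Prop := ∀ (N n D : ℕ) (G : Subgroup (UU N)),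
  IsClosed (G : Set (UU N)) → ConnectedSpace G → ∀ (B : LieBasis G n) [MeasurableSpace G]
  [BorelSpace G] (μ : Measure G) [IsProbabilityMeasure μ] [μ.IsHaarMeasure], NoCentre B →
  2 ≤ D → 1 ≤ n → ∃ (p : ℕ) (C : ℝ), 1 ≤ C ∧ ∀ (l : ℕ) [NeZero l] (δ Λ M : ℝ),
  (l : ℝ) ≤ Λ → Λ⁻¹ ≤ δ → δ ≤ 1 → M = C * Λ ^ p → ∀ g : ℝ, 0 < g → g ≤ M⁻¹ →
  ∃ d : ℝ, 0 < d ∧ ∀ F : (Link D l → G) → ℝ, IsSmooth F → GaugeInv F →
  ∫ U, F U ^ 2 ∂(Measure.pi fun _ : Link D l => μ) = 1 →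
  energy B μ g F ≤ glevel D l B μ g 0 + d →
  ∫ U in {U | δ ≤ tau B U}, F U ^ 2 ∂(Measure.pi fun _ : Link D l => μ) ≤
    M * Real.exp (-M⁻¹ / g)

/-- The splitting of the lowest `|Z|^D` levels is exponentially small, uniform version of
`S_FLUX`. -/
def S_FLUXU : Prop := ∀ (N n D : ℕ) (G : Subgroup (UU N)),
  IsClosed (G : Set (UU N)) → ConnectedSpace G → ∀ (B : LieBasis G n) [MeasurableSpace G]
  [BorelSpace G] (μ : Measure G) [IsProbabilityMeasure μ] [μ.IsHaarMeasure], NoCentre B →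
  2 ≤ D → 1 ≤ n → ∃ (p : ℕ) (C : ℝ), 1 ≤ C ∧ ∀ (l : ℕ) [NeZero l] (g : ℝ), 0 < g →
  C * (l : ℝ) ^ p * g ≤ 1 →
  glevel D l B μ g (Nat.card (Subgroup.center G) ^ D - 1) ≤
    glevel D l B μ g 0 + Real.exp (-(C * (l : ℝ) ^ p)⁻¹ / g)

end

end Pool.Agent.Q77.LU
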