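import Mathlib
import Pool.Agent.Q77.LU.StmV

/-!
# Project LU, uniform version: the final deduction
-/

set_option autoImplicit false

namespace Pool.Agent.Q77.LU

open MeasureTheory Matrix Set Filter Topology
open scoped ContDiff Matrix.Norms.Frobenius

noncomputable section

/-- The condition `C l ^ p g ≤ 1` follows from `l ≤ g ^ (-1 / (P + 1))` for small `g`. -/
theorem cond_of (P p : ℕ) (C : ℝ) (hp : p ≤ P) (hC : 1 ≤ C) :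
    ∃ g0 : ℝ, 0 < g0 ∧ ∀ (l : ℕ) [NeZero l] (g : ℝ), 0 < g → g < g0 →
      (l : ℝ) ≤ g ^ (-(1 / ((P : ℝ) + 1))) → C * (l : ℝ) ^ p * g ≤ 1 := by
  have hP : (0:ℝ) < (P : ℝ) + 1 := by positivity
  refine ⟨C⁻¹ ^ ((P : ℝ) + 1), by positivity, ?_⟩
  intro l _ g hg hgg hl
  have hl1 : (1:ℝ) ≤ l := by exact_mod_cast Nat.one_le_iff_ne_zero.2 (NeZero.ne l)
  have h1 : (l : ℝ) ^ p ≤ (l : ℝ) ^ P := pow_le_pow_right₀ hl1 hp
  have h2 : (l : ℝ) ^ P ≤ (g ^ (-(1 / ((P : ℝ) + 1)))) ^ P :=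
    pow_le_pow_left₀ (by linarith) hl P
  have h3 : (g ^ (-(1 / ((P : ℝ) + 1)))) ^ P * g = g ^ (1 / ((P : ℝ) + 1)) := by
    rw [← Real.rpow_natCast, ← Real.rpow_mul hg.le]
    conv_lhs => rw [show g ^ (-(1 / ((P : ℝ) + 1)) * (P : ℝ)) * g =
      g ^ (-(1 / ((P : ℝ) + 1)) * (P : ℝ)) * g ^ (1 : ℝ) by rw [Real.rpow_one]]
    rw [← Real.rpow_add hg]
    congr 1
    field_simp
    ring
  have h4 : g ^ (1 / ((P : ℝ) + 1)) ≤ C⁻¹ := by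
    have h5 : g ^ (1 / ((P : ℝ) + 1)) ≤ (C⁻¹ ^ ((P : ℝ) + 1)) ^ (1 / ((P : ℝ) + 1)) :=
      Real.rpow_le_rpow hg.le hgg.le (by positivity)
    rwa [← Real.rpow_mul (by positivity), mul_one_div_cancel hP.ne', Real.rpow_one] at h5
  calc C * (l : ℝ) ^ p * g ≤ C * (g ^ (-(1 / ((P : ℝ) + 1)))) ^ P * g := by
        gcongr
        exact h1.trans h2
    _ = C * ((g ^ (-(1 / ((P : ℝ) + 1)))) ^ P * g) := by ring
    _ ≤ C * C⁻¹ := by rw [h3]; gcongr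
    _ = 1 := mul_inv_cancel₀ (by positivity)

/-- The final statement, uniform version. -/
def S_FINU : Prop := ∀ (N n D : ℕ) (G : Subgroup (UU N)), IsClosed (G : Set (UU N)) →
  ConnectedSpace G → ∀ (B : LieBasis G n) [MeasurableSpace G] [BorelSpace G] (μ : Measure G)
  [IsProbabilityMeasure μ] [μ.IsHaarMeasure], NoCentre B → 2 ≤ D → 1 ≤ n →
  (0 < lev (vred B D) (AdS B D) 0 ∧ lev (vred B D) (AdS B D) 0 < lev (vred B D) (AdS B D) 1 ∧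
    Monotone (lev (vred B D) (AdS B D)) ∧ Tendsto (lev (vred B D) (AdS B D)) atTop atTop) ∧
  Finite (Subgroup.center G) ∧
  ∃ κ : ℝ, 0 < κ ∧
    (∀ (k : ℕ) (ε : ℝ), 0 < ε → ∃ g0 : ℝ, 0 < g0 ∧ ∀ (l : ℕ) [NeZero l] (g : ℝ), 0 < g →
      g < g0 → (l : ℝ) ≤ g ^ (-κ) →
      |level D l B μ g k - ezero n D l - g ^ (2 / 3 : ℝ) * (l : ℝ) ^ (-(D : ℝ) / 3) *
        lev (vred B D) (AdS B D) k| ≤ ε * (g ^ (2 / 3 : ℝ) * (l : ℝ) ^ (-(D : ℝ) / 3))) ∧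
    (∀ (k : ℕ) (ε : ℝ), 0 < ε → ∃ g0 : ℝ, 0 < g0 ∧ ∀ (l : ℕ) [NeZero l] (g : ℝ), 0 < g →
      g < g0 → (l : ℝ) ≤ g ^ (-κ) →
      |glevel D l B μ g k - ezero n D l - g ^ (2 / 3 : ℝ) * (l : ℝ) ^ (-(D : ℝ) / 3) *
        lev (vred B D) (AdS B D) (k / Nat.card (Subgroup.center G) ^ D)| ≤
        ε * (g ^ (2 / 3 : ℝ) * (l : ℝ) ^ (-(D : ℝ) / 3))) ∧
    ∃ (c g0 : ℝ) (p : ℕ), 0 < c ∧ 0 < g0 ∧ ∀ (l : ℕ) [NeZero l] (g : ℝ), 0 < g → g < g0 →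
      (l : ℝ) ≤ g ^ (-κ) → glevel D l B μ g (Nat.card (Subgroup.center G) ^ D - 1) ≤
        glevel D l B μ g 0 + Real.exp (-(c / ((l : ℝ) ^ p * g)))

theorem abs_of_bounds {x e s lam ε : ℝ} (h1 : e + s * (lam - ε) ≤ x)
    (h2 : x ≤ e + s * (lam + ε)) : |x - e - s * lam| ≤ ε * s := by
  rw [abs_le]
  constructor
  · nlinarith
  · nlinarith

theorem fin_ofU (hSIM : S_SIM) (hDISC : S_DISC) (hGAP : S_GAPF) (hFINC : S_FINC)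
    (hLOW : S_LOWU) (hUPP : S_UPPU) (hGLOW : S_GLOWU) (hGUPP : S_GUPPU) (hFLUX : S_FLUXU) :
    S_FINU := by
  intro N n D G hG hc B _ _ μ _ _ hz hD hn
  obtain ⟨V, hV⟩ := exists_pot hSIM hG B hz hD
  have hne : Nonempty (Fin D × Fin n) := ⟨(⟨0, by omega⟩, ⟨0, by omega⟩)⟩
  have hinv : ∀ σ ∈ AdS B D, ∀ x, n2 (σ x) = n2 x := by
    rintro σ ⟨h, rfl⟩ x
    exact n2_adF B h x
  obtain ⟨d1, d2, d3⟩ := hDISC (Fin D × Fin n) V (AdS B D) hinv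
  have d4 := hGAP (Fin D × Fin n) V (AdS B D) hinv
  rw [hV] at d1 d2 d3 d4
  obtain ⟨p1, H1⟩ := hLOW N n D G hG hc B μ hz hD hn
  obtain ⟨p2, H2⟩ := hUPP N n D G hG hc B μ hz hD hn
  obtain ⟨p3, H3⟩ := hGLOW N n D G hG hc B μ hz hD hn
  obtain ⟨p4, H4⟩ := hGUPP N n D G hG hc B μ hz hD hn
  obtain ⟨p5, C5, hC5, H5⟩ := hFLUX N n D G hG hc B μ hz hD hn
  obtain ⟨P, hP⟩ : ∃ P, P = p1 + p2 + p3 + p4 + p5 := ⟨_, rfl⟩
  refine ⟨⟨d1, d4, d2, d3⟩, hFINC N n G hG B hz, 1 / ((P : ℝ) + 1), by positivity, ?_, ?_, ?_⟩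
  · intro k ε hε
    obtain ⟨C1, hC1, H1⟩ := H1 k ε hε
    obtain ⟨C2, hC2, H2⟩ := H2 k ε hε
    obtain ⟨g1, hg1, K1⟩ := cond_of P p1 C1 (by omega) hC1
    obtain ⟨g2, hg2, K2⟩ := cond_of P p2 C2 (by omega) hC2
    refine ⟨min g1 g2, lt_min hg1 hg2, fun l _ g hg hgg hl => ?_⟩
    exact abs_of_bounds (H1 l g hg (K1 l g hg (hgg.trans_le (min_le_left _ _)) hl))
      (H2 l g hg (K2 l g hg (hgg.trans_le (min_le_right _ _)) hl))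
  · intro k ε hε
    obtain ⟨C1, hC1, H1⟩ := H3 k ε hε
    obtain ⟨C2, hC2, H2⟩ := H4 k ε hε
    obtain ⟨g1, hg1, K1⟩ := cond_of P p3 C1 (by omega) hC1
    obtain ⟨g2, hg2, K2⟩ := cond_of P p4 C2 (by omega) hC2
    refine ⟨min g1 g2, lt_min hg1 hg2, fun l _ g hg hgg hl => ?_⟩
    exact abs_of_bounds (H1 l g hg (K1 l g hg (hgg.trans_le (min_le_left _ _)) hl))
      (H2 l g hg (K2 l g hg (hgg.trans_le (min_le_right _ _)) hl))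
  · obtain ⟨g1, hg1, K1⟩ := cond_of P p5 C5 (by omega) hC5
    refine ⟨C5⁻¹, g1, p5, by positivity, hg1, fun l _ g hg hgg hl => ?_⟩
    have h := H5 l g hg (K1 l g hg hgg hl)
    have e : -(C5 * (l : ℝ) ^ p5)⁻¹ / g = -(C5⁻¹ / ((l : ℝ) ^ p5 * g)) := by
      rw [neg_div, mul_inv, div_eq_mul_inv, div_eq_mul_inv, mul_inv]
      ring
    rwa [e] at h

end

end Pool.Agent.Q77.LU
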