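import Mathlib
import Pool.Agent.Q77.LU.StmA

/-!
# Project LU: lemma LOGE (helper151)
-/

set_option autoImplicit false

namespace Pool.Agent.Q77.LU

open MeasureTheory Set Filter Topology
open scoped ContDiff

noncomputable section

namespace LOGE

variable {P : Type} [Fintype P] [DecidableEq P]

/-- product of two gradients -/
def gg (f g : (P → ℝ) → ℝ) (x : P → ℝ) : ℝ := ∑ i, pd f i x * pd g i x

lemma g2_eq (f : (P → ℝ) → ℝ) (x : P → ℝ) : g2 f x = gg f f x := by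
  simp [g2, gg, pow_two]

lemma g2_nonneg (f : (P → ℝ) → ℝ) (x : P → ℝ) : 0 ≤ g2 f x :=
  Finset.sum_nonneg fun i _ => sq_nonneg _

lemma pd_cont {f : (P → ℝ) → ℝ} (hf : ContDiff ℝ 1 f) (i : P) : Continuous (pd f i) := by
  unfold pd
  exact (hf.continuous_fderiv (by norm_num)).clm_apply continuous_const

lemma pd_supp {f : (P → ℝ) → ℝ} (hf : HasCompactSupport f) (i : P) :
    HasCompactSupport (pd f i) := by
  unfold pd
  exact hf.fderiv_apply (𝕜 := ℝ) _

lemma gg_cont {f g : (P → ℝ) → ℝ} (hf : ContDiff ℝ 1 f) (hg : ContDiff ℝ 1 g) :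
    Continuous (gg f g) := by
  unfold gg
  exact continuous_finsetSum _ fun i _ => (pd_cont hf i).mul (pd_cont hg i)

lemma gg_int {f g : (P → ℝ) → ℝ} (hf : ContDiff ℝ 1 f) (hg : ContDiff ℝ 1 g)
    (sf : HasCompactSupport f) : Integrable (gg f g) := by
  unfold gg
  refine integrable_finsetSum _ fun i _ => ?_
  exact ((pd_cont hf i).mul (pd_cont hg i)).integrable_of_hasCompactSupport
    ((pd_supp sf i).mul_right)

lemma g2_cont {f : (P → ℝ) → ℝ} (hf : ContDiff ℝ 1 f) : Continuous (g2 f) := by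
  have : g2 f = gg f f := funext (g2_eq f)
  rw [this]; exact gg_cont hf hf

lemma g2_int {f : (P → ℝ) → ℝ} (hf : ContDiff ℝ 1 f) (sf : HasCompactSupport f) :
    Integrable (g2 f) := by
  have : g2 f = gg f f := funext (g2_eq f)
  rw [this]; exact gg_int hf hf sf

lemma mul_int {w f g : (P → ℝ) → ℝ} (hw : Continuous w) (hf : ContDiff ℝ 1 f)
    (hg : ContDiff ℝ 1 g) (sf : HasCompactSupport f) :
    Integrable (fun x => w x * (f x * g x)) := by
  refine (hw.mul (hf.continuous.mul hg.continuous)).integrable_of_hasCompactSupport ?_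
  exact (sf.mul_right).mul_left

/-- the form -/
def DD (w : (P → ℝ) → ℝ) (f g : (P → ℝ) → ℝ) : ℝ := ∫ x, (1 / 2 * gg f g x + w x * (f x * g x))

lemma DD_int {w f g : (P → ℝ) → ℝ} (hw : Continuous w) (hf : ContDiff ℝ 1 f)
    (hg : ContDiff ℝ 1 g) (sf : HasCompactSupport f) :
    Integrable (fun x => 1 / 2 * gg f g x + w x * (f x * g x)) :=
  ((gg_int hf hg sf).const_mul _).add (mul_int hw hf hg sf)

lemma pd_add_mul {f g : (P → ℝ) → ℝ} (hf : ContDiff ℝ 1 f) (hg : ContDiff ℝ 1 g) (t : ℝ) (i : P)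
    (x : P → ℝ) : pd (fun y => f y + t * g y) i x = pd f i x + t * pd g i x := by
  have h1 : HasFDerivAt f (fderiv ℝ f x) x := (hf.differentiable (by norm_num) x).hasFDerivAt
  have h2 : HasFDerivAt g (fderiv ℝ g x) x := (hg.differentiable (by norm_num) x).hasFDerivAt
  have h3 := h1.add (h2.const_mul t)
  unfold pd
  rw [show (fun y => f y + t * g y) = f + fun y => t * g y from rfl, h3.fderiv]
  simp

lemma gg_add_mul {f g : (P → ℝ) → ℝ} (hf : ContDiff ℝ 1 f) (hg : ContDiff ℝ 1 g) (t : ℝ)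
    (x : P → ℝ) : gg (fun y => f y + t * g y) (fun y => f y + t * g y) x =
      gg f f x + 2 * t * gg f g x + t ^ 2 * gg g g x := by
  unfold gg
  rw [Finset.mul_sum, Finset.mul_sum, ← Finset.sum_add_distrib, ← Finset.sum_add_distrib]
  refine Finset.sum_congr rfl fun i _ => ?_
  rw [pd_add_mul hf hg]; ring

lemma DD_expand {w f g : (P → ℝ) → ℝ} (hw : Continuous w) (hf : ContDiff ℝ 1 f)
    (hg : ContDiff ℝ 1 g) (sf : HasCompactSupport f) (sg : HasCompactSupport g) (t : ℝ) :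
    DD w (fun y => f y + t * g y) (fun y => f y + t * g y) =
      DD w f f + 2 * t * DD w f g + t ^ 2 * DD w g g := by
  unfold DD
  rw [← integral_const_mul, ← integral_const_mul, ← integral_add, ← integral_add]
  · refine integral_congr_ae (Eventually.of_forall fun x => ?_)
    simp only
    rw [gg_add_mul hf hg]; ring
  · exact (DD_int hw hf hf sf).add ((DD_int hw hf hg sf).const_mul _)
  · exact (DD_int hw hg hg sg).const_mul _
  · exact (DD_int hw hf hf sf)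
  · exact (DD_int hw hf hg sf).const_mul _

lemma qf_eq (v : (P → ℝ) → ℝ) (f : (P → ℝ) → ℝ) : qf v f = DD v f f := by
  unfold qf DD
  refine integral_congr_ae (Eventually.of_forall fun x => ?_)
  simp only
  rw [g2_eq]; ring

lemma DD_sub {v f g : (P → ℝ) → ℝ} (hv : Continuous v) (hf : ContDiff ℝ 1 f)
    (hg : ContDiff ℝ 1 g) (sf : HasCompactSupport f) (lam : ℝ) :
    DD (fun x => v x - lam) f g = DD v f g - lam * ∫ x, f x * g x := by
  unfold DD
  rw [← integral_const_mul, ← integral_sub]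
  · refine integral_congr_ae (Eventually.of_forall fun x => ?_)
    simp only
    ring
  · exact DD_int hv hf hg sf
  · exact mul_int (w := fun _ => lam) continuous_const hf hg sf

lemma one_le_inf : (1 : WithTop ℕ∞) ≤ (∞ : WithTop ℕ∞) := by
  exact_mod_cast le_top

lemma CI.c1 {𝒢 : Set ((P → ℝ) → (P → ℝ))} {f : (P → ℝ) → ℝ} (hf : CI 𝒢 f) : ContDiff ℝ 1 f :=
  hf.sm.of_le one_le_inf

lemma pd_const_mul {f : (P → ℝ) → ℝ} (c : ℝ) (hf : ContDiff ℝ 1 f) (i : P) (x : P → ℝ) :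
    pd (fun y => c * f y) i x = c * pd f i x := by
  have h1 : HasFDerivAt f (fderiv ℝ f x) x := (hf.differentiable (by norm_num) x).hasFDerivAt
  unfold pd
  rw [(h1.const_mul c).fderiv]
  simp

lemma qf_const_mul (v : (P → ℝ) → ℝ) {f : (P → ℝ) → ℝ} (c : ℝ) (hf : ContDiff ℝ 1 f) :
    qf v (fun y => c * f y) = c ^ 2 * qf v f := by
  unfold qf
  rw [← integral_const_mul]
  refine integral_congr_ae (Eventually.of_forall fun x => ?_)
  simp only
  have : g2 (fun y => c * f y) x = c ^ 2 * g2 f x := by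
    unfold g2
    rw [Finset.mul_sum]
    refine Finset.sum_congr rfl fun i _ => ?_
    rw [pd_const_mul c hf]; ring
  rw [this]; ring

lemma qf_nonneg (V : Pot P) (f : (P → ℝ) → ℝ) : 0 ≤ qf V.v f := by
  unfold qf
  refine integral_nonneg fun x => ?_
  have := g2_nonneg f x
  have := V.nonneg x
  positivity

lemma lev_bdd (V : Pot P) (𝒢 : Set ((P → ℝ) → (P → ℝ))) :
    ∀ E ∈ {E : ℝ | ∃ ψ : Fin (0 + 1) → (P → ℝ) → ℝ, (∀ i, CI 𝒢 (ψ i)) ∧
    (∀ i j, ∫ C, ψ i C * ψ j C = if i = j then 1 else 0) ∧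
    ∀ c : Fin (0 + 1) → ℝ, qf V.v (fun C => ∑ i, c i * ψ i C) ≤ E * ∑ i, c i ^ 2}, 0 ≤ E := by
  rintro E ⟨ψ, -, -, h⟩
  have h1 := h (fun _ => 1)
  have h2 := qf_nonneg V (fun C => ∑ i : Fin (0 + 1), (1 : ℝ) * ψ i C)
  have h3 : (∑ i : Fin (0 + 1), (1 : ℝ) ^ 2) = 1 := by simp
  rw [h3] at h1
  linarith

lemma lev_nonneg (V : Pot P) (𝒢 : Set ((P → ℝ) → (P → ℝ))) : 0 ≤ lev V.v 𝒢 0 :=
  Real.sInf_nonneg (lev_bdd V 𝒢)

lemma lev_le (V : Pot P) (𝒢 : Set ((P → ℝ) → (P → ℝ))) {f : (P → ℝ) → ℝ} (hf : CI 𝒢 f) :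
    lev V.v 𝒢 0 * ∫ x, f x ^ 2 ≤ qf V.v f := by
  have hn : 0 ≤ ∫ x, f x ^ 2 := integral_nonneg fun x => sq_nonneg _
  rcases hn.eq_or_lt with h0 | h0
  · rw [← h0, mul_zero]; exact qf_nonneg V f
  · rw [← le_div_iff₀ h0]
    refine csInf_le ⟨0, lev_bdd V 𝒢⟩ ?_
    set I := ∫ x, f x ^ 2 with hI
    have hs : 0 < Real.sqrt I := Real.sqrt_pos.2 h0
    refine ⟨fun _ x => (Real.sqrt I)⁻¹ * f x, fun _ => ?_, ?_, ?_⟩
    · exact ⟨contDiff_const.mul hf.sm, hf.supp.mul_left, fun σ hσ x => by simp only [hf.inv σ hσ]⟩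
    · intro i j
      rw [if_pos (show i = j by omega)]
      have : ∀ C, (Real.sqrt I)⁻¹ * f C * ((Real.sqrt I)⁻¹ * f C) = I⁻¹ * f C ^ 2 := by
        intro C
        have : (Real.sqrt I)⁻¹ * (Real.sqrt I)⁻¹ = I⁻¹ := by
          rw [← mul_inv, Real.mul_self_sqrt h0.le]
        calc _ = ((Real.sqrt I)⁻¹ * (Real.sqrt I)⁻¹) * f C ^ 2 := by ring
          _ = _ := by rw [this]
      simp only [this]
      rw [integral_const_mul, ← hI, inv_mul_cancel₀ h0.ne']
    · intro c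
      have h1 : (fun C => ∑ i : Fin (0 + 1), c i * ((Real.sqrt I)⁻¹ * f C)) =
          fun C => (c 0 * (Real.sqrt I)⁻¹) * f C := by
        funext C
        simp; ring
      have h2 : (∑ i : Fin (0 + 1), c i ^ 2) = c 0 ^ 2 := by simp
      rw [h1, h2, qf_const_mul _ _ (CI.c1 hf), mul_pow, inv_pow, Real.sq_sqrt h0.le]
      apply le_of_eq; field_simp

lemma DD_nonneg (V : Pot P) (𝒢 : Set ((P → ℝ) → (P → ℝ))) {f : (P → ℝ) → ℝ} (hf : CI 𝒢 f) :
    0 ≤ DD (fun x => V.v x - lev V.v 𝒢 0) f f := by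
  rw [DD_sub V.cont (CI.c1 hf) (CI.c1 hf) hf.supp, ← qf_eq]
  have := lev_le V 𝒢 hf
  have e : ∀ x, f x * f x = f x ^ 2 := fun x => by ring
  simp only [e]
  linarith

/-- sum of invariant functions -/
lemma CI.add_mul {𝒢 : Set ((P → ℝ) → (P → ℝ))} {f g : (P → ℝ) → ℝ} (hf : CI 𝒢 f) (hg : CI 𝒢 g)
    (t : ℝ) : CI 𝒢 (fun y => f y + t * g y) :=
  ⟨hf.sm.add (contDiff_const.mul hg.sm), hf.supp.add hg.supp.mul_left,
    fun σ hσ x => by rw [hf.inv σ hσ, hg.inv σ hσ]⟩

/-- one sided Cauchy-Schwarz inequality -/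
lemma DD_cs (V : Pot P) (𝒢 : Set ((P → ℝ) → (P → ℝ))) {f g : (P → ℝ) → ℝ} (hf : CI 𝒢 f)
    (hg : CI 𝒢 g) (C : ℝ) (hC : 0 < C) (h1 : DD (fun x => V.v x - lev V.v 𝒢 0) f f ≤ 1 / C)
    (h2 : DD (fun x => V.v x - lev V.v 𝒢 0) g g ≤ C) :
    -1 ≤ DD (fun x => V.v x - lev V.v 𝒢 0) f g := by
  have h3 := DD_nonneg V 𝒢 (CI.add_mul hf hg (1 / C))
  have hcw : Continuous (fun x => V.v x - lev V.v 𝒢 0) := V.cont.sub continuous_const
  rw [DD_expand hcw (CI.c1 hf) (CI.c1 hg) hf.supp hg.supp] at h3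
  set a := DD (fun x => V.v x - lev V.v 𝒢 0) f f
  set b := DD (fun x => V.v x - lev V.v 𝒢 0) g g
  set c := DD (fun x => V.v x - lev V.v 𝒢 0) f g
  have h4 : (1 / C) ^ 2 * b ≤ 1 / C := by
    calc (1 / C) ^ 2 * b ≤ (1 / C) ^ 2 * C := mul_le_mul_of_nonneg_left h2 (by positivity)
      _ = 1 / C := by field_simp
  have h5 : 0 ≤ (1 / C) * (2 + 2 * c) := by nlinarith
  have h6 : 0 < 1 / C := by positivity
  have h7 : 0 ≤ 2 + 2 * c := by
    by_contra hcon
    push Not at hcon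
    nlinarith [mul_neg_of_pos_of_neg h6 hcon]
  linarith

/-! ### the regularised modulus -/

/-- `sqrt (h² + e²) - e` -/
def uu (e : ℝ) (h : (P → ℝ) → ℝ) (x : P → ℝ) : ℝ := Real.sqrt (h x ^ 2 + e ^ 2) - e

lemma sq_pos {e : ℝ} (he : 0 < e) (y : ℝ) : 0 < y ^ 2 + e ^ 2 := by positivity

lemma uu_CI {𝒢 : Set ((P → ℝ) → (P → ℝ))} {h : (P → ℝ) → ℝ} (hh : CI 𝒢 h) {e : ℝ} (he : 0 < e) :
    CI 𝒢 (uu e h) := by
  refine ⟨?_, ?_, ?_⟩
  · unfold uu
    refine ContDiff.sub (ContDiff.sqrt ?_ fun x => (sq_pos he _).ne') contDiff_const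
    exact (hh.sm.pow 2).add contDiff_const
  · refine hh.supp.mono' (fun x hx => subset_tsupport _ ?_)
    rw [Function.mem_support] at hx ⊢
    intro h0
    apply hx
    unfold uu
    rw [h0]
    simp [Real.sqrt_sq he.le]
  · intro σ hσ x
    unfold uu
    rw [hh.inv σ hσ]

lemma uu_nonneg {e : ℝ} (he : 0 < e) (h : (P → ℝ) → ℝ) (x : P → ℝ) : 0 ≤ uu e h x := by
  unfold uu
  have : e ≤ Real.sqrt (h x ^ 2 + e ^ 2) := Real.le_sqrt_of_sq_le (by nlinarith [sq_nonneg (h x)])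
  linarith

lemma pd_uu {h : (P → ℝ) → ℝ} (hh : ContDiff ℝ 1 h) {e : ℝ} (he : 0 < e) (i : P) (x : P → ℝ) :
    pd (uu e h) i x = h x / Real.sqrt (h x ^ 2 + e ^ 2) * pd h i x := by
  have h1 : HasFDerivAt h (fderiv ℝ h x) x := (hh.differentiable (by norm_num) x).hasFDerivAt
  have h2 : HasDerivAt (fun y : ℝ => Real.sqrt (y ^ 2 + e ^ 2) - e)
      (h x / Real.sqrt (h x ^ 2 + e ^ 2)) (h x) := by
    have a1 : HasDerivAt (fun y : ℝ => y ^ 2 + e ^ 2) (2 * h x) (h x) := by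
      have := (hasDerivAt_pow 2 (h x)).add_const (e ^ 2)
      simpa using this
    have a2 := (a1.sqrt (sq_pos he _).ne').sub_const e
    rwa [mul_div_mul_left _ _ (two_ne_zero : (2 : ℝ) ≠ 0)] at a2
  have h3 := h2.comp_hasFDerivAt x h1
  unfold pd
  have h4 : uu e h = (fun y : ℝ => Real.sqrt (y ^ 2 + e ^ 2) - e) ∘ h := rfl
  rw [h4, h3.fderiv]
  simp

lemma g2_uu {h : (P → ℝ) → ℝ} (hh : ContDiff ℝ 1 h) {e : ℝ} (he : 0 < e) (x : P → ℝ) :
    g2 (uu e h) x = (h x / Real.sqrt (h x ^ 2 + e ^ 2)) ^ 2 * g2 h x := by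
  unfold g2
  rw [Finset.mul_sum]
  refine Finset.sum_congr rfl fun i _ => ?_
  rw [pd_uu hh he]; ring

lemma g2_uu_le {h : (P → ℝ) → ℝ} (hh : ContDiff ℝ 1 h) {e : ℝ} (he : 0 < e) (x : P → ℝ) :
    g2 (uu e h) x ≤ g2 h x := by
  rw [g2_uu hh he, div_pow, Real.sq_sqrt (sq_pos he _).le]
  have h1 : h x ^ 2 / (h x ^ 2 + e ^ 2) ≤ 1 := by
    rw [div_le_one (sq_pos he _)]; nlinarith [sq_nonneg e]
  nlinarith [g2_nonneg h x]

lemma uu_sq_le {e : ℝ} (he : 0 < e) (h : (P → ℝ) → ℝ) (x : P → ℝ) :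
    uu e h x ^ 2 ≤ h x ^ 2 := by
  have h1 := uu_nonneg he h x
  unfold uu at *
  have h2 := Real.sq_sqrt (sq_pos he (h x)).le
  nlinarith

lemma uu_sq_ge {e : ℝ} (he : 0 < e) (h : (P → ℝ) → ℝ) (x : P → ℝ) :
    h x ^ 2 - uu e h x ^ 2 ≤ e * (1 + h x ^ 2) := by
  have h0 := uu_sq_le he h x
  have h1 := uu_nonneg he h x
  have h3 : h x ^ 2 - uu e h x ^ 2 = 2 * e * uu e h x := by
    have h2 := Real.sq_sqrt (sq_pos he (h x)).le
    unfold uu
    nlinarith
  rw [h3]
  nlinarith [sq_nonneg (uu e h x - 1)]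

/-! ### the test function -/

/-- `η² / (u + ε)` -/
def ph (η u : (P → ℝ) → ℝ) (ε : ℝ) (x : P → ℝ) : ℝ := η x ^ 2 / (u x + ε)

lemma ph_CI {𝒢 : Set ((P → ℝ) → (P → ℝ))} {η u : (P → ℝ) → ℝ} (hη : CI 𝒢 η) (hu : CI 𝒢 u)
    (h0 : ∀ x, 0 ≤ u x) {ε : ℝ} (he : 0 < ε) : CI 𝒢 (ph η u ε) := by
  refine ⟨?_, ?_, ?_⟩
  · unfold ph
    refine ContDiff.div (hη.sm.pow 2) (hu.sm.add contDiff_const) fun x => ?_
    have := h0 x
    positivity
  · refine hη.supp.mono' (fun x hx => subset_tsupport _ ?_)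
    rw [Function.mem_support] at hx ⊢
    intro h0
    apply hx
    unfold ph
    rw [h0]
    simp
  · intro σ hσ x
    unfold ph
    rw [hη.inv σ hσ, hu.inv σ hσ]

lemma pd_ph {η u : (P → ℝ) → ℝ} (hη : ContDiff ℝ 1 η) (hu : ContDiff ℝ 1 u)
    (h0 : ∀ x, 0 ≤ u x) {ε : ℝ} (he : 0 < ε) (i : P) (x : P → ℝ) :
    pd (ph η u ε) i x = 2 * η x * pd η i x / (u x + ε) - η x ^ 2 * pd u i x / (u x + ε) ^ 2 := by
  have h1 : HasFDerivAt η (fderiv ℝ η x) x := (hη.differentiable (by norm_num) x).hasFDerivAt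
  have h2 : HasFDerivAt u (fderiv ℝ u x) x := (hu.differentiable (by norm_num) x).hasFDerivAt
  have hp : 0 < u x + ε := by have := h0 x; positivity
  have h3 : HasFDerivAt (fun y => η y ^ 2) ((2 * η x) • fderiv ℝ η x) x := by
    have := h1.pow 2
    simpa using this
  have h4 : HasFDerivAt (fun y => (u y + ε)⁻¹) (-((u x + ε) ^ 2)⁻¹ • fderiv ℝ u x) x := by
    have := (hasDerivAt_inv hp.ne').comp_hasFDerivAt x (h2.add_const ε)
    exact this
  have h5 := h3.mul h4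
  unfold pd
  have h6 : ph η u ε = fun y => η y ^ 2 * (u y + ε)⁻¹ := by
    funext y; unfold ph; rw [div_eq_mul_inv]
  rw [h6]
  erw [h5.fderiv]
  simp
  field_simp
  ring

/-- pointwise bound of the form at `u`, `φ` -/
lemma form_u_ph {η u : (P → ℝ) → ℝ} (hη : ContDiff ℝ 1 η) (hu : ContDiff ℝ 1 u)
    (h0 : ∀ x, 0 ≤ u x) {ε : ℝ} (he : 0 < ε) (x : P → ℝ) (v lam : ℝ) (hv : 0 ≤ v)
    (hl : 0 ≤ lam) :
    1 / 2 * gg u (ph η u ε) x + (v - lam) * (u x * ph η u ε x) ≤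
      g2 η x + v * η x ^ 2 - 1 / 4 * (η x ^ 2 * g2 u x / (u x + ε) ^ 2) := by
  have hp : 0 < u x + ε := by have := h0 x; positivity
  have h1 : 1 / 2 * gg u (ph η u ε) x ≤ g2 η x - 1 / 4 * (η x ^ 2 * g2 u x / (u x + ε) ^ 2) := by
    unfold gg g2
    rw [Finset.mul_sum, Finset.mul_sum, Finset.sum_div, Finset.mul_sum, ← Finset.sum_sub_distrib]
    refine Finset.sum_le_sum fun i _ => ?_
    rw [pd_ph hη hu h0 he]
    have e1 : 1 / 2 * (pd u i x * (2 * η x * pd η i x / (u x + ε) -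
        η x ^ 2 * pd u i x / (u x + ε) ^ 2)) =
        pd η i x * (η x * pd u i x / (u x + ε)) - 1 / 2 * (η x * pd u i x / (u x + ε)) ^ 2 := by
      field_simp
    have e2 : η x ^ 2 * pd u i x ^ 2 / (u x + ε) ^ 2 = (η x * pd u i x / (u x + ε)) ^ 2 := by
      rw [div_pow, mul_pow]
    rw [e1, e2]
    nlinarith [sq_nonneg (pd η i x - 1 / 2 * (η x * pd u i x / (u x + ε)))]
  have h2 : 0 ≤ u x * ph η u ε x := by
    unfold ph
    have := h0 x
    positivity
  have h3 : u x * ph η u ε x ≤ η x ^ 2 := by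
    unfold ph
    rw [← mul_div_assoc, div_le_iff₀ hp]
    have := h0 x
    nlinarith [sq_nonneg (η x), mul_nonneg (sq_nonneg (η x)) he.le]
  have h4 : (v - lam) * (u x * ph η u ε x) ≤ v * η x ^ 2 := by
    calc (v - lam) * (u x * ph η u ε x) ≤ v * (u x * ph η u ε x) :=
          mul_le_mul_of_nonneg_right (by linarith) h2
      _ ≤ v * η x ^ 2 := mul_le_mul_of_nonneg_left h3 hv
  linarith

/-- pointwise bound of the form at `φ`, `φ` -/
lemma form_ph_ph {η u : (P → ℝ) → ℝ} (hη : ContDiff ℝ 1 η) (hu : ContDiff ℝ 1 u)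
    (h0 : ∀ x, 0 ≤ u x) (hη1 : ∀ x, 0 ≤ η x ∧ η x ≤ 1) {ε : ℝ} (he : 0 < ε) (x : P → ℝ)
    (v lam : ℝ) (hv : 0 ≤ v) (hl : 0 ≤ lam) :
    1 / 2 * gg (ph η u ε) (ph η u ε) x + (v - lam) * (ph η u ε x * ph η u ε x) ≤
      4 / ε ^ 2 * g2 η x + 1 / ε ^ 4 * g2 u x + 1 / ε ^ 2 * (v * η x ^ 2) := by
  have hux := h0 x
  have hp : 0 < u x + ε := by positivity
  obtain ⟨ha, hb⟩ := hη1 x
  have q0 : 0 ≤ η x / (u x + ε) := by positivity
  have q1 : η x / (u x + ε) ≤ 1 / ε := by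
    rw [div_le_div_iff₀ hp he]
    nlinarith
  have q2 : (η x / (u x + ε)) ^ 2 ≤ 1 / ε ^ 2 := by
    calc (η x / (u x + ε)) ^ 2 ≤ (1 / ε) ^ 2 := pow_le_pow_left₀ q0 q1 2
      _ = 1 / ε ^ 2 := by rw [div_pow, one_pow]
  have q4 : (η x / (u x + ε)) ^ 4 ≤ 1 / ε ^ 4 := by
    calc (η x / (u x + ε)) ^ 4 ≤ (1 / ε) ^ 4 := pow_le_pow_left₀ q0 q1 4
      _ = 1 / ε ^ 4 := by rw [div_pow, one_pow]
  have h1 : 1 / 2 * gg (ph η u ε) (ph η u ε) x ≤ 4 / ε ^ 2 * g2 η x + 1 / ε ^ 4 * g2 u x := by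
    unfold gg g2
    rw [Finset.mul_sum, Finset.mul_sum, Finset.mul_sum, ← Finset.sum_add_distrib]
    refine Finset.sum_le_sum fun i _ => ?_
    rw [pd_ph hη hu h0 he]
    have e1 : 2 * η x * pd η i x / (u x + ε) - η x ^ 2 * pd u i x / (u x + ε) ^ 2 =
        2 * (η x / (u x + ε) * pd η i x) - (η x / (u x + ε)) ^ 2 * pd u i x := by
      rw [div_pow]; field_simp
    rw [e1]
    set a := η x / (u x + ε)
    have r1 : (a * pd η i x) ^ 2 ≤ 1 / ε ^ 2 * pd η i x ^ 2 := by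
      rw [mul_pow]; exact mul_le_mul_of_nonneg_right q2 (sq_nonneg _)
    have r2 : (a ^ 2 * pd u i x) ^ 2 ≤ 1 / ε ^ 4 * pd u i x ^ 2 := by
      rw [mul_pow, ← pow_mul]; exact mul_le_mul_of_nonneg_right q4 (sq_nonneg _)
    have r3 : 4 / ε ^ 2 * pd η i x ^ 2 = 4 * (1 / ε ^ 2 * pd η i x ^ 2) := by ring
    rw [r3]
    nlinarith [sq_nonneg (2 * (a * pd η i x) + a ^ 2 * pd u i x)]
  have h2 : (v - lam) * (ph η u ε x * ph η u ε x) ≤ 1 / ε ^ 2 * (v * η x ^ 2) := by
    have s1 : ph η u ε x * ph η u ε x = (η x / (u x + ε)) ^ 2 * η x ^ 2 := by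
      unfold ph; rw [div_pow]; field_simp
    have s2 : (η x / (u x + ε)) ^ 2 * η x ^ 2 ≤ 1 / ε ^ 2 * η x ^ 2 :=
      mul_le_mul_of_nonneg_right q2 (sq_nonneg _)
    have s3 : 0 ≤ ph η u ε x * ph η u ε x := mul_self_nonneg _
    calc (v - lam) * (ph η u ε x * ph η u ε x) ≤ v * (ph η u ε x * ph η u ε x) :=
          mul_le_mul_of_nonneg_right (by linarith) s3
      _ ≤ v * (1 / ε ^ 2 * η x ^ 2) := by
          rw [s1]; exact mul_le_mul_of_nonneg_left s2 hv
      _ = _ := by ring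
  linarith

/-! ### the logarithm -/

/-- derivative of the odd logarithm -/
def Fd (e ε : ℝ) (y : ℝ) : ℝ :=
  |y| / (Real.sqrt (y ^ 2 + e ^ 2) * (Real.sqrt (y ^ 2 + e ^ 2) - e + ε))

lemma Fd_den {e ε : ℝ} (he : 0 < e) (hε : 0 < ε) (y : ℝ) :
    0 < Real.sqrt (y ^ 2 + e ^ 2) ∧ 0 < Real.sqrt (y ^ 2 + e ^ 2) - e + ε := by
  have h1 : e ≤ Real.sqrt (y ^ 2 + e ^ 2) := Real.le_sqrt_of_sq_le (by nlinarith [sq_nonneg y])
  exact ⟨by linarith, by linarith⟩

lemma Fd_cont {e ε : ℝ} (he : 0 < e) (hε : 0 < ε) : Continuous (Fd e ε) := by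
  unfold Fd
  refine continuous_abs.div₀ ?_ fun y => ?_
  · fun_prop
  · have := Fd_den he hε y
    exact (mul_pos this.1 this.2).ne'

/-- the odd logarithm -/
def Fl (e ε : ℝ) (y : ℝ) : ℝ := ∫ t in (0 : ℝ)..y, Fd e ε t

lemma Fl_deriv {e ε : ℝ} (he : 0 < e) (hε : 0 < ε) (y : ℝ) : HasDerivAt (Fl e ε) (Fd e ε y) y :=
  intervalIntegral.integral_hasDerivAt_right ((Fd_cont he hε).intervalIntegrable _ _)
    ((Fd_cont he hε).stronglyMeasurableAtFilter _ _) (Fd_cont he hε).continuousAt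

lemma Fl_c1 {e ε : ℝ} (he : 0 < e) (hε : 0 < ε) : ContDiff ℝ 1 (Fl e ε) := by
  rw [contDiff_one_iff_deriv]
  refine ⟨fun y => (Fl_deriv he hε y).differentiableAt, ?_⟩
  have : deriv (Fl e ε) = Fd e ε := funext fun y => (Fl_deriv he hε y).deriv
  rw [this]; exact Fd_cont he hε

lemma Fl_neg {e ε : ℝ} (y : ℝ) : Fl e ε (-y) = -Fl e ε y := by
  unfold Fl
  have h1 : ∫ t in (0 : ℝ)..y, Fd e ε (-t) = ∫ t in (-y)..(-0), Fd e ε t :=
    intervalIntegral.integral_comp_neg _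
  have h2 : ∀ t, Fd e ε (-t) = Fd e ε t := by
    intro t; unfold Fd; rw [abs_neg, neg_sq]
  simp only [h2] at h1
  rw [neg_zero] at h1
  rw [h1, intervalIntegral.integral_symm]

lemma Fl_pos {e ε : ℝ} (he : 0 < e) (hε : 0 < ε) {y : ℝ} (hy : 0 ≤ y) :
    Fl e ε y = Real.log (Real.sqrt (y ^ 2 + e ^ 2) - e + ε) - Real.log ε := by
  unfold Fl
  have h1 : ∀ t ∈ uIcc 0 y, HasDerivAt (fun t => Real.log (Real.sqrt (t ^ 2 + e ^ 2) - e + ε))
      (Fd e ε t) t := by
    intro t ht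
    rw [uIcc_of_le hy] at ht
    have a1 : HasDerivAt (fun y : ℝ => y ^ 2 + e ^ 2) (2 * t) t := by
      have := (hasDerivAt_pow 2 t).add_const (e ^ 2)
      simpa using this
    have a2 := ((a1.sqrt (sq_pos he _).ne').sub_const e).add_const ε
    rw [mul_div_mul_left _ _ (two_ne_zero : (2 : ℝ) ≠ 0)] at a2
    have a3 := a2.log (Fd_den he hε t).2.ne'
    convert a3 using 1
    unfold Fd
    rw [abs_of_nonneg ht.1, div_div]
  rw [intervalIntegral.integral_eq_sub_of_hasDerivAt h1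
    ((Fd_cont he hε).intervalIntegrable _ _)]
  congr 2
  simp [Real.sqrt_sq he.le]

lemma Fl_ge {e ε : ℝ} (he : 0 < e) (heε : e ≤ ε) {y : ℝ} (hy : Real.sqrt ε ≤ y) :
    1 / 2 * Real.log (1 / ε) ≤ Fl e ε y := by
  have hε : 0 < ε := by linarith
  have hs : 0 < Real.sqrt ε := Real.sqrt_pos.2 hε
  rw [Fl_pos he hε (by linarith)]
  have h1 : Real.sqrt ε ≤ Real.sqrt (y ^ 2 + e ^ 2) - e + ε := by
    have : y ≤ Real.sqrt (y ^ 2 + e ^ 2) := Real.le_sqrt_of_sq_le (by nlinarith [sq_nonneg e])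
    linarith
  have h2 : Real.log (Real.sqrt ε) ≤ Real.log (Real.sqrt (y ^ 2 + e ^ 2) - e + ε) :=
    Real.log_le_log hs h1
  rw [Real.log_sqrt hε.le] at h2
  rw [Real.log_div one_ne_zero hε.ne', Real.log_one]
  linarith

lemma pd_F {h : (P → ℝ) → ℝ} (hh : ContDiff ℝ 1 h) {e ε : ℝ} (he : 0 < e) (hε : 0 < ε) (i : P)
    (x : P → ℝ) : pd (fun y => Fl e ε (h y)) i x = Fd e ε (h x) * pd h i x := by
  have h1 : HasFDerivAt h (fderiv ℝ h x) x := (hh.differentiable (by norm_num) x).hasFDerivAt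
  have h3 := (Fl_deriv he hε (h x)).comp_hasFDerivAt x h1
  unfold pd
  have h4 : (fun y => Fl e ε (h y)) = Fl e ε ∘ h := rfl
  rw [h4, h3.fderiv]
  simp

lemma g2_F {h : (P → ℝ) → ℝ} (hh : ContDiff ℝ 1 h) {e ε : ℝ} (he : 0 < e) (hε : 0 < ε)
    (x : P → ℝ) : g2 (fun y => Fl e ε (h y)) x = g2 (uu e h) x / (uu e h x + ε) ^ 2 := by
  rw [g2_uu hh he]
  have : g2 (fun y => Fl e ε (h y)) x = Fd e ε (h x) ^ 2 * g2 h x := by
    unfold g2
    rw [Finset.mul_sum]
    refine Finset.sum_congr rfl fun i _ => ?_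
    rw [pd_F hh he hε]; ring
  rw [this]
  unfold Fd uu
  rw [div_pow, mul_pow, sq_abs, div_pow]
  have := Fd_den he hε (h x)
  have h1 := this.1.ne'
  have h2 := this.2.ne'
  field_simp

/-! ### the cut-off -/

lemma exists_cut (𝒢 : Set ((P → ℝ) → (P → ℝ))) (h𝒢 : ∀ σ ∈ 𝒢, ∀ x, n2 (σ x) = n2 x) (R : ℝ)
    (hR : 0 < R) : ∃ η : (P → ℝ) → ℝ, CI 𝒢 η ∧ (∀ x, 0 ≤ η x ∧ η x ≤ 1) ∧
      ∀ x ∈ Icc (fun _ : P => -R) (fun _ => R), η x = 1 := by
  set M : ℝ := 2 * (Fintype.card P + 1) * R ^ 2 with hM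
  have hMp : 0 < M := by positivity
  refine ⟨fun x => cutb (n2 x / M), ⟨?_, ?_, ?_⟩, ?_, ?_⟩
  · have h1 : ContDiff ℝ ∞ (fun x : P → ℝ => n2 x / M) := by
      unfold n2; fun_prop
    unfold cutb
    exact Real.smoothTransition.contDiff.comp (contDiff_const.sub (contDiff_const.mul h1))
  · have hK : IsCompact (Icc (fun _ : P => -(M + 1)) (fun _ => M + 1)) := isCompact_Icc
    refine HasCompactSupport.of_support_subset_isCompact hK fun x hx => ?_
    rw [Function.mem_support] at hx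
    have h1 : n2 x < M := by
      by_contra hcon
      push Not at hcon
      apply hx
      unfold cutb
      apply Real.smoothTransition.zero_of_nonpos
      have : 1 ≤ n2 x / M := by rwa [le_div_iff₀ hMp, one_mul]
      linarith
    have h2 : ∀ i, x i ^ 2 < M := fun i => lt_of_le_of_lt
      (Finset.single_le_sum (f := fun i => x i ^ 2) (fun j _ => sq_nonneg _) (Finset.mem_univ i)) h1
    constructor
    · intro i
      have := h2 i
      show -(M + 1) ≤ x i
      nlinarith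
    · intro i
      have := h2 i
      show x i ≤ M + 1
      nlinarith
  · intro σ hσ x
    rw [h𝒢 σ hσ]
  · intro x
    exact ⟨Real.smoothTransition.nonneg _, Real.smoothTransition.le_one _⟩
  · intro x hx
    unfold cutb
    apply Real.smoothTransition.one_of_one_le
    have h1 : n2 x ≤ Fintype.card P * R ^ 2 := by
      unfold n2
      calc ∑ i, x i ^ 2 ≤ ∑ _i : P, R ^ 2 := by
            refine Finset.sum_le_sum fun i _ => ?_
            have a := hx.1 i
            have b := hx.2 i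
            nlinarith
        _ = _ := by simp
    have h2 : n2 x / M ≤ 1 / 2 := by
      rw [div_le_iff₀ hMp, hM]
      nlinarith [sq_nonneg R]
    linarith

lemma nr_ge (x : P → ℝ) (i : P) : |x i| ≤ nr x := by
  unfold nr n2
  apply Real.abs_le_sqrt
  exact Finset.single_le_sum (f := fun i => x i ^ 2) (fun j _ => sq_nonneg _) (Finset.mem_univ i)

lemma nr_cont : Continuous (fun x : P → ℝ => nr x) := by
  unfold nr n2; fun_prop

/-- tail bound of the mass of the regularised modulus -/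
lemma mass {h : (P → ℝ) → ℝ} (hc : Continuous h) (hs : HasCompactSupport h)
    {e R1 : ℝ} (he : 0 < e) (hR : 0 < R1) :
    (∫ x, h x ^ 2) - ∫ x, uu e h x ^ 2 ≤
      e * (volume.real (Icc (fun _ : P => -R1) (fun _ => R1)) + ∫ x, h x ^ 2) +
        1 / R1 * ∫ x, nr x * h x ^ 2 := by
  have i1 : Integrable (fun x => h x ^ 2) := by
    have : (fun x => h x ^ 2) = fun x => h x * h x := by funext x; ring
    rw [this]
    exact (hc.mul hc).integrable_of_hasCompactSupport hs.mul_left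
  have i2 : Integrable (fun x => nr x * h x ^ 2) := by
    have : (fun x => nr x * h x ^ 2) = fun x => (nr x * h x) * h x := by funext x; ring
    rw [this]
    exact ((nr_cont.mul hc).mul hc).integrable_of_hasCompactSupport hs.mul_left
  have i3 : Integrable (fun x => uu e h x ^ 2) := by
    refine i1.mono' ?_ (Eventually.of_forall fun x => ?_)
    · have : Continuous (fun x => uu e h x ^ 2) := by unfold uu; fun_prop
      exact this.aestronglyMeasurable
    · rw [Real.norm_eq_abs, abs_of_nonneg (sq_nonneg _)]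
      exact uu_sq_le he h x
  have i4 : Integrable ((Icc (fun _ : P => -R1) (fun _ => R1)).indicator (fun _ => (1 : ℝ))) := by
    rw [integrable_indicator_iff measurableSet_Icc]
    exact (integrableOn_const (isCompact_Icc.measure_lt_top.ne))
  have v4 : ∫ x, (Icc (fun _ : P => -R1) (fun _ => R1)).indicator (fun _ => (1 : ℝ)) x =
      volume.real (Icc (fun _ : P => -R1) (fun _ => R1)) := by
    rw [integral_indicator measurableSet_Icc]
    simp
  have i5 : Integrable (fun x => e * ((Icc (fun _ : P => -R1) (fun _ => R1)).indicator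
      (fun _ => (1 : ℝ)) x + h x ^ 2)) := (i4.add i1).const_mul _
  rw [← integral_sub i1 i3, ← v4, ← integral_add i4 i1, ← integral_const_mul,
    ← integral_const_mul, ← integral_add i5 (i2.const_mul _)]
  refine integral_mono (i1.sub i3) (i5.add (i2.const_mul _)) fun x => ?_
  simp only
  by_cases hx : x ∈ Icc (fun _ : P => -R1) (fun _ => R1)
  · rw [indicator_of_mem hx]
    have h1 := uu_sq_ge he h x
    have h2 : 0 ≤ 1 / R1 * (nr x * h x ^ 2) := by
      have : 0 ≤ nr x := Real.sqrt_nonneg _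
      positivity
    linarith
  · rw [indicator_of_notMem hx]
    have h3 : R1 ≤ nr x := by
      by_contra hcon
      push Not at hcon
      apply hx
      constructor
      · intro i
        have := nr_ge x i
        have := neg_abs_le (x i)
        simp only
        linarith
      · intro i
        have := nr_ge x i
        have := le_abs_self (x i)
        simp only
        linarith
    have h4 : h x ^ 2 ≤ 1 / R1 * (nr x * h x ^ 2) := by
      rw [← mul_assoc]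
      have : 1 ≤ 1 / R1 * nr x := by
        rw [one_div, inv_mul_eq_div, le_div_iff₀ hR]; linarith
      nlinarith [sq_nonneg (h x)]
    have h5 : 0 ≤ e * (0 + h x ^ 2) := by positivity
    have h6 := sq_nonneg (uu e h x)
    linarith

end LOGE

open LOGE in
/-- **Lemma LOGE.** -/
theorem t_LOGE : S_LOGE := by
  intro P _ _ V 𝒢 h𝒢 R hR
  obtain ⟨η, hηC, hη1, hηR⟩ := exists_cut 𝒢 h𝒢 R hR
  set lam := lev V.v 𝒢 0 with hlam
  have lam0 : 0 ≤ lam := lev_nonneg V 𝒢
  have hη := CI.c1 hηC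
  set A := ∫ x, g2 η x with hA
  set W := ∫ x, V.v x * η x ^ 2 with hW
  have hA0 : 0 ≤ A := integral_nonneg fun x => g2_nonneg η x
  have hW0 : 0 ≤ W := integral_nonneg fun x => mul_nonneg (V.nonneg x) (sq_nonneg _)
  have iA : Integrable (g2 η) := g2_int hη hηC.supp
  have iW : Integrable (fun x => V.v x * η x ^ 2) := by
    have := mul_int V.cont hη hη hηC.supp
    refine this.congr (Eventually.of_forall fun x => ?_)
    simp only; ring
  refine ⟨4 * (1 + A + W), by positivity, fun ε hε hε16 => ?_⟩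
  set Cq := 4 / ε ^ 2 * A + 1 / ε ^ 4 * (2 * (lam + 1)) + 1 / ε ^ 2 * W + 1 with hCq
  have hCq1 : 1 ≤ Cq := by
    have : 0 ≤ 4 / ε ^ 2 * A + 1 / ε ^ 4 * (2 * (lam + 1)) + 1 / ε ^ 2 * W := by positivity
    linarith
  have hCq0 : 0 < Cq := by linarith
  set δ := 1 / (3 * Cq) with hδ
  have hδ0 : 0 < δ := by positivity
  have hκ := V.pos
  set R1 := lam * (lam + 1) * (3 * Cq) / V.κ + 1 with hR1
  have hR10 : 0 < R1 := by positivity
  set vol := volume.real (Icc (fun _ : P => -R1) (fun _ => R1)) with hvol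
  have hvol0 : 0 ≤ vol := measureReal_nonneg
  set e := min ε (δ / ((lam + 1) * (vol + 1))) with he
  have he0 : 0 < e := lt_min hε (by positivity)
  have heε : e ≤ ε := min_le_left _ _
  have heδ : lam * (e * (vol + 1)) ≤ δ := by
    have h1 : e ≤ δ / ((lam + 1) * (vol + 1)) := min_le_right _ _
    rw [le_div_iff₀ (by positivity)] at h1
    nlinarith [mul_nonneg he0.le (show 0 ≤ vol + 1 by positivity)]
  have hRδ : lam * (1 / R1 * ((lam + 1) / V.κ)) ≤ δ := by
    have h2 : lam * (lam + 1) * (3 * Cq) ≤ R1 * V.κ := by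
      rw [hR1, add_mul, div_mul_cancel₀ _ hκ.ne']; linarith
    have h3 : lam * (1 / R1 * ((lam + 1) / V.κ)) = lam * (lam + 1) / (R1 * V.κ) := by
      field_simp
    rw [h3, hδ, div_le_div_iff₀ (by positivity) (by positivity)]
    linarith
  refine ⟨min 1 δ, lt_min one_pos hδ0, min_le_left _ _, fun h hC hnorm hq => ?_⟩
  have hh := CI.c1 hC
  have huC := uu_CI hC he0
  have hu := CI.c1 huC
  have u0 := uu_nonneg he0 h
  have hφC := ph_CI hηC huC u0 hε
  have hφ := CI.c1 hφC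
  have hd1 : min 1 δ ≤ 1 := min_le_left _ _
  have hdδ : min 1 δ ≤ δ := min_le_right _ _
  -- energy of `u`
  have iqh : Integrable (fun x => 1 / 2 * g2 h x + V.v x * h x ^ 2) := by
    have := DD_int V.cont hh hh hC.supp
    refine this.congr (Eventually.of_forall fun x => ?_)
    simp only; rw [g2_eq]; ring
  have iqu : Integrable (fun x => 1 / 2 * g2 (uu e h) x + V.v x * uu e h x ^ 2) := by
    have := DD_int V.cont hu hu huC.supp
    refine this.congr (Eventually.of_forall fun x => ?_)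
    simp only; rw [g2_eq]; ring
  have hqu : qf V.v (uu e h) ≤ qf V.v h := by
    unfold qf
    refine integral_mono iqu iqh fun x => ?_
    simp only
    have h1 := g2_uu_le hh he0 x
    have h2 := mul_le_mul_of_nonneg_left (uu_sq_le he0 h x) (V.nonneg x)
    linarith
  have hgh : ∫ x, g2 h x ≤ 2 * qf V.v h := by
    unfold qf
    rw [← integral_const_mul]
    refine integral_mono (g2_int hh hC.supp) (iqh.const_mul _) fun x => ?_
    simp only
    have h2 := mul_nonneg (V.nonneg x) (sq_nonneg (h x))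
    linarith
  have hgu : ∫ x, g2 (uu e h) x ≤ 2 * (lam + 1) := by
    have : ∫ x, g2 (uu e h) x ≤ ∫ x, g2 h x :=
      integral_mono (g2_int hu huC.supp) (g2_int hh hC.supp) fun x => g2_uu_le hh he0 x
    linarith
  -- the defect
  have hsim : ∫ x, nr x * h x ^ 2 ≤ (lam + 1) / V.κ := by
    rw [le_div_iff₀ hκ]
    have := V.simon h hh hC.supp
    linarith
  have hm := mass hh.continuous hC.supp he0 hR10
  rw [hnorm, ← hvol] at hm
  have hdef : DD (fun x => V.v x - lev V.v 𝒢 0) (uu e h) (uu e h) ≤ 1 / Cq := by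
    rw [DD_sub V.cont hu hu huC.supp, ← qf_eq]
    have e1 : ∀ x, uu e h x * uu e h x = uu e h x ^ 2 := fun x => by ring
    simp only [e1]
    rw [← hlam]
    have h1 : 1 - ∫ x, uu e h x ^ 2 ≤ e * (vol + 1) + 1 / R1 * ((lam + 1) / V.κ) := by
      have : 1 / R1 * ∫ x, nr x * h x ^ 2 ≤ 1 / R1 * ((lam + 1) / V.κ) :=
        mul_le_mul_of_nonneg_left hsim (by positivity)
      linarith
    have h2 : lam * (1 - ∫ x, uu e h x ^ 2) ≤ 2 * δ := by
      calc lam * (1 - ∫ x, uu e h x ^ 2) ≤ lam * (e * (vol + 1) + 1 / R1 * ((lam + 1) / V.κ)) :=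
            mul_le_mul_of_nonneg_left h1 lam0
        _ = lam * (e * (vol + 1)) + lam * (1 / R1 * ((lam + 1) / V.κ)) := by ring
        _ ≤ 2 * δ := by linarith
    have h3 : 1 / Cq = 3 * δ := by rw [hδ]; field_simp
    rw [h3]
    nlinarith
  -- energy of `φ`
  have hφφ : DD (fun x => V.v x - lev V.v 𝒢 0) (ph η (uu e h) ε) (ph η (uu e h) ε) ≤ Cq := by
    have i1 : Integrable (fun x => 4 / ε ^ 2 * g2 η x + 1 / ε ^ 4 * g2 (uu e h) x +
        1 / ε ^ 2 * (V.v x * η x ^ 2)) :=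
      ((iA.const_mul _).add ((g2_int hu huC.supp).const_mul _)).add (iW.const_mul _)
    have h1 : DD (fun x => V.v x - lev V.v 𝒢 0) (ph η (uu e h) ε) (ph η (uu e h) ε) ≤
        ∫ x, (4 / ε ^ 2 * g2 η x + 1 / ε ^ 4 * g2 (uu e h) x +
          1 / ε ^ 2 * (V.v x * η x ^ 2)) := by
      unfold DD
      refine integral_mono (DD_int (V.cont.sub continuous_const) hφ hφ hφC.supp) i1 fun x => ?_
      exact form_ph_ph hη hu u0 hη1 hε x _ _ (V.nonneg x) lam0
    have i2 : Integrable (fun x => 4 / ε ^ 2 * g2 η x + 1 / ε ^ 4 * g2 (uu e h) x) :=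
      (iA.const_mul _).add ((g2_int hu huC.supp).const_mul _)
    rw [integral_add i2 (iW.const_mul _),
      integral_add (iA.const_mul _) ((g2_int hu huC.supp).const_mul _), integral_const_mul,
      integral_const_mul, integral_const_mul, ← hA, ← hW] at h1
    have h2 : 1 / ε ^ 4 * ∫ x, g2 (uu e h) x ≤ 1 / ε ^ 4 * (2 * (lam + 1)) :=
      mul_le_mul_of_nonneg_left hgu (by positivity)
    linarith
  have hcs := DD_cs V 𝒢 huC hφC Cq hCq0 hdef hφφ
  -- the main estimate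
  have iG : Integrable (fun x => η x ^ 2 * g2 (uu e h) x / (uu e h x + ε) ^ 2) := by
    refine Continuous.integrable_of_hasCompactSupport ?_ ?_
    · refine (((hη.continuous.pow 2).mul (g2_cont hu)).div₀
        ((hu.continuous.add continuous_const).pow 2) fun x => ?_)
      have := u0 x
      positivity
    · refine hηC.supp.mono' (fun x hx => subset_tsupport _ ?_)
      rw [Function.mem_support] at hx ⊢
      intro h0
      apply hx
      rw [h0]; simp
  have hmain : ∫ x, η x ^ 2 * g2 (uu e h) x / (uu e h x + ε) ^ 2 ≤ 4 * (1 + A + W) := by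
    have h1 : DD (fun x => V.v x - lev V.v 𝒢 0) (uu e h) (ph η (uu e h) ε) ≤
        ∫ x, (g2 η x + V.v x * η x ^ 2 -
          1 / 4 * (η x ^ 2 * g2 (uu e h) x / (uu e h x + ε) ^ 2)) := by
      unfold DD
      refine integral_mono (DD_int (V.cont.sub continuous_const) hu hφ huC.supp)
        ((iA.add iW).sub (iG.const_mul _)) fun x => ?_
      exact form_u_ph hη hu u0 hε x _ _ (V.nonneg x) lam0
    have i2 : Integrable (fun x => g2 η x + V.v x * η x ^ 2) := iA.add iW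
    rw [integral_sub i2 (iG.const_mul _), integral_add iA iW, integral_const_mul,
      ← hA, ← hW] at h1
    linarith
  refine ⟨fun x => Fl e ε (h x), (Fl_c1 he0 hε).comp hh, ?_, ?_, ?_⟩
  · have h1 : ∫ x in Icc (fun _ : P => -R) (fun _ => R), g2 (fun x => Fl e ε (h x)) x =
        ∫ x in Icc (fun _ : P => -R) (fun _ => R),
          η x ^ 2 * g2 (uu e h) x / (uu e h x + ε) ^ 2 := by
      refine setIntegral_congr_fun measurableSet_Icc fun x hx => ?_
      show g2 (fun x => Fl e ε (h x)) x = η x ^ 2 * g2 (uu e h) x / (uu e h x + ε) ^ 2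
      rw [g2_F hh he0 hε, hηR x hx]; ring
    rw [h1]
    refine (setIntegral_le_integral iG (Eventually.of_forall fun x => ?_)).trans hmain
    show 0 ≤ η x ^ 2 * g2 (uu e h) x / (uu e h x + ε) ^ 2
    have := g2_nonneg (uu e h) x
    positivity
  · intro x hx
    have := Fl_ge he0 heε hx
    linarith
  · intro x hx
    have := Fl_ge he0 heε (y := -h x) (by linarith)
    rw [Fl_neg] at this
    linarith

end

end Pool.Agent.Q77.LU
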