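import Mathlib
import Pool.Agent.Q77.LU.Fin
import Pool.Agent.Q222.LU.FIB
import Pool.Agent.Q31.LU.JR
import Pool.Agent.Q222.LU.SCS
import Pool.Agent.Q222.LU.TSM
import Pool.Agent.Q222.LU.GM
import Pool.Agent.Q61.LU.LLB
import Pool.Agent.Q61.LU.UPB
import Pool.Agent.Q150.LU.POIN
import Pool.Agent.Q77.LU.LOGE
import Pool.Agent.Q150.LU.GAPF
import Pool.Agent.Q222.LU.GS
import Pool.Agent.Q149.LU.EXPG
import Pool.Agent.Q38.LU.LOGC
import Pool.Agent.Q75.LU.ADC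
import Pool.Agent.Q241.LU.HAAR1
import Pool.Agent.Q297.LU.INVF
import Pool.Agent.Q84.LU.HAARMF
import Pool.Agent.Q58.LU.Tga
import Pool.Agent.Q58.LU.Card
import Pool.Agent.Q58.LU.Tree
import Pool.Agent.Q58.LU.Zero
import Pool.Agent.Q129.LU.Hessf
import Pool.Agent.Q2.LU.Hodge
import Pool.Agent.Q2.LU.Walk
import Pool.Agent.Q177.LU.SQT
import Pool.Agent.Q2.LU.EZ
import Pool.Agent.Q58.LU.Hc
import Pool.Agent.Q75.LU.JACG
import Pool.Agent.Q176.LU.LOC
import Pool.Agent.Q65.LU.AWAY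
import Pool.Agent.Q129.LU.Symm
import Pool.Agent.Q164.LU.THD
import Pool.Agent.Q65.LU.UNIQ
import Pool.Agent.Q52.LU.CHI
import Pool.Agent.Q65.LU.TAUO
import Pool.Agent.Q65.LU.LIFT
import Pool.Agent.Q230.LU.KIN
import Pool.Agent.Q149.LU.BCH
import Pool.Agent.Q149.LU.TAY0
import Pool.Agent.Q149.LU.TAYL
import Pool.Agent.Q38.LU.SIM
import Pool.Agent.Q154.LU.CHART
import Pool.Agent.Q66.LU.PULL
import Pool.Agent.Q164.LU.FAM
import Pool.Agent.Q75.LU.TINV
import Pool.Agent.Q176.LU.KEY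
import Pool.Agent.Q150.LU.LOW
import Pool.Agent.Q150.LU.UPP
import Pool.Agent.Q16.LU.LIFT1
import Pool.Agent.Q75.LU.DSUM
import Pool.Agent.Q75.LU.GLOW
import Pool.Agent.Q150.LU.DEC
import Pool.Agent.Q222.LU.CIG
import Pool.Agent.Q84.LU.AGM
import Pool.Agent.Q203.LU.DISC
import Pool.Agent.Q16.LU.GUPP
import Pool.Agent.Q222.LU.FLUX
import Pool.Agent.Q177.LU.GKEY
import Pool.Agent.Q174.LU.LOCV
/-!
# Project LU: assembly of the proof
-/

set_option autoImplicit false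

namespace Pool.Agent.Q77.LU

open Pool.Agent

theorem llb : S_LLB := Q61.LU.t_LLB Q222.LU.t_FIB Q31.LU.JR.t_JR Q222.LU.t_SCS Q222.LU.t_TSM
theorem upb : S_UPB := Q61.LU.t_UPB Q31.LU.JR.t_JR Q222.LU.t_GM
theorem gapf : S_GAPF := Q150.LU.t_GAPF Q150.LU.t_POIN (Q150.LU.t_NASH Q150.LU.t_POIN) t_LOGE
theorem expg : S_EXPG := Q149.LU.t_EXPG
theorem logc : S_LOGC := Q38.LU.LOGC.t_LOGC expg
theorem adc : S_ADC := Q75.LU.ADC.t_ADC expg logc
theorem finc : S_FINC := Q75.LU.ADC.t_FINC expg logc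
theorem haar1 : S_HAAR1 := Q241.LU.t_HAAR1 expg logc
theorem invf : S_INVF := Q297.LU.t_INVF expg logc
theorem haarm : S_HAARM := Q84.LU.t_HAARM expg logc haar1 invf
theorem tga : S_TGA := Q58.LU.t_TGA
theorem card : S_CARD := Q58.LU.t_CARD
theorem tree : S_TREE := Q58.LU.t_TREE tga
theorem zero : S_ZERO := Q58.LU.t_ZERO adc
theorem hodge : S_HODGE := Q2.LU.t_HODGE Q129.LU.t_HESSF
theorem ez : S_EZ := Q2.LU.t_EZ hodge Q177.LU.t_TRP
theorem flats : S_FLATS := Q2.LU.t_FLATS hodge (Q2.LU.t_WALK expg) Q177.LU.t_SQT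
theorem dec : S_DEC := Q150.LU.t_DEC Q129.LU.t_HESSF Q177.LU.t_TRP
theorem hc : S_HC := Q58.LU.t_HC
theorem ims : S_IMS := Q75.LU.t_IMS
theorem locv : S_LOCV := Q174.LU.t_LOCV expg logc Q75.LU.t_JACG
theorem loc : S_LOC := Q176.LU.t_LOC expg locv haar1 logc Q177.LU.t_TSC hc
theorem away : S_AWAY := Q65.LU.t_AWAY loc flats Q177.LU.t_TSC hc
theorem symm : S_SYMM := Q129.LU.t_SYMM expg
theorem thd : S_THD := Q164.LU.t_THD expg tga symm
theorem uniq : S_UNIQ := Q65.LU.t_UNIQ thd invf finc tga card symm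
theorem chi : S_CHI := Q52.LU.t_CHI thd haarm tree tga card symm uniq finc
theorem tauo : S_TAUO := Q65.LU.t_TAUO uniq zero hc tga expg
theorem lift : S_LIFT := Q65.LU.t_LIFT thd invf uniq tga card symm finc
theorem kin : S_KIN := Q230.LU.t_KIN expg
theorem tay0 : S_TAY0 := Q149.LU.t_TAY0 expg Q149.LU.t_BCH
theorem tayl : S_TAYL := Q149.LU.T.t_TAYL expg tay0 symm
theorem sim : S_SIM := Q38.LU.SIM.t_SIM
theorem chart : S_CHART := Q154.LU.t_CHART tayl sim chi uniq kin lift symm hc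
theorem pull : S_PULL := Q66.LU.t_PULL expg symm hc
theorem fam : S_FAM := Q164.LU.t_FAM pull symm
theorem tinv : S_TINV := Q75.LU.t_TINV
theorem scl : S_SCL := Q75.LU.t_SCL
theorem key : S_KEY := Q176.LU.t_KEY llb Q222.LU.t_TSM tinv pull ims away tauo hc symm
theorem low : S_LOW := Q150.LU.t_LOW dec chart key fam scl Q222.LU.t_GS ez
theorem upp : S_UPP := Q150.LU.t_UPP dec chart upb pull tinv symm Q222.LU.t_GS ez
theorem lift1 : S_LIFT1 := Q16.LU.t_LIFT1 thd invf uniq tga card symm finc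
theorem gkey : S_GKEY := Q177.LU.GKEY.t_GKEY lift1 llb Q222.LU.t_TSM tinv pull ims away tauo hc symm uniq
theorem dsum : S_DSUM := Q75.LU.DS.t_DSUM scl
theorem glow : S_GLOW := Q75.LU.t_GLOW dec chart gkey fam dsum ez finc
theorem gupp : S_GUPP := Q16.LU.t_GUPP dec chart upb pull tinv symm Q222.LU.t_GS ez finc lift1 uniq
theorem cig : S_CIG := Q222.LU.t_CIG hc
theorem agm : S_AGM := Q84.LU.AGM.t_AGM ims away hc gupp loc glow ez
theorem flux : S_FLUX := Q222.LU.t_FLUX agm cig lift1 tauo uniq ims dec finc hc symm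
theorem disc : S_DISC := Q203.LU.t_DISC Q150.LU.t_POIN

/-- The final theorem. -/
theorem t_FIN : S_FIN := fin_of sim disc gapf finc low upp glow gupp flux

end Pool.Agent.Q77.LU
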