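import Mathlib
import Pool.Agent.Q77.LU.FinU
import Pool.Agent.Q222.LU.SCS
import Pool.Agent.Q222.LU.TSM
import Pool.Agent.Q222.LU.GS
import Pool.Agent.Q222.LU.CIG
import Pool.Agent.Q150.LU.POIN
import Pool.Agent.Q150.LU.GAPF
import Pool.Agent.Q150.LU.DEC
import Pool.Agent.Q77.LU.LOGE
import Pool.Agent.Q149.LU.EXPG
import Pool.Agent.Q149.LU.BCH
import Pool.Agent.Q38.LU.LOGC
import Pool.Agent.Q38.LU.SIM
import Pool.Agent.Q75.LU.ADC
import Pool.Agent.Q75.LU.JACG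
import Pool.Agent.Q75.LU.TINV
import Pool.Agent.Q75.LU.DSUM
import Pool.Agent.Q241.LU.HAAR1
import Pool.Agent.Q58.LU.Tga
import Pool.Agent.Q58.LU.Card
import Pool.Agent.Q58.LU.Tree
import Pool.Agent.Q58.LU.Hc
import Pool.Agent.Q129.LU.Hessf
import Pool.Agent.Q129.LU.Symm
import Pool.Agent.Q2.LU.Hodge
import Pool.Agent.Q2.LU.Walk
import Pool.Agent.Q2.LU.EZ
import Pool.Agent.Q177.LU.SQT
import Pool.Agent.Q164.LU.THD
import Pool.Agent.Q164.LU.FAM
import Pool.Agent.Q66.LU.PULL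
import Pool.Agent.Q203.LU.DISC
import Pool.Agent.Q26.LU.Tsq
import Pool.Agent.Q261.LU.GAINU
import Pool.Agent.Q261.LU.DMAG
import Pool.Agent.Q58.LUU.Wei
import Pool.Agent.Q58.LUU.Nearu
import Pool.Agent.Q151.LU.Evn
import Pool.Agent.Q151.LU.Pcr
import Pool.Agent.Q24.LU.TSQU
import Pool.Agent.Q24.LU.ADCU
import Pool.Agent.Q111.LU.OMU
import Pool.Agent.Q111.LU.TAY0U
import Pool.Agent.Q111.LU.TAYLU
import Pool.Agent.Q251.LU.QIF
import Pool.Agent.Q98.LU.THDU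
import Pool.Agent.Q203.LU.INVU
import Pool.Agent.Q48.LU.HMU
import Pool.Agent.Q65.LU.UNIQU
import Pool.Agent.Q65.LU.TAUOU
import Pool.Agent.Q65.LU.LIFTU
import Pool.Agent.Q65.LU.AWAYU
import Pool.Agent.Q38.LU.CHIU
import Pool.Agent.Q38.LU.CHARTU
import Pool.Agent.Q38.LU.LOCU
import Pool.Agent.Q223.LU.LOCVU
import Pool.Agent.Q146.LU.LLBU
import Pool.Agent.Q222.LUU.GMU
import Pool.Agent.Q190.LU.KEYU
import Pool.Agent.Q190.LU.GKEYU
import Pool.Agent.Q150.LU.LOWU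
import Pool.Agent.Q150.LU.UPPU
import Pool.Agent.Q150.LU.GLOWU
import Pool.Agent.Q150.LU.GUPPU
import Pool.Agent.Q150.LU.KINU
import Pool.Agent.Q272.LU.FLUXU
import Pool.Agent.Q154.LU.AGMU
import Pool.Agent.Q222.LUU.FIBU
import Pool.Agent.Q146.LU.UPBU
import Pool.Agent.Q150.LU.Lip
import Pool.Agent.Q150.LU.IMSU
/-!
# Project LU, uniform version: assembly of the proof
-/

set_option autoImplicit false

namespace Pool.Agent.Q77.LU.UV

open Pool.Agent Pool.Agent.Q77.LU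

theorem gapf : S_GAPF := Q150.LU.t_GAPF Q150.LU.t_POIN (Q150.LU.t_NASH Q150.LU.t_POIN) t_LOGE
theorem expg : S_EXPG := Q149.LU.t_EXPG
theorem logc : S_LOGC := Q38.LU.LOGC.t_LOGC expg
theorem adc : S_ADC := Q75.LU.ADC.t_ADC expg logc
theorem finc : S_FINC := Q75.LU.ADC.t_FINC expg logc
theorem haar1 : S_HAAR1 := Q241.LU.t_HAAR1 expg logc
theorem tga : S_TGA := Q58.LU.t_TGA
theorem card : S_CARD := Q58.LU.t_CARD
theorem tree : S_TREE := Q58.LU.t_TREE tga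
theorem hodge : S_HODGE := Q2.LU.t_HODGE Q129.LU.t_HESSF
theorem ez : S_EZ := Q2.LU.t_EZ hodge Q177.LU.t_TRP
theorem dec : S_DEC := Q150.LU.t_DEC Q129.LU.t_HESSF Q177.LU.t_TRP
theorem hc : S_HC := Q58.LU.t_HC
theorem symm : S_SYMM := Q129.LU.t_SYMM expg
theorem thd : S_THD := Q164.LU.t_THD expg tga symm
theorem sim : S_SIM := Q38.LU.SIM.t_SIM
theorem pull : S_PULL := Q66.LU.t_PULL expg symm hc
theorem fam : S_FAM := Q164.LU.t_FAM pull symm
theorem tinv : S_TINV := Q75.LU.t_TINV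
theorem scl : S_SCL := Q75.LU.t_SCL
theorem dsum : S_DSUM := Q75.LU.DS.t_DSUM scl
theorem cig : S_CIG := Q222.LU.t_CIG hc
theorem disc : S_DISC := Q203.LU.t_DISC Q150.LU.t_POIN

theorem fibu : S_FIBU := Q222.LUU.t_FIBU
theorem upbu : S_UPBU := Q146.LU.t_UPBU Q222.LUU.t_GMU
theorem hesl : S_HESL := Q150.LUL.t_HESL expg
theorem gradt : S_GRADT := Q150.LUL.t_GRADT expg
theorem imsu : S_IMSU := Q150.LU.t_IMSU gradt hc

theorem llbu : S_LLBU := Q146.LU.t_LLBU fibu Q222.LU.t_SCS Q222.LU.t_TSM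
theorem tsqu : S_TSQU := Q24.LU.t_TSQU Q26.LU.t_TSH Q26.LU.t_ROT Q261.LU.t_GAINU Q58.LUU.t_WEI
  Q151.LU.Evn.t_EVN (Q2.LU.t_WALK expg) Q177.LU.t_SQT hodge ez hc
theorem omu : S_OMU := Q111.LU.t_OMU Q151.LU.Pcr.t_PCR Q129.LU.t_HESSF
theorem adcu : S_ADCU := Q24.LU.ADCU.t_ADCU expg logc adc finc
theorem nearu : S_NEARU := Q58.LUU.t_NEARU adcu tga hc
theorem thdu : S_THDU := Q98.LU.t_THDU expg tga
theorem invu : S_INVU := Q203.LU.t_INVU expg logc Q251.LU.t_QIF thd thdu card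
theorem hmu : S_HMU := Q48.LU.t_HMU expg logc Q251.LU.t_QIF thd thdu card haar1
theorem uniqu : S_UNIQU := Q65.LU.t_UNIQU invu thd thdu finc tga card symm
theorem tauou : S_TAUOU := Q65.LU.t_TAUOU nearu invu thd tga hc expg
theorem liftu : S_LIFTU := Q65.LU.t_LIFTU thd tga card symm finc
theorem chiu : S_CHIU := Q38.LU.t_CHIU hmu uniqu thd tree tga card symm finc
theorem kinu : S_KINU := Q150.LU.t_KINU expg Q151.LU.Pcr.t_PCR
theorem tay0u : S_TAY0U := Q111.LU.t_TAY0U expg Q149.LU.t_BCH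
theorem dmag : S_DMAG := Q261.LU.t_DMAG expg
theorem taylu : S_TAYLU := Q111.LU.t_TAYLU expg dmag tay0u symm
theorem chartu : S_CHARTU := Q38.LU.t_CHARTU taylu sim chiu uniqu invu kinu liftu symm hc omu
theorem locvu : S_LOCVU := Q223.LU.t_LOCVU expg logc Q75.LU.t_JACG
theorem locu : S_LOCU := Q38.LU.t_LOCU locvu Q26.LU.t_TSH hesl hc
theorem awayu : S_AWAYU := Q65.LU.t_AWAYU locu tsqu ez hc
theorem keyu : S_KEYU := Q190.LU.t_KEYU llbu Q222.LU.t_TSM tinv pull imsu awayu tauou hc symm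
theorem gkeyu : S_GKEYU := Q190.LU.t_GKEYU liftu llbu Q222.LU.t_TSM tinv pull imsu awayu tauou hc
  symm uniqu invu
theorem lowu : S_LOWU := Q150.LU.t_LOWU dec chartu keyu fam scl Q222.LU.t_GS ez
theorem uppu : S_UPPU := Q150.LU.t_UPPU dec chartu upbu pull tinv symm Q222.LU.t_GS ez
theorem glowu : S_GLOWU := Q150.LU.t_GLOWU dec chartu gkeyu fam dsum ez finc
theorem guppu : S_GUPPU := Q150.LU.t_GUPPU dec chartu upbu pull tinv symm Q222.LU.t_GS ez finc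
  liftu uniqu invu

theorem agmu : S_AGMU := Q154.LU.AGMU.t_AGMU gradt awayu hc guppu ez

theorem fluxu : S_FLUXU := Q272.LU.t_FLUXU agmu cig liftu tauou uniqu invu gradt dec finc hc symm

/-- The final theorem, uniform version. -/
theorem t_FINU : S_FINU := fin_ofU sim disc gapf finc lowu uppu glowu guppu fluxu

end Pool.Agent.Q77.LU.UV
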